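import Mathlib

set_option autoImplicit false
set_option linter.unusedSectionVars false

/-!
Integral operators with continuous symmetric kernel on a compact space.
-/

namespace Pool.Agent.R664.Haar

open MeasureTheory Topology Filter
open scoped RealInnerProductSpace

section
variable {X : Type*} [TopologicalSpace X] [CompactSpace X] [T2Space X] [MeasurableSpace X]
  [BorelSpace X] (m : Measure X) [IsProbabilityMeasure m]

/-- the Hilbert space -/
abbrev EE : Type _ := Lp ℝ 2 m

/-- inclusion of continuous functions -/
noncomputable abbrev inc : C(X, ℝ) →L[ℝ] EE m := ContinuousMap.toLp 2 m ℝ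

lemma inner_inc (f g : C(X, ℝ)) : ⟪inc m f, inc m g⟫ = ∫ x, f x * g x ∂m := by
  rw [ContinuousMap.inner_toLp]
  congr 1
  funext x
  simp [mul_comm]

variable (K : C(X × X, ℝ))

/-- the kernel as a map into continuous functions -/
noncomputable def kap : C(X, C(X, ℝ)) := K.curry

/-- the integral operator with values in continuous functions -/
noncomputable def SS : EE m →L[ℝ] C(X, ℝ) :=
  LinearMap.mkContinuous
    { toFun := fun f => ⟨fun x => ⟪inc m (kap K x), f⟫,
        (((inc m).continuous.comp (kap K).continuous).inner continuous_const)⟩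
      map_add' := fun f g => by
        ext x
        simp [inner_add_right]
      map_smul' := fun c f => by
        ext x
        simp [inner_smul_right] }
    (‖inc m‖ * ‖kap K‖) (fun f => by
      rw [ContinuousMap.norm_le _ (by positivity)]
      intro x
      calc ‖⟪inc m (kap K x), f⟫‖ ≤ ‖inc m (kap K x)‖ * ‖f‖ := norm_inner_le_norm _ _
        _ ≤ (‖inc m‖ * ‖kap K x‖) * ‖f‖ := by
            gcongr; exact (inc m).le_opNorm _
        _ ≤ (‖inc m‖ * ‖kap K‖) * ‖f‖ := by
            gcongr; exact (kap K).norm_coe_le_norm x)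

lemma SS_apply (f : EE m) (x : X) : SS m K f x = ⟪inc m (kap K x), f⟫ := rfl

lemma SS_inc (f : C(X, ℝ)) (x : X) : SS m K (inc m f) x = ∫ z, K (x, z) * f z ∂m := by
  rw [SS_apply, inner_inc]
  rfl

/-- the integral operator -/
noncomputable def TT : EE m →L[ℝ] EE m := (inc m).comp (SS m K)

lemma TT_apply (f : EE m) : TT m K f = inc m (SS m K f) := rfl

lemma TT_compact : IsCompactOperator (TT m K) := by
  have hS : IsCompactOperator (SS m K) := by
    refine (isCompactOperator_iff_isCompact_closure_image_closedBall (𝕜₁ := ℝ)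
      (SS m K).toLinearMap zero_lt_one).2 ?_
    let φ := ContinuousMap.linearIsometryBoundedOfCompact X ℝ ℝ
    have key : IsCompact (closure (φ '' ((SS m K) '' Metric.closedBall 0 1))) := by
      refine BoundedContinuousFunction.arzela_ascoli (Metric.closedBall (0 : ℝ) (‖SS m K‖))
        (isCompact_closedBall _ _) _ ?_ ?_
      · rintro _ x ⟨_, ⟨f, hf, rfl⟩, rfl⟩
        change SS m K f x ∈ _
        rw [mem_closedBall_zero_iff]
        rw [mem_closedBall_zero_iff] at hf
        calc ‖SS m K f x‖ ≤ ‖SS m K f‖ := (SS m K f).norm_coe_le_norm x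
          _ ≤ ‖SS m K‖ * ‖f‖ := (SS m K).le_opNorm f
          _ ≤ ‖SS m K‖ := by
            nlinarith [norm_nonneg (SS m K)]
      · intro x₀
        rw [Metric.equicontinuousAt_iff_pair]
        intro ε hε
        have hc : Continuous (fun x => inc m (kap K x)) :=
          (inc m).continuous.comp (kap K).continuous
        have h1 : ∀ᶠ x in 𝓝 x₀, dist (inc m (kap K x)) (inc m (kap K x₀)) < ε / 2 :=
          (hc.tendsto x₀).eventually (Metric.ball_mem_nhds _ (half_pos hε))
        refine ⟨_, h1, ?_⟩
        rintro x hx y hy ⟨_, ⟨_, ⟨f, hf, rfl⟩, rfl⟩⟩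
        change dist (SS m K f x) (SS m K f y) < ε
        rw [mem_closedBall_zero_iff] at hf
        rw [SS_apply, SS_apply, Real.dist_eq, ← inner_sub_left]
        have hxy : ‖inc m (kap K x) - inc m (kap K y)‖ < ε := by
          rw [← dist_eq_norm]
          have := dist_triangle_right (inc m (kap K x)) (inc m (kap K y)) (inc m (kap K x₀))
          have hx' : dist (inc m (kap K x)) (inc m (kap K x₀)) < ε / 2 := hx
          have hy' : dist (inc m (kap K y)) (inc m (kap K x₀)) < ε / 2 := hy
          linarith
        calc |⟪inc m (kap K x) - inc m (kap K y), f⟫|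
            ≤ ‖inc m (kap K x) - inc m (kap K y)‖ * ‖f‖ := abs_real_inner_le_norm _ _
          _ ≤ ‖inc m (kap K x) - inc m (kap K y)‖ := by
            nlinarith [norm_nonneg (inc m (kap K x) - inc m (kap K y))]
          _ < ε := hxy
    have h2 : (closure ((SS m K) '' Metric.closedBall 0 1))
        = φ ⁻¹' (closure (φ '' ((SS m K) '' Metric.closedBall 0 1))) := by
      rw [φ.isometry.isClosedEmbedding.isInducing.closure_eq_preimage_closure_image]
    change IsCompact (closure ((SS m K) '' Metric.closedBall 0 1))
    rw [h2]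
    exact φ.isometry.isClosedEmbedding.isCompact_preimage key
  exact hS.continuous_comp (inc m).continuous

variable {K} in
lemma TT_symm [m.Regular] (hK : ∀ x z, K (x, z) = K (z, x)) : (TT m K).IsSymmetric := by
  have hd : DenseRange (inc m) := ContinuousMap.toLp_denseRange ℝ m ℝ (by simp)
  have h1 : ∀ f g : C(X, ℝ), ⟪TT m K (inc m f), inc m g⟫ = ⟪inc m f, TT m K (inc m g)⟫ := by
    intro f g
    rw [TT_apply, TT_apply, inner_inc, inner_inc]
    simp_rw [SS_inc]
    have e1 : ∀ x, (∫ z, K (x, z) * f z ∂m) * g x = ∫ z, K (x, z) * f z * g x ∂m := fun x =>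
      (integral_mul_const _ _).symm
    have e2 : ∀ x, f x * (∫ z, K (x, z) * g z ∂m) = ∫ z, f x * (K (x, z) * g z) ∂m := fun x =>
      (integral_const_mul _ _).symm
    simp_rw [e1, e2]
    rw [integral_integral_swap_of_hasCompactSupport
      (f := fun x z => K (x, z) * f z * g x) (by
        have : Continuous (fun p : X × X => K p * f p.2 * g p.1) := by fun_prop
        exact this) (HasCompactSupport.of_compactSpace _)]
    congr 1
    funext x
    congr 1
    funext z
    rw [hK z x]
    ring
  intro f g
  have hc1 : Continuous (fun p : EE m × EE m => ⟪TT m K p.1, p.2⟫) := by fun_prop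
  have hc2 : Continuous (fun p : EE m × EE m => ⟪p.1, TT m K p.2⟫) := by fun_prop
  have := (hd.prodMap hd).equalizer hc1 hc2 (by
    funext p
    exact h1 p.1 p.2)
  exact congrFun this (f, g)

end

end Pool.Agent.R664.Haar
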