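import Pool.Agent.R664.Haar.Conv9

set_option autoImplicit false
set_option linter.unusedSectionVars false

/-!
Reduction of the problem.
-/

namespace Pool.Agent.R664.Haar

open MeasureTheory Topology Filter Set
open TopologicalSpace (Compacts)
open Pool.Agent.TH15.MoufangHaar (ClosedNormal NN XC XC_top near_state iso_near quot_data triv_CN
  CN_cong Cong Cong.comap Cong.closedNormal)

universe u

lemma kernel_of_sub {S Q : Type u} [TopologicalSpace S] [TopologicalSpace Q] [T2Space Q]
    {mulS : S → S → S} {mulQ ldivQ rdivQ : Q → Q → Q} {eQ : Q} (TQ : TopMoufang mulQ ldivQ rdivQ eQ)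
    (π : S → Q) (cπ : Continuous π) (hπ : ∀ x y, π (mulS x y) = mulQ (π x) (π y))
    (h : HaarSub mulQ (range π)) : HaarKernel mulS {x | π x = eQ} := by
  obtain ⟨S', _, _, _, mulS', ldivS', rdivS', eS', j, TS', hI, cj, ij, hj, hr⟩ := h
  have hex : ∀ x, ∃ s, j s = π x := by
    intro x
    have : π x ∈ range j := by rw [hr]; exact mem_range_self x
    exact this
  choose ρ hρ using hex
  refine ⟨S', inferInstance, inferInstance, inferInstance, mulS', ldivS', rdivS', eS', ρ, TS', hI,
    ?_, ?_, ?_, ?_⟩
  · rw [(cj.isClosedEmbedding ij).isInducing.continuous_iff]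
    have : j ∘ ρ = π := funext hρ
    rw [this]; exact cπ
  · intro s
    have : j s ∈ range π := by rw [← hr]; exact mem_range_self s
    obtain ⟨x, hx⟩ := this
    exact ⟨x, ij ((hρ x).trans hx)⟩
  · intro x y
    apply ij
    rw [hρ, hπ, hj, hρ, hρ]
  · intro x
    have h1 : j eS' = eQ := hom_one TS'.M TQ.M j hj
    change ρ x = eS' ↔ π x = eQ
    rw [← hρ x, ← h1, ij.eq_iff]

/-- A compact Moufang loop without invariant integral gives a nontrivial connected one in which no
nontrivial closed normal subloop and no nontrivial quotient has an invariant integral. -/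
theorem reduction {L : Type u} [TopologicalSpace L] [CompactSpace L] [T2Space L]
    {mul ldiv rdiv : L → L → L} {e : L} (TL : TopMoufang mul ldiv rdiv e)
    (hL : ¬ HasIntegral mul) :
    ∃ (K : Type u) (_ : TopologicalSpace K) (_ : CompactSpace K) (_ : T2Space K)
      (mulK ldivK rdivK : K → K → K) (eK : K), TopMoufang mulK ldivK rdivK eK ∧ ConnectedSpace K ∧
      Nontrivial K ∧ (SecondCountableTopology L → SecondCountableTopology K) ∧
      (∀ N : Set K, ClosedNormal mulK ldivK eK N → HaarSub mulK N → N = {eK}) ∧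
      (∀ N : Set K, ClosedNormal mulK ldivK eK N → HaarKernel mulK N → N = univ) := by
  obtain ⟨M, hM, hMc, hMk, hS⟩ := haar_radical TL
  obtain ⟨mulS, ldivS, rdivS, eS, TS, hmS⟩ := sub_top TL hM
  have cS : CompactSpace M := isCompact_iff_compactSpace.1 hM.closed.isCompact
  have conS : ConnectedSpace M := isConnected_iff_connectedSpace.1 hMc
  have hni : ¬ HasIntegral mulS := by
    intro hI
    exact hL (ext_haar TL hMk ⟨M, inferInstance, cS, inferInstance, mulS, ldivS, rdivS, eS,
      Subtype.val, TS, hI, continuous_subtype_val, Subtype.val_injective, hmS, Subtype.range_val⟩)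
  have hnq : ∀ T : Set M, HaarKernel mulS T → T = univ := by
    intro T hT
    have h1 := hS M mulS ldivS rdivS eS Subtype.val TS continuous_subtype_val
      Subtype.val_injective hmS (by rw [Subtype.range_val]) T hT
    rw [eq_univ_iff_forall]
    intro x
    obtain ⟨t, ht, htx⟩ := h1 x.2
    rwa [← Subtype.ext htx]
  obtain ⟨R, hR, hRs, hRmax⟩ := exists_max TS
  obtain ⟨Q, _, _, _, mul', ldiv', rdiv', π, q1, q2, q3, q4, q5, q6, q7, q8, q9, q10, q11⟩ :=
    quot_data TS.old TS.cm TS.cl TS.cr hR
  have TQ : TopMoufang mul' ldiv' rdiv' (π eS) :=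
    ⟨⟨q1.one_mul, q1.mul_one, q1.mul_ldiv, q1.ldiv_mul, q1.rdiv_mul, q1.mul_rdiv,
      fun x y z => q1.moufang y z x⟩, q2, q3, q4⟩
  have hle : ∀ x : M, ldivS eS x = x := by
    intro x
    have := TS.M.lm eS x
    rwa [TS.M.el] at this
  have hk : ∀ x, π x = π eS ↔ x ∈ R := by
    intro x
    rw [eq_comm, q11, hle]
  refine ⟨Q, inferInstance, inferInstance, inferInstance, mul', ldiv', rdiv', π eS, TQ,
    q7.connectedSpace q5, ?_, ?_, ?_, ?_⟩
  · -- nontrivial
    by_contra hcon
    rw [not_nontrivial_iff_subsingleton] at hcon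
    have hRu : R = range (id : M → M) := by
      rw [range_id, eq_univ_iff_forall]
      intro x
      exact (hk x).1 (Subsingleton.elim _ _)
    rw [hRu] at hRs
    exact hni (integral_of_triv TS (kernel_of_sub TS id continuous_id (fun _ _ => rfl) hRs))
  · intro hsc
    exact (IsOpenQuotientMap.mk q7 q5 q6).isQuotientMap.secondCountableTopology q6
  · -- no Haar closed normal subloops
    intro N hN hNs
    have hc := CN_cong TQ.old hN
    have hc2 := Cong.comap (mul := mulS) (ldiv := ldivS) (rdiv := rdivS) hc π q8 q9 q10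
    have hle' : ∀ q : Q, ldiv' (π eS) q = q := by
      intro q
      have := TQ.M.lm (π eS) q
      rwa [TQ.M.el] at this
    have hset : {n | ldiv' (π eS) (π n) ∈ N} = π ⁻¹' N := by
      ext n
      change ldiv' (π eS) (π n) ∈ N ↔ π n ∈ N
      rw [hle']
    have hPN : ClosedNormal mulS ldivS eS (π ⁻¹' N) := by
      have := Cong.closedNormal TS.old hc2 (by rw [hset]; exact hN.closed.preimage q5)
      rwa [hset] at this
    obtain ⟨mulP, ldivP, rdivP, eP, TP, hmP⟩ := sub_top TS hPN
    have cP : CompactSpace (π ⁻¹' N) := isCompact_iff_compactSpace.1 hPN.closed.isCompact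
    let π' : (π ⁻¹' N) → Q := fun x => π x
    have cπ' : Continuous π' := q5.comp continuous_subtype_val
    have hπ' : ∀ x y, π' (mulP x y) = mul' (π' x) (π' y) := by
      intro x y
      change π (mulP x y : M) = mul' (π x) (π y)
      rw [hmP, q8]
    have hrange : range π' = N := by
      apply Subset.antisymm
      · rintro _ ⟨x, rfl⟩
        exact x.2
      · intro q hq
        obtain ⟨x, rfl⟩ := q7 q
        exact ⟨⟨x, hq⟩, rfl⟩
    have hK1 : HaarKernel mulP {x | π' x = π eS} :=
      kernel_of_sub TQ π' cπ' hπ' (by rw [hrange]; exact hNs)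
    have hK2 : HaarSub mulP {x | π' x = π eS} := by
      obtain ⟨S', t1, t2, t3, mulS', ldivS', rdivS', eS', j, TS', hI, cj, ij, hj, hr⟩ := hRs
      have hjR : ∀ s, j s ∈ π ⁻¹' N := by
        intro s
        have h1 : j s ∈ R := by rw [← hr]; exact mem_range_self s
        change π (j s) ∈ N
        rw [(hk _).2 h1]
        exact hN.one_mem
      refine ⟨S', t1, t2, t3, mulS', ldivS', rdivS', eS', fun s => ⟨j s, hjR s⟩, TS', hI,
        cj.subtype_mk _, ?_, ?_, ?_⟩
      · intro s s' hss
        exact ij (congrArg Subtype.val hss)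
      · intro x y
        apply Subtype.ext
        rw [hmP]
        exact hj x y
      · apply Subset.antisymm
        · rintro _ ⟨s, rfl⟩
          change π (j s) = π eS
          rw [hk, ← hr]
          exact mem_range_self s
        · rintro ⟨x, hx⟩ hxe
          have h1 : x ∈ R := (hk x).1 hxe
          rw [← hr] at h1
          obtain ⟨s, rfl⟩ := h1
          exact ⟨s, rfl⟩
    have hIP : HasIntegral mulP := ext_haar TP hK1 hK2
    have hPs : HaarSub mulS (π ⁻¹' N) := ⟨_, inferInstance, cP, inferInstance, mulP, ldivP, rdivP, eP,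
      Subtype.val, TP, hIP, continuous_subtype_val, Subtype.val_injective, hmP, Subtype.range_val⟩
    have hRN : R ⊆ π ⁻¹' N := by
      intro x hx
      change π x ∈ N
      rw [(hk x).2 hx]
      exact hN.one_mem
    have hPR := hRmax _ hPN hPs hRN
    apply Subset.antisymm
    · intro q hq
      obtain ⟨x, rfl⟩ := q7 q
      have h1 : x ∈ π ⁻¹' N := hq
      rw [hPR] at h1
      exact (hk x).2 h1
    · rw [singleton_subset_iff]
      exact hN.one_mem
  · -- no Haar quotients
    intro N hN hNk
    obtain ⟨K', t1, t2, t3, mulK', ldivK', rdivK', eK', p, TK', hI, cp, sp, hp, hpk⟩ := hNk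
    have h1 : HaarKernel mulS (π ⁻¹' N) :=
      ⟨K', t1, t2, t3, mulK', ldivK', rdivK', eK', p ∘ π, TK', hI, cp.comp q5, sp.comp q7,
        fun x y => by
          change p (π (mulS x y)) = mulK' (p (π x)) (p (π y))
          rw [q8, hp], fun x => hpk (π x)⟩
    have h2 := hnq _ h1
    rw [eq_univ_iff_forall] at h2 ⊢
    intro q
    obtain ⟨x, rfl⟩ := q7 q
    exact h2 x

end Pool.Agent.R664.Haar
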