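import Pool.Agent.R664.Haar.Conv12

set_option autoImplicit false
set_option linter.unusedSectionVars false

/-!
Reduction of the problem: the space of closed normal subloops may be assumed connected.
-/

namespace Pool.Agent.R664.Haar

open MeasureTheory Topology Filter Set
open TopologicalSpace (Compacts)
open Pool.Agent.TH15.MoufangHaar (ClosedNormal NN XC triv_CN join join_cont join_CN mem_join)

universe u

lemma nn_connected {K : Type u} [TopologicalSpace K] [CompactSpace K] [T2Space K]
    {mul ldiv rdiv : K → K → K} {e : K} (TK : TopMoufang mul ldiv rdiv e)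
    (hq : ∀ N : Set K, ClosedNormal mul ldiv e N → HaarKernel mul N → N = univ) :
    IsConnected {N : Compacts K | ClosedNormal mul ldiv e (N : Set K)} := by
  obtain ⟨M, hM, hMt, hMc, hMk⟩ := radical TK
  have hMN : M ∈ NN mul ldiv e := connectedComponentIn_subset _ _ hM
  have hMu : (M : Set K) = univ := hq _ hMN hMk
  have hT : ({e} : Compacts K) ∈ NN mul ldiv e := triv_CN TK.old
  refine ⟨⟨{e}, hT⟩, isPreconnected_of_forall M ?_⟩
  intro N hN
  have hpre : IsPreconnected ((fun K' => join TK.cm K' N) '' XC mul ldiv e) :=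
    isPreconnected_connectedComponentIn.image _ (join_cont TK.cm N).continuousOn
  refine ⟨(fun K' => join TK.cm K' N) '' XC mul ldiv e, ?_, ⟨M, hM, ?_⟩,
    ⟨{e}, mem_connectedComponentIn hT, ?_⟩, hpre⟩
  · rintro _ ⟨K', hK', rfl⟩
    exact join_CN TK.old TK.cm (connectedComponentIn_subset _ _ hK') hN
  · apply SetLike.coe_injective
    change (join TK.cm M N : Set K) = (M : Set K)
    rw [hMu, eq_univ_iff_forall]
    intro x
    refine (mem_join TK.cm).2 ⟨x, ?_, e, ?_, TK.M.er x⟩
    · have : x ∈ (M : Set K) := by rw [hMu]; exact mem_univ x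
      exact this
    · exact ClosedNormal.one_mem hN
  · apply SetLike.coe_injective
    change (join TK.cm {e} N : Set K) = (N : Set K)
    ext z
    constructor
    · intro hz
      obtain ⟨a, ha, b, hb, rfl⟩ := (mem_join TK.cm).1 hz
      have : a = e := ha
      rw [this, TK.M.el]
      exact hb
    · intro hz
      exact (mem_join TK.cm).2 ⟨e, rfl, z, hz, TK.M.el z⟩

/-- **Reduction** -/
theorem reduction_iff :
    (∀ (L : Type u) [TopologicalSpace L] [CompactSpace L] [T2Space L] (mul ldiv rdiv : L → L → L)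
      (e : L), TopMoufang mul ldiv rdiv e → HasIntegral mul) ↔
    (∀ (K : Type u) [TopologicalSpace K] [CompactSpace K] [TopologicalSpace.MetrizableSpace K]
      [ConnectedSpace K] [Nontrivial K] (mul ldiv rdiv : K → K → K) (e : K),
      TopMoufang mul ldiv rdiv e →
      IsConnected {N : Compacts K | ClosedNormal mul ldiv e (N : Set K)} →
      ∃ N : Set K, ClosedNormal mul ldiv e N ∧
        ((N ≠ {e} ∧ HaarSub mul N) ∨ (N ≠ univ ∧ HaarKernel mul N))) := by
  constructor
  · intro h K _ _ _ _ _ mul ldiv rdiv e TK _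
    refine ⟨{e}, triv_CN TK.old, Or.inr ⟨?_, kernel_self TK (h K mul ldiv rdiv e TK)⟩⟩
    intro hu
    obtain ⟨x, hx⟩ := exists_ne e
    have : x ∈ ({e} : Set K) := by rw [hu]; exact mem_univ x
    exact hx this
  · intro h L _ _ _ mul ldiv rdiv e TL
    refine integral_of_sc TL (fun Q _ _ _ _ mulQ ldivQ rdivQ eQ TQ => ?_)
    by_contra hQ
    obtain ⟨K, t1, t2, t3, mulK, ldivK, rdivK, eK, TK, hcK, hnK, hsc, k1, k2⟩ := reduction TQ hQ
    have hsc' : SecondCountableTopology K := hsc inferInstance
    have hmet : TopologicalSpace.MetrizableSpace K :=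
      TopologicalSpace.metrizableSpace_of_t3_secondCountable K
    obtain ⟨N, hN, hN2⟩ := h K mulK ldivK rdivK eK TK (nn_connected TK k2)
    rcases hN2 with ⟨a, b⟩ | ⟨a, b⟩
    · exact a (k1 N hN b)
    · exact a (k2 N hN b)

end Pool.Agent.R664.Haar
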