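import Pool.Agent.R664.Haar.Conv10

set_option autoImplicit false
set_option linter.unusedSectionVars false

/-!
Second countable quotients.
-/

namespace Pool.Agent.R664.Haar

open MeasureTheory Topology Filter Set
open TopologicalSpace (Compacts)
open Pool.Agent.TH15.MoufangHaar (ClosedNormal NN XC triv_CN quot_data Cong Cong.comap
  Cong.closedNormal Cong.iff_ldiv)

universe u

section
variable {L : Type u} [TopologicalSpace L] [CompactSpace L] [T2Space L]
  {mul ldiv rdiv : L → L → L} {e : L}

/-- a countable family of functions closed under approximate translations -/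
lemma exists_family (hmul : Continuous (fun p : L × L => mul p.1 p.2)) (f : C(L, ℝ)) :
    ∃ F : Set C(L, ℝ), F.Countable ∧ f ∈ F ∧ ∀ h ∈ F, ∀ a : L,
      (∃ k ∈ closure F, ∀ x, k x = h (mul a x)) ∧ (∃ k ∈ closure F, ∀ x, k x = h (mul x a)) := by
  let tl : C(L, ℝ) → L → C(L, ℝ) := fun h a => ⟨fun x => h (mul a x),
    h.continuous.comp (hmul.comp (Continuous.prodMk_right a))⟩
  let tr : C(L, ℝ) → L → C(L, ℝ) := fun h a => ⟨fun x => h (mul x a),
    h.continuous.comp (hmul.comp (Continuous.prodMk_left a))⟩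
  have ctl : ∀ h, Continuous (tl h) := fun h =>
    ContinuousMap.continuous_of_continuous_uncurry _ (h.continuous.comp hmul)
  have ctr : ∀ h, Continuous (tr h) := fun h =>
    ContinuousMap.continuous_of_continuous_uncurry _
      (h.continuous.comp (hmul.comp continuous_swap))
  have step : ∀ F : Set C(L, ℝ), ∃ F' : Set C(L, ℝ), F.Countable → (F'.Countable ∧ F ⊆ F' ∧
      ∀ h ∈ F, ∀ a, tl h a ∈ closure F' ∧ tr h a ∈ closure F') := by
    intro F
    by_cases hF : F.Countable
    · have : Countable F := hF.to_subtype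
      have h1 : TopologicalSpace.IsSeparable (⋃ h : F, (range (tl h) ∪ range (tr h))) :=
        TopologicalSpace.IsSeparable.iUnion fun h =>
          ((isCompact_range (ctl h)).isSeparable).union ((isCompact_range (ctr h)).isSeparable)
      obtain ⟨c, hc, hcc⟩ := h1
      refine ⟨F ∪ c, fun _ => ⟨hF.union hc, subset_union_left, fun h hh a => ⟨?_, ?_⟩⟩⟩
      · exact closure_mono subset_union_right
          (hcc (mem_iUnion.2 ⟨⟨h, hh⟩, Or.inl (mem_range_self a)⟩))
      · exact closure_mono subset_union_right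
          (hcc (mem_iUnion.2 ⟨⟨h, hh⟩, Or.inr (mem_range_self a)⟩))
    · exact ⟨F, fun h => absurd h hF⟩
  choose nx hnx using step
  let G : ℕ → Set C(L, ℝ) := fun n => nx^[n] {f}
  have hG : ∀ n, G (n + 1) = nx (G n) := fun n => Function.iterate_succ_apply' nx n {f}
  have hGc : ∀ n, (G n).Countable := by
    intro n
    induction n with
    | zero => exact countable_singleton f
    | succ n ih => rw [hG]; exact (hnx _ ih).1
  refine ⟨⋃ n, G n, countable_iUnion hGc, mem_iUnion.2 ⟨0, rfl⟩, ?_⟩
  intro h hh a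
  obtain ⟨n, hn⟩ := mem_iUnion.1 hh
  have h2 := (hnx _ (hGc n)).2.2 h hn a
  rw [← hG] at h2
  exact ⟨⟨tl h a, closure_mono (subset_iUnion G (n + 1)) h2.1, fun x => rfl⟩,
    ⟨tr h a, closure_mono (subset_iUnion G (n + 1)) h2.2, fun x => rfl⟩⟩

/-- every continuous function factors through a second countable quotient loop -/
lemma exists_sc_quotient (TL : TopMoufang mul ldiv rdiv e) (f : C(L, ℝ)) :
    ∃ (Q : Type u) (_ : TopologicalSpace Q) (_ : CompactSpace Q) (_ : T2Space Q)
      (_ : SecondCountableTopology Q) (mulQ ldivQ rdivQ : Q → Q → Q) (eQ : Q) (π : L → Q),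
      TopMoufang mulQ ldivQ rdivQ eQ ∧ Continuous π ∧ Function.Surjective π ∧
      (∀ x y, π (mul x y) = mulQ (π x) (π y)) ∧ ∀ x y, π x = π y → f x = f y := by
  obtain ⟨F, hFc, hfF, hF⟩ := exists_family TL.cm f
  let E : L → L → Prop := fun x y => ∀ h ∈ F, h x = h y
  have hE : ∀ {x y}, E x y → ∀ k ∈ closure F, k x = k y := by
    intro x y hxy k hk
    have hcl : IsClosed {k : C(L, ℝ) | k x = k y} :=
      isClosed_eq (continuous_eval_const x) (continuous_eval_const y)
    exact closure_minimal (s := F) (fun h hh => hxy h hh) hcl hk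
  have hl : ∀ {x y} z, E x y → E (mul z x) (mul z y) := by
    intro x y z hxy h hh
    obtain ⟨k, hk, hkx⟩ := (hF h hh z).1
    rw [← hkx, ← hkx]
    exact hE hxy k hk
  have hr : ∀ {x y} z, E x y → E (mul x z) (mul y z) := by
    intro x y z hxy h hh
    obtain ⟨k, hk, hkx⟩ := (hF h hh z).2
    rw [← hkx, ← hkx]
    exact hE hxy k hk
  have hC : Cong mul ldiv rdiv E :=
    { refl := fun x h _ => rfl
      symm := fun h k hk => (h k hk).symm
      trans := fun h h' k hk => (h k hk).trans (h' k hk)
      mul_r := hr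
      mul_l := hl
      ldiv_l := by
        intro x y z hxy
        rw [TL.M.ldiv_eq, TL.M.ldiv_eq]
        exact hl _ hxy
      rdiv_r := by
        intro x y z hxy
        rw [TL.M.rdiv_eq, TL.M.rdiv_eq]
        exact hr _ hxy }
  have hcl : IsClosed {n | E e n} := by
    have : {n | E e n} = ⋂ h ∈ F, {n | h e = h n} := by
      ext n; simp [E]
    rw [this]
    exact isClosed_biInter fun h _ => isClosed_eq continuous_const h.continuous
  have hN := Cong.closedNormal TL.old hC hcl
  obtain ⟨Q, t1, t2, t3, mul', ldiv', rdiv', π, q1, q2, q3, q4, q5, q6, q7, q8, q9, q10, q11⟩ :=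
    quot_data TL.old TL.cm TL.cl TL.cr hN
  have hpi : ∀ x y, π x = π y ↔ E x y := by
    intro x y
    rw [q11]
    exact (Cong.iff_ldiv TL.old hC).symm
  have hquot : IsQuotientMap π := (IsOpenQuotientMap.mk q7 q5 q6).isQuotientMap
  have hlift : ∀ h : F, ∃ g : C(Q, ℝ), ∀ x, g (π x) = (h : C(L, ℝ)) x := by
    intro h
    have hfac : Function.FactorsThrough (h : C(L, ℝ)) π := fun x y hxy => (hpi x y).1 hxy h h.2
    refine ⟨hquot.lift (f := ⟨π, q5⟩) h hfac, fun x => ?_⟩
    have := hquot.lift_comp (f := ⟨π, q5⟩) (h : C(L, ℝ)) hfac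
    exact DFunLike.congr_fun this x
  choose g hg using hlift
  have : Countable F := hFc.to_subtype
  have cι : Continuous (fun q : Q => fun h : F => g h q) :=
    continuous_pi fun h => (g h).continuous
  have iι : Function.Injective (fun q : Q => fun h : F => g h q) := by
    intro q r hqr
    obtain ⟨x, rfl⟩ := q7 q
    obtain ⟨y, rfl⟩ := q7 r
    rw [hpi]
    intro h hh
    have := congrFun hqr ⟨h, hh⟩
    simp only [hg] at this
    exact this
  have hsc : SecondCountableTopology Q := (cι.isClosedEmbedding iι).isEmbedding.secondCountableTopology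
  refine ⟨Q, t1, t2, t3, hsc, mul', ldiv', rdiv', π e, π,
    ⟨⟨q1.one_mul, q1.mul_one, q1.mul_ldiv, q1.ldiv_mul, q1.rdiv_mul, q1.mul_rdiv,
      fun x y z => q1.moufang y z x⟩, q2, q3, q4⟩, q5, q7, q8, fun x y hxy => ?_⟩
  exact (hpi x y).1 hxy f hfF

/-- if all second countable quotients have an invariant integral, then so does `L` -/
theorem integral_of_sc (TL : TopMoufang mul ldiv rdiv e)
    (h : ∀ (Q : Type u) [TopologicalSpace Q] [CompactSpace Q] [T2Space Q]
      [SecondCountableTopology Q] (mulQ ldivQ rdivQ : Q → Q → Q) (eQ : Q),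
      TopMoufang mulQ ldivQ rdivQ eQ → HasIntegral mulQ) : HasIntegral mul := by
  obtain ⟨M, hM, hMc, hMk, hS⟩ := haar_radical TL
  have h5 : M = {e} := by
    refine Subset.antisymm ?_ (singleton_subset_iff.2 hM.one_mem)
    intro m hm
    by_contra hne
    have hne' : m ≠ e := hne
    obtain ⟨f, hf0, hf1, -⟩ := exists_continuous_zero_one_of_isClosed
      (isClosed_singleton (x := m)) (isClosed_singleton (x := e)) (by
        rw [Set.disjoint_singleton]; exact hne')
    obtain ⟨Q, t1, t2, t3, t4, mulQ, ldivQ, rdivQ, eQ, π, TQ, cπ, sπ, hπ, hfπ⟩ :=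
      exists_sc_quotient TL f
    have hk : HaarKernel mul {x | π x = eQ} :=
      ⟨Q, t1, t2, t3, mulQ, ldivQ, rdivQ, eQ, π, TQ, h Q mulQ ldivQ rdivQ eQ TQ, cπ, sπ, hπ,
        fun x => Iff.rfl⟩
    have h3 := hS L mul ldiv rdiv e id TL continuous_id Function.injective_id (fun _ _ => rfl)
      (by rw [range_id]; exact subset_univ _) _ hk
    rw [image_id] at h3
    have h4 : π m = eQ := h3 hm
    have h6 : π e = eQ := hom_one TL.M TQ.M π hπ
    have h7 := hfπ m e (h4.trans h6.symm)
    have h8 : f m = 0 := hf0 rfl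
    have h9 : f e = 1 := hf1 rfl
    rw [h8, h9] at h7
    exact zero_ne_one h7
  rw [h5] at hMk
  exact integral_of_triv TL hMk

end

end Pool.Agent.R664.Haar
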