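import Pool.Agent.R664.Haar.Conv9

set_option autoImplicit false
set_option linter.unusedSectionVars false

/-!
Closed normal subloops of loops with an invariant integral have an invariant integral.
-/

namespace Pool.Agent.R664.Haar

open MeasureTheory Topology Filter Set
open TopologicalSpace (Compacts)
open Pool.Agent.TH15.MoufangHaar (ClosedNormal NN XC triv_CN quot_data)
open Pool.Agent.H100R2.MH (HasInvariantIntegralOn)

universe u

section
variable {L : Type u} [TopologicalSpace L] [CompactSpace L] [T2Space L]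
  {mul ldiv rdiv : L → L → L} {e : L}

/-- cut off of a mean by a nonnegative function -/
lemma cut_mean (I : C(L, ℝ) →ₗ[ℝ] ℝ) (hI : IsMean I) (w : C(L, ℝ)) (hw : ∀ x, 0 ≤ w x)
    (hpos : 0 < I w) : ∃ J : C(L, ℝ) →ₗ[ℝ] ℝ, IsMean J ∧ ∀ f, J f = (I w)⁻¹ * I (f * w) := by
  refine ⟨{ toFun := fun f => (I w)⁻¹ * I (f * w)
            map_add' := fun f g => by rw [add_mul, map_add, mul_add]
            map_smul' := fun c f => by
              rw [smul_mul_assoc, map_smul, RingHom.id_apply, smul_eq_mul, smul_eq_mul]; ring },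
    ⟨?_, ?_⟩, fun f => rfl⟩
  · intro f hf
    refine mul_nonneg (inv_nonneg.2 hpos.le) (hI.nonneg _ ?_)
    intro x
    exact mul_nonneg (hf x) (hw x)
  · change (I w)⁻¹ * I (1 * w) = 1
    rw [one_mul, inv_mul_cancel₀ hpos.ne']

lemma normal_on (TL : TopMoufang mul ldiv rdiv e) {N : Set L} (hN : ClosedNormal mul ldiv e N)
    (h : HasIntegral mul) : HasInvariantIntegralOn mul N := by
  obtain ⟨I, i1, i2, i3, i4⟩ := h
  have hI : IsMean I := ⟨fun f hf => i2 f hf, i1⟩
  obtain ⟨Q, t1, t2, t3, mul', ldiv', rdiv', π, q1, q2, q3, q4, q5, q6, q7, q8, q9, q10, q11⟩ :=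
    quot_data TL.old TL.cm TL.cl TL.cr hN
  have hk : ∀ x, π x = π e ↔ x ∈ N := by
    intro x
    rw [eq_comm, q11]
    have : ldiv e x = x := by
      have := TL.M.lm e x
      rwa [TL.M.el] at this
    rw [this]
  have hpos : ∀ w : C(L, ℝ), (∀ x, 0 ≤ w x) → 0 < w e → 0 < I w := by
    intro w hw hwe
    let _ : MeasurableSpace L := borel L
    have _ : BorelSpace L := ⟨rfl⟩
    obtain ⟨m, hreg, hprob, hm⟩ := exists_measure I hI
    have hL : ∀ a (f : C(L, ℝ)), ∫ x, f (mul a x) ∂m = ∫ x, f x ∂m := by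
      intro a f
      have e1 : ∫ x, f (mul a x) ∂m = I (f.comp (lt mul TL.cm a)) := hm (f.comp (lt mul TL.cm a))
      rw [e1, hm f]
      exact i3 a f _ (fun x => rfl)
    rw [← hm w]
    exact integral_pos' TL.M TL.cm m hL w hw hwe
  -- bump functions
  have hbump : ∀ V ∈ 𝓝 (π e), ∃ φ : C(Q, ℝ), (∀ q, 0 ≤ φ q) ∧ φ (π e) = 1 ∧ ∀ q, q ∉ V → φ q = 0 := by
    intro V hV
    obtain ⟨U, hUV, hUo, heU⟩ := mem_nhds_iff.1 hV
    obtain ⟨φ, h0, h1, h2⟩ := exists_continuous_zero_one_of_isClosed hUo.isClosed_compl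
      (isClosed_singleton (x := π e)) (by
        rw [Set.disjoint_singleton_right]
        exact fun h => h heU)
    exact ⟨φ, fun q => (h2 q).1, h1 rfl, fun q hq => h0 (fun h => hq (hUV h))⟩
  have hJ : ∀ V : Set Q, ∃ J : C(L, ℝ) →ₗ[ℝ] ℝ, IsMean J ∧ (V ∈ 𝓝 (π e) →
      (∀ (f : C(L, ℝ)) (ε : ℝ), (∀ x, π x ∈ V → |f x| ≤ ε) → |J f| ≤ ε) ∧
      (∀ a ∈ N, ∀ f g : C(L, ℝ), ((∀ x, g x = f (mul a x)) ∨ (∀ x, g x = f (mul x a))) →
        J g = J f)) := by
    intro V
    by_cases hV : V ∈ 𝓝 (π e)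
    · obtain ⟨φ, f0, f1, f2⟩ := hbump V hV
      let w : C(L, ℝ) := φ.comp ⟨π, q5⟩
      have hw : ∀ x, w x = φ (π x) := fun x => rfl
      have hwn : ∀ x, 0 ≤ w x := fun x => f0 _
      have hwp : 0 < I w := hpos w hwn (by rw [hw, f1]; exact one_pos)
      obtain ⟨J, hJm, hJf⟩ := cut_mean I hI w hwn hwp
      refine ⟨J, hJm, fun _ => ⟨?_, ?_⟩⟩
      · intro f ε hf
        have h1 : |I (f * w)| ≤ ε * I w := by
          rw [abs_le]
          constructor
          · have := hI.nonneg (f * w + ε • w) (by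
              intro x
              change 0 ≤ f x * w x + ε * w x
              by_cases hx : π x ∈ V
              · have := (abs_le.1 (hf x hx)).1
                nlinarith [hwn x]
              · rw [hw, f2 _ hx]; simp)
            rw [map_add, map_smul, smul_eq_mul] at this
            linarith
          · have := hI.nonneg (ε • w - f * w) (by
              intro x
              change 0 ≤ ε * w x - f x * w x
              by_cases hx : π x ∈ V
              · have := (abs_le.1 (hf x hx)).2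
                nlinarith [hwn x]
              · rw [hw, f2 _ hx]; simp)
            rw [map_sub, map_smul, smul_eq_mul] at this
            linarith
        rw [hJf, abs_mul, abs_of_pos (inv_pos.2 hwp)]
        calc (I w)⁻¹ * |I (f * w)| ≤ (I w)⁻¹ * (ε * I w) := by gcongr
          _ = ε := by field_simp
      · intro a ha f g hfg
        rw [hJf, hJf]
        congr 1
        have hπa : π a = π e := (hk a).2 ha
        rcases hfg with hg | hg
        · refine i3 a (f * w) (g * w) (fun x => ?_)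
          change g x * w x = f (mul a x) * w (mul a x)
          rw [hg, hw, hw, q8, hπa, q1.one_mul]
        · refine i4 a (f * w) (g * w) (fun x => ?_)
          change g x * w x = f (mul x a) * w (mul x a)
          rw [hg, hw, hw, q8, hπa, q1.mul_one]
    · exact ⟨I, hI, fun h => absurd h hV⟩
  choose J hJm hJp using hJ
  let ℱ : Filter (Set Q) := (𝓝 (π e)).smallSets ⊓ 𝓟 {V | V ∈ 𝓝 (π e)}
  have hne : ℱ.NeBot := by
    rw [← frequently_mem_iff_neBot, frequently_smallSets]
    exact fun t ht => ⟨t, subset_rfl, ht⟩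
  let 𝒰 : Ultrafilter (Set Q) := Ultrafilter.of ℱ
  have hle : (𝒰 : Filter (Set Q)) ≤ ℱ := Ultrafilter.of_le ℱ
  have hev1 : ∀ᶠ V in (𝒰 : Filter (Set Q)), V ∈ 𝓝 (π e) := by
    refine hle ?_
    exact mem_inf_of_right (mem_principal_self _)
  have hev2 : ∀ V₀ ∈ 𝓝 (π e), ∀ᶠ V in (𝒰 : Filter (Set Q)), V ⊆ V₀ := by
    intro V₀ hV₀
    refine hle (mem_inf_of_left ?_)
    exact eventually_smallSets.2 ⟨V₀, hV₀, fun t ht => ht⟩
  obtain ⟨K, hK, hKlim⟩ := exists_ultralimit 𝒰 J hJm
  have hKinv : ∀ a ∈ N, ∀ f g : C(L, ℝ), ((∀ x, g x = f (mul a x)) ∨ (∀ x, g x = f (mul x a))) →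
      K g = K f := by
    intro a ha f g hfg
    refine tendsto_nhds_unique (hKlim g) ((hKlim f).congr' ?_)
    filter_upwards [hev1] with V hV
    exact (((hJp V) hV).2 a ha f g hfg).symm
  have hKvan : ∀ f : C(L, ℝ), (∀ x ∈ N, f x = 0) → K f = 0 := by
    intro f hf
    have key : ∀ ε > 0, |K f| ≤ ε := by
      intro ε hε
      let V₀ : Set Q := (π '' {x | ε ≤ |f x|})ᶜ
      have hV₀ : V₀ ∈ 𝓝 (π e) := by
        have hcl : IsClosed {x : L | ε ≤ |f x|} := isClosed_le continuous_const f.continuous.abs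
        have : IsClosed (π '' {x | ε ≤ |f x|}) := (hcl.isCompact.image q5).isClosed
        refine this.isOpen_compl.mem_nhds ?_
        rintro ⟨x, hx, hxe⟩
        have hx' : ε ≤ |f x| := hx
        rw [hf x ((hk x).1 hxe), abs_zero] at hx'
        linarith
      refine le_of_tendsto ((hKlim f).abs) ?_
      filter_upwards [hev1, hev2 V₀ hV₀] with V hV hVV
      refine ((hJp V) hV).1 f ε (fun x hx => ?_)
      by_contra hcon
      push Not at hcon
      exact hVV hx ⟨x, hcon.le, rfl⟩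
    have : |K f| ≤ 0 := le_of_forall_pos_le_add (fun ε hε => by
      rw [zero_add]; exact key ε hε)
    exact abs_nonpos_iff.1 this
  have hKeq : ∀ f g : C(L, ℝ), (∀ x ∈ N, f x = g x) → K f = K g := by
    intro f g hfg
    have := hKvan (f - g) (fun x hx => by
      rw [ContinuousMap.sub_apply, hfg x hx, sub_self])
    rw [map_sub] at this
    linarith
  have hext : ∀ f : C(N, ℝ), ∃ g : C(L, ℝ), ∀ x : N, g x = f x := by
    intro f
    obtain ⟨g, hg⟩ := ContinuousMap.exists_restrict_eq hN.closed f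
    exact ⟨g, fun x => DFunLike.congr_fun hg x⟩
  choose E hE using hext
  have hEeq : ∀ (f : C(N, ℝ)) (g : C(L, ℝ)), (∀ x : N, g x = f x) → K (E f) = K g := by
    intro f g hg
    refine hKeq _ _ (fun x hx => ?_)
    rw [hE f ⟨x, hx⟩, hg ⟨x, hx⟩]
  refine ⟨{ toFun := fun f => K (E f), map_add' := ?_, map_smul' := ?_ }, ?_, ?_, ?_, ?_⟩
  · intro f g
    rw [← map_add]
    exact hEeq _ _ (fun x => by rw [ContinuousMap.add_apply, hE, hE]; rfl)
  · intro c f
    rw [RingHom.id_apply, ← map_smul]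
    exact hEeq _ _ (fun x => by rw [ContinuousMap.smul_apply, hE]; rfl)
  · change K (E 1) = 1
    rw [hEeq 1 1 (fun x => rfl), hK.one]
  · intro f hf
    change 0 ≤ K (E f)
    have h1 : K (E f) = K (E f ⊔ 0) := by
      refine hKeq _ _ (fun x hx => ?_)
      rw [ContinuousMap.sup_apply, hE f ⟨x, hx⟩]
      exact (max_eq_left (hf _)).symm
    rw [h1]
    exact hK.nonneg _ le_sup_right
  · intro k f g hfg
    change K (E g) = K (E f)
    rw [← hKinv k k.2 (E f) ((E f).comp (lt mul TL.cm k)) (Or.inl (fun x => rfl))]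
    refine hEeq _ _ (fun x => ?_)
    have := hfg x ⟨mul k x, hN.mul_mem _ k.2 _ x.2⟩ rfl
    rw [this]
    exact hE f ⟨mul k x, hN.mul_mem _ k.2 _ x.2⟩
  · intro k f g hfg
    change K (E g) = K (E f)
    let rc : C(L, L) := ⟨fun x => mul x k, TL.cm.comp (Continuous.prodMk_left (k : L))⟩
    rw [← hKinv k k.2 (E f) ((E f).comp rc) (Or.inr (fun x => rfl))]
    refine hEeq _ _ (fun x => ?_)
    have := hfg x ⟨mul x k, hN.mul_mem _ x.2 _ k.2⟩ rfl
    rw [this]
    exact hE f ⟨mul x k, hN.mul_mem _ x.2 _ k.2⟩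

/-- **Two out of three** -/
theorem two_of_three (TL : TopMoufang mul ldiv rdiv e) {N : Set L}
    (hN : ClosedNormal mul ldiv e N) :
    HasIntegral mul ↔ HaarSub mul N ∧ HaarKernel mul N := by
  constructor
  · intro h
    refine ⟨sub_of_on TL hN (normal_on TL hN h), ?_⟩
    obtain ⟨I, i1, i2, i3, i4⟩ := h
    obtain ⟨Q, t1, t2, t3, mul', ldiv', rdiv', π, q1, q2, q3, q4, q5, q6, q7, q8, q9, q10, q11⟩ :=
      quot_data TL.old TL.cm TL.cl TL.cr hN
    have hk : ∀ x, π x = π e ↔ x ∈ N := by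
      intro x
      rw [eq_comm, q11]
      have : ldiv e x = x := by
        have := TL.M.lm e x
        rwa [TL.M.el] at this
      rw [this]
    refine ⟨Q, t1, t2, t3, mul', ldiv', rdiv', π e, π,
      ⟨⟨q1.one_mul, q1.mul_one, q1.mul_ldiv, q1.ldiv_mul, q1.rdiv_mul, q1.mul_rdiv,
        fun x y z => q1.moufang y z x⟩, q2, q3, q4⟩, ?_, q5, q7, q8, hk⟩
    refine ⟨{ toFun := fun k => I (k.comp ⟨π, q5⟩)
              map_add' := fun k k' => map_add I (k.comp ⟨π, q5⟩) (k'.comp ⟨π, q5⟩)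
              map_smul' := fun c k => map_smul I c (k.comp ⟨π, q5⟩) }, i1,
      fun k hk => i2 _ (fun x => hk _), ?_, ?_⟩
    · intro q k g hg
      obtain ⟨a, rfl⟩ := q7 q
      refine i3 a _ _ (fun x => ?_)
      change g (π x) = k (π (mul a x))
      rw [hg, q8]
    · intro q k g hg
      obtain ⟨a, rfl⟩ := q7 q
      refine i4 a _ _ (fun x => ?_)
      change g (π x) = k (π (mul x a))
      rw [hg, q8]
  · rintro ⟨h1, h2⟩
    exact ext_haar TL h2 h1

end

end Pool.Agent.R664.Haar
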