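import Pool.Agent.R664.Haar.Conv12
import Pool.Agent.R664.Haar.Conv13

set_option autoImplicit false
set_option linter.unusedSectionVars false

/-!
The largest closed normal subloop with an invariant integral.
-/

namespace Pool.Agent.R664.Haar

open MeasureTheory Topology Filter Set
open TopologicalSpace (Compacts)
open Pool.Agent.TH15.MoufangHaar (ClosedNormal NN XC triv_CN quot_data join join_CN mem_join
  le_join_left le_join_right CN_cong Cong Cong.comap Cong.closedNormal)

universe u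

lemma push_integral {S Q : Type*} [TopologicalSpace S] [TopologicalSpace Q] {mulS : S → S → S}
    {mulQ : Q → Q → Q} (h : HasIntegral mulS) (ρ : S → Q) (cρ : Continuous ρ)
    (sρ : Function.Surjective ρ) (hρ : ∀ x y, ρ (mulS x y) = mulQ (ρ x) (ρ y)) :
    HasIntegral mulQ := by
  obtain ⟨I, i1, i2, i3, i4⟩ := h
  refine ⟨{ toFun := fun k => I (k.comp ⟨ρ, cρ⟩)
            map_add' := fun k k' => map_add I (k.comp ⟨ρ, cρ⟩) (k'.comp ⟨ρ, cρ⟩)
            map_smul' := fun c k => map_smul I c (k.comp ⟨ρ, cρ⟩) }, i1,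
    fun k hk => i2 _ (fun x => hk _), ?_, ?_⟩
  · intro q k g hg
    obtain ⟨a, rfl⟩ := sρ q
    refine i3 a _ _ (fun x => ?_)
    change g (ρ x) = k (ρ (mulS a x))
    rw [hg, hρ]
  · intro q k g hg
    obtain ⟨a, rfl⟩ := sρ q
    refine i4 a _ _ (fun x => ?_)
    change g (ρ x) = k (ρ (mulS x a))
    rw [hg, hρ]

section
variable {L : Type u} [TopologicalSpace L] [CompactSpace L] [T2Space L]
  {mul ldiv rdiv : L → L → L} {e : L}

/-- the largest closed normal subloop with an invariant integral -/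
theorem exists_largest (TL : TopMoufang mul ldiv rdiv e) :
    ∃ R : Set L, ClosedNormal mul ldiv e R ∧ HaarSub mul R ∧
      ∀ N : Set L, ClosedNormal mul ldiv e N → HaarSub mul N → N ⊆ R := by
  obtain ⟨R, hR, hRs, hRmax⟩ := exists_max TL
  refine ⟨R, hR, hRs, fun N hN hNs => ?_⟩
  let Rc : Compacts L := ⟨R, hR.closed.isCompact⟩
  let Nc : Compacts L := ⟨N, hN.closed.isCompact⟩
  have hRc : Rc ∈ NN mul ldiv e := hR
  have hNc : Nc ∈ NN mul ldiv e := hN
  have hP0 := join_CN TL.old TL.cm hNc hRc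
  set P : Set L := (join TL.cm Nc Rc : Set L) with hPdef
  have hP : ClosedNormal mul ldiv e P := hP0
  have hRP : R ⊆ P := fun x hx => le_join_right TL.old TL.cm hNc (M := Rc) hx
  have hNP : N ⊆ P := fun x hx => le_join_left TL.old TL.cm (K := Nc) hRc hx
  obtain ⟨mulP, ldivP, rdivP, eP, TP, hmP⟩ := sub_top TL hP
  have cP : CompactSpace P := isCompact_iff_compactSpace.1 hP.closed.isCompact
  have hR' : ClosedNormal mulP ldivP eP (Subtype.val ⁻¹' R : Set P) :=
    cn_preimage TP.M TL.M Subtype.val continuous_subtype_val Subtype.val_injective hmP hR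
      (by rw [Subtype.range_val]; exact hRP)
  have hK2 : HaarSub mulP (Subtype.val ⁻¹' R : Set P) := by
    obtain ⟨S', t1, t2, t3, mulS', ldivS', rdivS', eS', j, TS', hI, cj, ij, hj, hr⟩ := hRs
    have hjR : ∀ s, j s ∈ P := fun s => hRP (by rw [← hr]; exact mem_range_self s)
    refine ⟨S', t1, t2, t3, mulS', ldivS', rdivS', eS', fun s => ⟨j s, hjR s⟩, TS', hI,
      cj.subtype_mk _, ?_, ?_, ?_⟩
    · intro s s' hss
      exact ij (congrArg Subtype.val hss)
    · intro x y
      apply Subtype.ext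
      rw [hmP]
      exact hj x y
    · apply Subset.antisymm
      · rintro _ ⟨s, rfl⟩
        change j s ∈ R
        rw [← hr]
        exact mem_range_self s
      · rintro ⟨x, hx⟩ hxe
        have h1 : x ∈ R := hxe
        rw [← hr] at h1
        obtain ⟨s, rfl⟩ := h1
        exact ⟨s, rfl⟩
  have hK1 : HaarKernel mulP (Subtype.val ⁻¹' R : Set P) := by
    obtain ⟨Q, t1, t2, t3, mul', ldiv', rdiv', π, q1, q2, q3, q4, q5, q6, q7, q8, q9, q10, q11⟩ :=
      quot_data TP.old TP.cm TP.cl TP.cr hR'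
    have hk : ∀ x, π x = π eP ↔ x ∈ (Subtype.val ⁻¹' R : Set P) := by
      intro x
      rw [eq_comm, q11]
      have : ldivP eP x = x := by
        have := TP.M.lm eP x
        rwa [TP.M.el] at this
      rw [this]
    refine ⟨Q, t1, t2, t3, mul', ldiv', rdiv', π eP, π,
      ⟨⟨q1.one_mul, q1.mul_one, q1.mul_ldiv, q1.ldiv_mul, q1.rdiv_mul, q1.mul_rdiv,
        fun x y z => q1.moufang y z x⟩, q2, q3, q4⟩, ?_, q5, q7, q8, hk⟩
    obtain ⟨S, s1, s2, s3, mulS, ldivS, rdivS, eS, j, TS, hI, cj, ij, hj, hr⟩ := hNs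
    have hjN : ∀ s, j s ∈ P := fun s => hNP (by rw [← hr]; exact mem_range_self s)
    refine push_integral hI (fun s => π ⟨j s, hjN s⟩) (q5.comp (cj.subtype_mk _)) ?_ ?_
    · intro q
      obtain ⟨⟨x, hx⟩, rfl⟩ := q7 q
      obtain ⟨a, ha, b, hb, rfl⟩ := (mem_join TL.cm).1 hx
      have ha' : a ∈ N := ha
      rw [← hr] at ha'
      obtain ⟨s, rfl⟩ := ha'
      refine ⟨s, ?_⟩
      have hbR : b ∈ R := hb
      have h1 : (⟨mul (j s) b, hx⟩ : P) = mulP ⟨j s, hjN s⟩ ⟨b, hRP hbR⟩ :=
        Subtype.ext (by rw [hmP])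
      change π ⟨j s, hjN s⟩ = π ⟨mul (j s) b, hx⟩
      rw [h1, q8, (hk ⟨b, hRP hbR⟩).2 hbR, q1.mul_one]
    · intro x y
      rw [← q8]
      congr 1
      apply Subtype.ext
      rw [hmP]
      exact hj x y
  have hIP : HasIntegral mulP := ext_haar TP hK1 hK2
  have hPs : HaarSub mul P := ⟨_, inferInstance, cP, inferInstance, mulP, ldivP, rdivP, eP,
    Subtype.val, TP, hIP, continuous_subtype_val, Subtype.val_injective, hmP, Subtype.range_val⟩
  have hPR := hRmax _ hP hPs hRP
  rw [← hPR]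
  exact hNP

/-- pull back of closed normal subloops with an invariant integral along a homomorphism whose kernel has
an invariant integral -/
lemma pull_sub (TL : TopMoufang mul ldiv rdiv e) {Q : Type u} [TopologicalSpace Q] [CompactSpace Q]
    [T2Space Q] {mul' ldiv' rdiv' : Q → Q → Q} {eQ : Q} (TQ : TopMoufang mul' ldiv' rdiv' eQ)
    (π : L → Q) (q5 : Continuous π) (q7 : Function.Surjective π)
    (q8 : ∀ x y, π (mul x y) = mul' (π x) (π y)) {R : Set L} (hk : ∀ x, π x = eQ ↔ x ∈ R)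
    (hRs : HaarSub mul R) {N : Set Q} (hN : ClosedNormal mul' ldiv' eQ N)
    (hNs : HaarSub mul' N) : ClosedNormal mul ldiv e (π ⁻¹' N) ∧ HaarSub mul (π ⁻¹' N) := by
  have hc := CN_cong TQ.old hN
  have hc2 := Cong.comap (mul := mul) (ldiv := ldiv) (rdiv := rdiv) hc π q8
    (hom_ldiv TL.M TQ.M π q8) (by
      intro x y
      apply TQ.M.rcancel (x := π y)
      rw [← q8, TL.M.mr, TQ.M.mr])
  have hπe : π e = eQ := hom_one TL.M TQ.M π q8
  have hle' : ∀ q : Q, ldiv' eQ q = q := by
    intro q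
    have := TQ.M.lm eQ q
    rwa [TQ.M.el] at this
  have hset : {n | ldiv' (π e) (π n) ∈ N} = π ⁻¹' N := by
    ext n
    change ldiv' (π e) (π n) ∈ N ↔ π n ∈ N
    rw [hπe, hle']
  have hPN : ClosedNormal mul ldiv e (π ⁻¹' N) := by
    have := Cong.closedNormal TL.old hc2 (by rw [hset]; exact hN.closed.preimage q5)
    rwa [hset] at this
  refine ⟨hPN, ?_⟩
  obtain ⟨mulP, ldivP, rdivP, eP, TP, hmP⟩ := sub_top TL hPN
  have cP : CompactSpace (π ⁻¹' N) := isCompact_iff_compactSpace.1 hPN.closed.isCompact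
  let π' : (π ⁻¹' N) → Q := fun x => π x
  have cπ' : Continuous π' := q5.comp continuous_subtype_val
  have hπ' : ∀ x y, π' (mulP x y) = mul' (π' x) (π' y) := by
    intro x y
    change π (mulP x y : L) = mul' (π x) (π y)
    rw [hmP, q8]
  have hrange : range π' = N := by
    apply Subset.antisymm
    · rintro _ ⟨x, rfl⟩
      exact x.2
    · intro q hq
      obtain ⟨x, rfl⟩ := q7 q
      exact ⟨⟨x, hq⟩, rfl⟩
  have hK1 : HaarKernel mulP {x | π' x = eQ} :=
    kernel_of_sub TQ π' cπ' hπ' (by rw [hrange]; exact hNs)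
  have hK2 : HaarSub mulP {x | π' x = eQ} := by
    obtain ⟨S', t1, t2, t3, mulS', ldivS', rdivS', eS', j, TS', hI, cj, ij, hj, hr⟩ := hRs
    have hjR : ∀ s, j s ∈ π ⁻¹' N := by
      intro s
      have h1 : j s ∈ R := by rw [← hr]; exact mem_range_self s
      change π (j s) ∈ N
      rw [(hk _).2 h1]
      exact hN.one_mem
    refine ⟨S', t1, t2, t3, mulS', ldivS', rdivS', eS', fun s => ⟨j s, hjR s⟩, TS', hI,
      cj.subtype_mk _, ?_, ?_, ?_⟩
    · intro s s' hss
      exact ij (congrArg Subtype.val hss)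
    · intro x y
      apply Subtype.ext
      rw [hmP]
      exact hj x y
    · apply Subset.antisymm
      · rintro _ ⟨s, rfl⟩
        change π (j s) = eQ
        rw [hk, ← hr]
        exact mem_range_self s
      · rintro ⟨x, hx⟩ hxe
        have h1 : x ∈ R := (hk x).1 hxe
        rw [← hr] at h1
        obtain ⟨s, rfl⟩ := h1
        exact ⟨s, rfl⟩
  have hIP : HasIntegral mulP := ext_haar TP hK1 hK2
  exact ⟨_, inferInstance, cP, inferInstance, mulP, ldivP, rdivP, eP,
    Subtype.val, TP, hIP, continuous_subtype_val, Subtype.val_injective, hmP, Subtype.range_val⟩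

/-- **Largest closed normal subloop with an invariant integral** -/
theorem largest (TL : TopMoufang mul ldiv rdiv e) :
    ∃ R : Set L, ClosedNormal mul ldiv e R ∧ HaarSub mul R ∧
      (∀ N : Set L, ClosedNormal mul ldiv e N → HaarSub mul N → N ⊆ R) ∧
      ∀ (Q : Type u) [TopologicalSpace Q] [CompactSpace Q] [T2Space Q]
        (mulQ ldivQ rdivQ : Q → Q → Q) (eQ : Q) (π : L → Q),
        TopMoufang mulQ ldivQ rdivQ eQ → Continuous π → Function.Surjective π →
        (∀ x y, π (mul x y) = mulQ (π x) (π y)) → (∀ x, π x = eQ ↔ x ∈ R) →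
        ∀ N : Set Q, ClosedNormal mulQ ldivQ eQ N → HaarSub mulQ N → N = {eQ} := by
  obtain ⟨R, hR, hRs, hRl⟩ := exists_largest TL
  refine ⟨R, hR, hRs, hRl, ?_⟩
  intro Q _ _ _ mulQ ldivQ rdivQ eQ π TQ cπ sπ hπ hk N hN hNs
  obtain ⟨h1, h2⟩ := pull_sub TL TQ π cπ sπ hπ hk hRs hN hNs
  have h3 := hRl _ h1 h2
  apply Subset.antisymm
  · intro q hq
    obtain ⟨x, rfl⟩ := sπ q
    exact (hk x).2 (h3 hq)
  · rw [singleton_subset_iff]
    exact hN.one_mem

end

end Pool.Agent.R664.Haar
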