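import Pool.Agent.R664.Haar.Conv1

set_option autoImplicit false
set_option linter.unusedSectionVars false

/-!
Closed invariant subspaces of continuous functions and eigenspaces.
-/

namespace Pool.Agent.R664.Haar

open MeasureTheory Topology Filter Module.End
open scoped RealInnerProductSpace

section
variable {X : Type*} [TopologicalSpace X] [CompactSpace X] [T2Space X] [MeasurableSpace X]
  [BorelSpace X] (m : Measure X) [IsProbabilityMeasure m] (K : C(X × X, ℝ))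

/-- closure in the Hilbert space -/
noncomputable def HH (A : Submodule ℝ C(X, ℝ)) : Submodule ℝ (EE m) :=
  (A.map (inc m).toLinearMap).topologicalClosure

lemma inc_mem_HH (A : Submodule ℝ C(X, ℝ)) {f : C(X, ℝ)} (hf : f ∈ A) : inc m f ∈ HH m A :=
  Submodule.le_topologicalClosure _ ⟨f, hf, rfl⟩

lemma SS_mem (A : Submodule ℝ C(X, ℝ)) (hc : IsClosed (A : Set C(X, ℝ)))
    (hi : ∀ f ∈ A, SS m K (inc m f) ∈ A) {h : EE m} (hh : h ∈ HH m A) : SS m K h ∈ A := by
  have h1 : HH m A ≤ A.comap (SS m K).toLinearMap := by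
    refine Submodule.topologicalClosure_minimal _ ?_ ?_
    · rintro _ ⟨f, hf, rfl⟩
      exact hi f hf
    · exact hc.preimage (SS m K).continuous
  exact h1 hh

lemma TT_mem (A : Submodule ℝ C(X, ℝ)) (hc : IsClosed (A : Set C(X, ℝ)))
    (hi : ∀ f ∈ A, SS m K (inc m f) ∈ A) {h : EE m} (hh : h ∈ HH m A) : TT m K h ∈ HH m A :=
  inc_mem_HH m A (SS_mem m K A hc hi hh)

lemma TT_mem_orth (hs : (TT m K).IsSymmetric) (A : Submodule ℝ C(X, ℝ))
    (hc : IsClosed (A : Set C(X, ℝ)))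
    (hi : ∀ f ∈ A, SS m K (inc m f) ∈ A) {h : EE m} (hh : h ∈ (HH m A)ᗮ) :
    TT m K h ∈ (HH m A)ᗮ := by
  rw [Submodule.mem_orthogonal] at hh ⊢
  intro u hu
  have h1 : ⟪TT m K u, h⟫ = ⟪u, TT m K h⟫ := hs u h
  rw [← h1]
  exact hh _ (TT_mem m K A hc hi hu)

lemma eig_iff (A : Submodule ℝ C(X, ℝ)) (hc : IsClosed (A : Set C(X, ℝ)))
    (hi : ∀ f ∈ A, SS m K (inc m f) ∈ A) {μ : ℝ} (hμ : μ ≠ 0) {v : EE m}
    (hv : TT m K v = μ • v) : v ∈ HH m A ↔ SS m K v ∈ A := by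
  constructor
  · exact SS_mem m K A hc hi
  · intro h
    have : v = μ⁻¹ • inc m (SS m K v) := by
      rw [← TT_apply, hv, smul_smul, inv_mul_cancel₀ hμ, one_smul]
    rw [this]
    exact Submodule.smul_mem _ _ (inc_mem_HH m A h)

lemma complete_HH (A : Submodule ℝ C(X, ℝ)) : CompleteSpace (HH m A) :=
  (Submodule.isClosed_topologicalClosure _).completeSpace_coe

/-- the orthogonal part of an eigenvector is an eigenvector -/
lemma eig_split (hs : (TT m K).IsSymmetric) (A : Submodule ℝ C(X, ℝ))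
    (hc : IsClosed (A : Set C(X, ℝ)))
    (hi : ∀ f ∈ A, SS m K (inc m f) ∈ A) {μ : ℝ} {v : EE m} (hv : TT m K v = μ • v) :
    ∃ a ∈ HH m A, ∃ b ∈ (HH m A)ᗮ, v = a + b ∧ TT m K b = μ • b := by
  have := complete_HH m A
  obtain ⟨a, ha, b, hb, hab⟩ := (HH m A).exists_add_mem_mem_orthogonal v
  refine ⟨a, ha, b, hb, hab, ?_⟩
  have h1 : TT m K a - μ • a = μ • b - TT m K b := by
    rw [hab, map_add, smul_add] at hv
    rw [sub_eq_sub_iff_add_eq_add, hv, add_comm]
  have h2 : TT m K a - μ • a ∈ HH m A :=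
    Submodule.sub_mem _ (TT_mem m K A hc hi ha) (Submodule.smul_mem _ _ ha)
  have h3 : μ • b - TT m K b ∈ (HH m A)ᗮ :=
    Submodule.sub_mem _ (Submodule.smul_mem _ _ hb) (TT_mem_orth m K hs A hc hi hb)
  rw [h1] at h2
  have h4 : ⟪μ • b - TT m K b, μ • b - TT m K b⟫ = 0 :=
    (Submodule.mem_orthogonal _ _).1 h3 _ h2
  have h5 : μ • b - TT m K b = 0 := inner_self_eq_zero.1 h4
  exact (sub_eq_zero.1 h5).symm

/-- an eigenspace all of whose unit vectors are close to `HH A` is contained in it -/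
lemma eig_le_of_close (hs : (TT m K).IsSymmetric) (A : Submodule ℝ C(X, ℝ))
    (hc : IsClosed (A : Set C(X, ℝ)))
    (hi : ∀ f ∈ A, SS m K (inc m f) ∈ A) {μ : ℝ}
    (hclose : ∀ v : EE m, TT m K v = μ • v → ‖v‖ = 1 → ∃ h ∈ HH m A, ‖v - h‖ < 1)
    {v : EE m} (hv : TT m K v = μ • v) : v ∈ HH m A := by
  obtain ⟨a, ha, b, hb, hab, hbμ⟩ := eig_split m K hs A hc hi hv
  by_cases hb0 : b = 0
  · rw [hab, hb0, add_zero]; exact ha
  · exfalso
    have hbn : ‖b‖ ≠ 0 := norm_ne_zero_iff.2 hb0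
    let u : EE m := ‖b‖⁻¹ • b
    have hu1 : ‖u‖ = 1 := by
      simp only [u, norm_smul, norm_inv, norm_norm]
      exact inv_mul_cancel₀ hbn
    have hu2 : TT m K u = μ • u := by
      simp only [u, map_smul, hbμ]
      rw [smul_comm]
    have hu3 : u ∈ (HH m A)ᗮ := Submodule.smul_mem _ _ hb
    obtain ⟨h, hh, hlt⟩ := hclose u hu2 hu1
    have h0 : ⟪u, h⟫ = 0 := by
      rw [real_inner_comm]
      exact (Submodule.mem_orthogonal _ _).1 hu3 h hh
    have h1 : ‖u - h‖ * ‖u - h‖ = ‖u‖ * ‖u‖ + ‖h‖ * ‖h‖ :=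
      norm_sub_sq_eq_norm_sq_add_norm_sq_real h0
    rw [hu1] at h1
    nlinarith [norm_nonneg (u - h), norm_nonneg h]

/-- if all eigenspaces lie in `HH A` then the operator vanishes on the orthogonal complement -/
lemma TT_zero_of_eig (hs : (TT m K).IsSymmetric) (A : Submodule ℝ C(X, ℝ))
    (hc : IsClosed (A : Set C(X, ℝ)))
    (hi : ∀ f ∈ A, SS m K (inc m f) ∈ A)
    (hall : ∀ μ : ℝ, μ ≠ 0 → ∀ v : EE m, TT m K v = μ • v → v ∈ HH m A)
    {g : EE m} (hg : g ∈ (HH m A)ᗮ) : TT m K g = 0 := by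
  have hbot := ContinuousLinearMap.orthogonalComplement_iSup_eigenspaces_eq_bot
    (TT_compact m K) hs
  have : TT m K g ∈ (⨆ μ, eigenspace (TT m K : Module.End ℝ (EE m)) μ)ᗮ := by
    rw [← Submodule.iInf_orthogonal, Submodule.mem_iInf]
    intro μ
    rw [Submodule.mem_orthogonal]
    intro v hv
    have hv' : TT m K v = μ • v := mem_eigenspace_iff.1 hv
    have h1 : ⟪TT m K v, g⟫ = ⟪v, TT m K g⟫ := hs v g
    rw [← h1, hv']
    by_cases hμ : μ = 0
    · rw [hμ, zero_smul, inner_zero_left]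
    · rw [inner_smul_left, (Submodule.mem_orthogonal _ _).1 hg v (hall μ hμ v hv'), mul_zero]
  rw [hbot] at this
  exact (Submodule.mem_bot ℝ).1 this

end

end Pool.Agent.R664.Haar
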