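import Pool.Agent.R664.Haar.Mean

set_option autoImplicit false

/-!
Extension of left invariant means along a continuous surjection.
-/

namespace Pool.Agent.R664.Haar

open MeasureTheory Topology Filter

section
variable {L : Type*} [TopologicalSpace L]

/-- left translation as a continuous map -/
def lt (mul : L → L → L) (hmul : Continuous (fun p : L × L => mul p.1 p.2)) (a : L) : C(L, L) :=
  ⟨fun x => mul a x, hmul.comp (Continuous.prodMk_right a)⟩

@[simp] lemma lt_apply (mul : L → L → L) (hmul : Continuous (fun p : L × L => mul p.1 p.2))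
    (a x : L) : lt mul hmul a x = mul a x := rfl

variable [CompactSpace L]

/-- uniform continuity of `x ↦ f (x *)` -/
lemma unif (mul : L → L → L) (hmul : Continuous (fun p : L × L => mul p.1 p.2))
    (f : C(L, ℝ)) (x₀ : L) {ε : ℝ} (hε : 0 < ε) :
    ∀ᶠ x in 𝓝 x₀, ∀ y, |f (mul x y) - f (mul x₀ y)| < ε := by
  have := isCompact_univ (X := L) |>.eventually_forall_of_forall_eventually
    (x₀ := x₀) (P := fun x y => |f (mul x y) - f (mul x₀ y)| < ε) (by
      intro y _
      have hc : Continuous (fun z : L × L => |f (mul z.1 z.2) - f (mul x₀ z.2)|) := by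
        have h1 : Continuous (fun z : L × L => f (mul z.1 z.2)) := f.continuous.comp hmul
        have h2 : Continuous (fun z : L × L => f (mul x₀ z.2)) :=
          f.continuous.comp (hmul.comp (by fun_prop : Continuous (fun z : L × L => (x₀, z.2))))
        exact (h1.sub h2).abs
      have ht := hc.tendsto (x₀, y)
      simp only [sub_self, abs_zero] at ht
      exact ht.eventually (eventually_lt_nhds hε))
  filter_upwards [this] with x hx y
  exact hx y (Set.mem_univ y)

lemma continuous_mean (mul : L → L → L) (hmul : Continuous (fun p : L × L => mul p.1 p.2))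
    (K : C(L, ℝ) →ₗ[ℝ] ℝ) (hK : IsMean K) (f : C(L, ℝ)) :
    Continuous (fun x => K (f.comp (lt mul hmul x))) := by
  rw [Metric.continuous_iff']
  intro x₀ ε hε
  filter_upwards [unif mul hmul f x₀ (half_pos hε)] with x hx
  rw [Real.dist_eq]
  have := hK.abs_sub_le (f := f.comp (lt mul hmul x)) (g := f.comp (lt mul hmul x₀))
    (c := ε / 2) (fun y => (hx y).le)
  linarith

/-- **Extension lemma.** -/
theorem extend (mul : L → L → L) (hmul : Continuous (fun p : L × L => mul p.1 p.2))
    {Q : Type*} [TopologicalSpace Q] [T2Space Q] [CompactSpace Q] [MeasurableSpace Q]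
    [BorelSpace Q]
    (π : L → Q) (hπ : Continuous π) (hs : Function.Surjective π) (α : L → Q → Q)
    (hα : ∀ a x, π (mul a x) = α a (π x)) (m : Measure Q) [IsProbabilityMeasure m]
    (hm : ∀ a, m.map (α a) = m) (K : C(L, ℝ) →ₗ[ℝ] ℝ) (hK : IsMean K)
    (h1 : ∀ a x (f : C(L, ℝ)), K (f.comp (lt mul hmul (mul a x)))
      = K ((f.comp (lt mul hmul a)).comp (lt mul hmul x)))
    (h2 : ∀ x y, π x = π y → ∀ f : C(L, ℝ), K (f.comp (lt mul hmul x))
      = K (f.comp (lt mul hmul y))) :
    ∃ I : C(L, ℝ) →ₗ[ℝ] ℝ, IsMean I ∧ ∀ a (f : C(L, ℝ)), I (f.comp (lt mul hmul a)) = I f := by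
  have hq : IsQuotientMap π := hπ.isClosedMap.isQuotientMap hπ hs
  let s := Function.surjInv hs
  have hsπ : ∀ q, π (s q) = q := Function.surjInv_eq hs
  let F : C(L, ℝ) → C(Q, ℝ) := fun f =>
    ⟨fun q => K (f.comp (lt mul hmul (s q))), by
      rw [hq.continuous_iff]
      have : (fun q => K (f.comp (lt mul hmul (s q)))) ∘ π
          = fun x => K (f.comp (lt mul hmul x)) := by
        funext x
        exact h2 _ _ (hsπ _) f
      rw [this]
      exact continuous_mean mul hmul K hK f⟩
  have hF : ∀ f x, F f (π x) = K (f.comp (lt mul hmul x)) := fun f x => h2 _ _ (hsπ _) f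
  have hFadd : ∀ f g, F (f + g) = F f + F g := by
    intro f g
    ext q
    change K ((f + g).comp _) = K (f.comp _) + K (g.comp _)
    rw [← map_add]; rfl
  have hFsmul : ∀ (c : ℝ) f, F (c • f) = c • F f := by
    intro c f
    ext q
    change K ((c • f).comp _) = c • K (f.comp _)
    rw [← map_smul]; rfl
  refine ⟨{ toFun := fun f => intMean m (F f), map_add' := ?_, map_smul' := ?_ }, ⟨?_, ?_⟩, ?_⟩
  · intro f g
    rw [hFadd, map_add]
  · intro c f
    rw [hFsmul, map_smul]; rfl
  · intro f hf
    apply (isMean_intMean m).nonneg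
    intro q
    exact hK.nonneg _ (fun x => hf (mul (s q) x))
  · change intMean m (F 1) = 1
    have : F 1 = 1 := by
      ext q
      change K ((1 : C(L, ℝ)).comp _) = 1
      rw [← hK.one]; rfl
    rw [this]
    exact (isMean_intMean m).one
  · intro a f
    change intMean m (F (f.comp (lt mul hmul a))) = intMean m (F f)
    have hac : Continuous (α a) := by
      rw [hq.continuous_iff]
      have : α a ∘ π = π ∘ (lt mul hmul a) := by
        funext x; exact (hα a x).symm
      rw [this]
      exact hπ.comp (lt mul hmul a).continuous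
    have h3 : ∀ q, F (f.comp (lt mul hmul a)) q = F f (α a q) := by
      intro q
      obtain ⟨x, rfl⟩ := hs q
      rw [hF, ← hα, hF, h1]
    rw [intMean_apply, intMean_apply]
    simp_rw [h3]
    conv_rhs => rw [← hm a]
    rw [integral_map hac.measurable.aemeasurable
      ((F f).continuous.aestronglyMeasurable_of_compactSpace)]

end

end Pool.Agent.R664.Haar
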