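import Pool.Agent.R664.Haar.Loop
import Pool.Agent.R664.Haar.Ext

set_option autoImplicit false

/-!
From left invariant means to two-sided invariant measures on compact Moufang loops.
-/

namespace Pool.Agent.R664.Haar

open MeasureTheory Topology Filter

/-- there is a Borel probability measure invariant under all left and right translations -/
def HasHaar (L : Type*) [MeasurableSpace L] (mul : L → L → L) : Prop :=
  ∃ μ : Measure L, IsProbabilityMeasure μ ∧
    ∀ a : L, μ.map (fun x => mul a x) = μ ∧ μ.map (fun x => mul x a) = μ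

section
variable {X Y : Type*} [TopologicalSpace X] [CompactSpace X] [T2Space X]
  [TopologicalSpace Y] [CompactSpace Y] [T2Space Y]

/-- Fubini for means, phrased with explicit continuous functions -/
lemma fubini (K : C(X, ℝ) →ₗ[ℝ] ℝ) (hK : IsMean K) (H : C(Y, ℝ) →ₗ[ℝ] ℝ) (hH : IsMean H)
    (F : X → Y → ℝ) (hF : Continuous F.uncurry) (g : C(X, ℝ)) (h : C(Y, ℝ))
    (hg : ∀ x, ∀ f : C(Y, ℝ), (∀ y, f y = F x y) → g x = H f)
    (hh : ∀ y, ∀ f : C(X, ℝ), (∀ x, f x = F x y) → h y = K f) :
    K g = H h := by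
  let _ : MeasurableSpace X := borel X
  let _ : MeasurableSpace Y := borel Y
  have : BorelSpace X := ⟨rfl⟩
  have : BorelSpace Y := ⟨rfl⟩
  obtain ⟨μ, -, hμ, hμK⟩ := exists_measure K hK
  obtain ⟨ν, -, hν, hνH⟩ := exists_measure H hH
  rw [← hμK, ← hνH]
  have e1 : ∀ x, g x = ∫ y, F x y ∂ν := by
    intro x
    rw [hg x ⟨fun y => F x y, hF.comp (Continuous.prodMk_right x)⟩ (fun y => rfl), ← hνH]
    rfl
  have e2 : ∀ y, h y = ∫ x, F x y ∂μ := by
    intro y
    rw [hh y ⟨fun x => F x y, hF.comp (Continuous.prodMk_left y)⟩ (fun y => rfl), ← hμK]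
    rfl
  simp_rw [e1, e2]
  exact integral_integral_swap_of_hasCompactSupport hF (HasCompactSupport.of_compactSpace _)

end

section
variable {L : Type*} [TopologicalSpace L] [CompactSpace L] [T2Space L] [MeasurableSpace L]
  [BorelSpace L] {mul ldiv rdiv : L → L → L} {e : L}

theorem hasHaar_of_mean (M : IsMoufang mul ldiv rdiv e)
    (hmul : Continuous (fun p : L × L => mul p.1 p.2))
    (hldiv : Continuous (fun p : L × L => ldiv p.1 p.2))
    (hrdiv : Continuous (fun p : L × L => rdiv p.1 p.2))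
    (I : C(L, ℝ) →ₗ[ℝ] ℝ) (hI : IsMean I)
    (hinv : ∀ a (f : C(L, ℝ)), I (f.comp (lt mul hmul a)) = I f) : HasHaar L mul := by
  obtain ⟨μ, hreg, hprob, hμ⟩ := exists_measure I hI
  have hL : ∀ a (f : C(L, ℝ)), ∫ x, f (mul a x) ∂μ = ∫ x, f x ∂μ := by
    intro a f
    have := hinv a f
    rw [← hμ, ← hμ] at this
    exact this
  have cinv : Continuous M.inv := hldiv.comp (Continuous.prodMk_left e)
  have hJ : ∀ f : C(L, ℝ), ∫ x, f (M.inv x) ∂μ = ∫ x, f x ∂μ := by
    intro f
    have cF : Continuous (fun p : L × L => f (mul (M.inv p.1) p.2)) :=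
      f.continuous.comp (hmul.comp ((cinv.comp continuous_fst).prodMk continuous_snd))
    have h1 : ∫ x, (∫ y, f (mul (M.inv x) y) ∂μ) ∂μ = ∫ x, f x ∂μ := by
      simp_rw [hL]
      simp
    have h2 : ∫ y, (∫ x, f (mul (M.inv x) y) ∂μ) ∂μ = ∫ x, f (M.inv x) ∂μ := by
      have : ∀ y, ∫ x, f (mul (M.inv x) y) ∂μ = ∫ x, f (M.inv x) ∂μ := by
        intro y
        have := hL (M.inv y) (f.comp ⟨M.inv, cinv⟩)
        rw [show (∫ x, (f.comp ⟨M.inv, cinv⟩) x ∂μ) = ∫ x, f (M.inv x) ∂μ from rfl] at this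
        rw [← this]
        congr 1
        funext x
        change _ = f (M.inv (mul (M.inv y) x))
        rw [M.aaip, M.inv_inv]
      simp_rw [this]
      simp
    rw [← h1, ← h2]
    exact (integral_integral_swap_of_hasCompactSupport (f := fun x y => f (mul (M.inv x) y))
      cF (HasCompactSupport.of_compactSpace _)).symm
  have hR : ∀ a (f : C(L, ℝ)), ∫ x, f (mul x a) ∂μ = ∫ x, f x ∂μ := by
    intro a f
    have cR : Continuous (fun x => mul x a) := hmul.comp (Continuous.prodMk_left a)
    have h0 : ∫ x, f (mul (M.inv x) a) ∂μ = ∫ x, f (mul x a) ∂μ :=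
      hJ (f.comp ⟨fun x => mul x a, cR⟩)
    have h1 : ∫ x, f (M.inv (mul (M.inv a) x)) ∂μ = ∫ x, f (M.inv x) ∂μ :=
      hL (M.inv a) (f.comp ⟨M.inv, cinv⟩)
    rw [← h0, ← hJ f, ← h1]
    congr 1
    funext x
    rw [M.aaip, M.inv_inv]
  refine ⟨μ, hprob, fun a => ⟨?_, ?_⟩⟩
  · let g : L ≃ₜ L :=
      { toFun := fun x => mul a x
        invFun := fun x => ldiv a x
        left_inv := M.lm a
        right_inv := M.ml a
        continuous_toFun := hmul.comp (Continuous.prodMk_right a)
        continuous_invFun := hldiv.comp (Continuous.prodMk_right a) }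
    exact map_eq_of_integral μ hreg g (hL a)
  · let g : L ≃ₜ L :=
      { toFun := fun x => mul x a
        invFun := fun x => rdiv x a
        left_inv := M.rm a
        right_inv := M.mr a
        continuous_toFun := hmul.comp (Continuous.prodMk_left a)
        continuous_invFun := hrdiv.comp (Continuous.prodMk_left a) }
    exact map_eq_of_integral μ hreg g (hR a)

end

end Pool.Agent.R664.Haar
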