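import Pool.Agent.R664.Haar.Conv2
import Pool.Agent.R664.Haar.Two
import Pool.Agent.TH15.MoufangHaar.Defs

set_option autoImplicit false
set_option linter.unusedSectionVars false

/-!
An invariant integral forces the component of `{e}` in the hyperspace of closed normal subloops
to be trivial.
-/

namespace Pool.Agent.R664.Haar

open MeasureTheory Topology Filter Module.End
open TopologicalSpace (Compacts)
open Pool.Agent.TH15.MoufangHaar (ClosedNormal)
open scoped RealInnerProductSpace

section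
variable {L : Type*} [TopologicalSpace L] [CompactSpace L] [T2Space L]
variable {mul ldiv rdiv : L → L → L} {e : L}

/-- functions constant on the cosets `xN` -/
def AN (mul : L → L → L) (N : Set L) : Submodule ℝ C(L, ℝ) where
  carrier := {f | ∀ x, ∀ n ∈ N, f (mul x n) = f x}
  add_mem' := by
    intro f g hf hg x n hn
    simp only [ContinuousMap.add_apply, hf x n hn, hg x n hn]
  zero_mem' := by
    intro x n _
    rfl
  smul_mem' := by
    intro c f hf x n hn
    simp only [ContinuousMap.smul_apply, hf x n hn]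

lemma mem_AN {N : Set L} {f : C(L, ℝ)} : f ∈ AN mul N ↔ ∀ x, ∀ n ∈ N, f (mul x n) = f x := Iff.rfl

lemma closed_AN (N : Set L) : IsClosed (AN mul N : Set C(L, ℝ)) := by
  have : (AN mul N : Set C(L, ℝ)) = ⋂ x, ⋂ n ∈ N, {f : C(L, ℝ) | f (mul x n) = f x} := by
    ext f
    simp only [SetLike.mem_coe, mem_AN, Set.mem_iInter]
    rfl
  rw [this]
  exact isClosed_iInter fun x => isClosed_iInter fun n => isClosed_iInter fun _ =>
    isClosed_eq (continuous_eval_const _) (continuous_eval_const _)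

/-- normality: `(xn)y ∈ (xy)N` -/
lemma cn_right {N : Set L} (hN : ClosedNormal mul ldiv e N) (x y n : L) (hn : n ∈ N) :
    ∃ n' ∈ N, mul (mul x n) y = mul (mul x y) n' := by
  have h1 : mul x n ∈ (fun n => mul n x) '' N := by
    rw [← hN.comm x]; exact ⟨n, hn, rfl⟩
  obtain ⟨n1, hn1, e1⟩ := h1
  have h2 : mul (mul n1 x) y ∈ (fun n => mul n (mul x y)) '' N := by
    rw [← hN.right x y]; exact ⟨n1, hn1, rfl⟩
  obtain ⟨n2, hn2, e2⟩ := h2
  have h3 : mul n2 (mul x y) ∈ (fun n => mul (mul x y) n) '' N := by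
    rw [hN.comm (mul x y)]; exact ⟨n2, hn2, rfl⟩
  obtain ⟨n3, hn3, e3⟩ := h3
  refine ⟨n3, hn3, ?_⟩
  simp only at e1 e2 e3
  rw [e3, e2, e1]

variable (M : IsMoufang mul ldiv rdiv e)
  (hmul : Continuous (fun p : L × L => mul p.1 p.2))
  (hldiv : Continuous (fun p : L × L => ldiv p.1 p.2))

/-- cosets of elements of `N` -/
lemma cn_coset (M : IsMoufang mul ldiv rdiv e) {N : Set L} (hN : ClosedNormal mul ldiv e N)
    (x n' : L) (hn' : n' ∈ N) :
    (fun n => mul (mul x n') n) '' N = (fun n => mul x n) '' N := by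
  rw [← hN.left x n']
  ext z
  constructor
  · rintro ⟨n, hn, rfl⟩
    exact ⟨mul n' n, hN.mul_mem _ hn' _ hn, rfl⟩
  · rintro ⟨n, hn, rfl⟩
    refine ⟨ldiv n' n, ?_, ?_⟩
    · rw [M.ldiv_eq]
      exact hN.mul_mem _ (hN.inv_mem _ hn') _ hn
    · simp only [M.ml]

/-- the kernel `k (x⁻¹ z)` -/
noncomputable def kerK (M : IsMoufang mul ldiv rdiv e)
    (hmul : Continuous (fun p : L × L => mul p.1 p.2))
    (hldiv : Continuous (fun p : L × L => ldiv p.1 p.2)) (k : C(L, ℝ)) : C(L × L, ℝ) :=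
  ⟨fun p => k (mul (M.inv p.1) p.2), by
    have cinv : Continuous M.inv := hldiv.comp (Continuous.prodMk_left e)
    exact k.continuous.comp (hmul.comp ((cinv.comp continuous_fst).prodMk continuous_snd))⟩

variable [MeasurableSpace L] [BorelSpace L] (m : Measure L) [IsProbabilityMeasure m]

lemma conv_apply (hL : ∀ a (f : C(L, ℝ)), ∫ x, f (mul a x) ∂m = ∫ x, f x ∂m)
    (k f : C(L, ℝ)) (x : L) :
    SS m (kerK M hmul hldiv k) (inc m f) x = ∫ z, k z * f (mul x z) ∂m := by
  rw [SS_inc]
  have h1 := hL x (⟨fun z => k (mul (M.inv x) z) * f z, by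
    have c1 : Continuous (fun z => k (mul (M.inv x) z)) :=
      k.continuous.comp (hmul.comp (Continuous.prodMk_right _))
    exact c1.mul f.continuous⟩ : C(L, ℝ))
  simp only [ContinuousMap.coe_mk, M.inv_mul_cancel] at h1
  exact h1.symm

lemma conv_inv (hL : ∀ a (f : C(L, ℝ)), ∫ x, f (mul a x) ∂m = ∫ x, f x ∂m)
    (k : C(L, ℝ)) {N : Set L} (hN : ClosedNormal mul ldiv e N) :
    ∀ f ∈ AN mul N, SS m (kerK M hmul hldiv k) (inc m f) ∈ AN mul N := by
  intro f hf x n hn
  rw [conv_apply M hmul hldiv m hL, conv_apply M hmul hldiv m hL]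
  congr 1
  funext z
  obtain ⟨n', hn', e1⟩ := cn_right hN x z n hn
  rw [e1, hf _ _ hn']

lemma ker_symm (k : C(L, ℝ)) (hk : ∀ y, k (M.inv y) = k y) (x z : L) :
    kerK M hmul hldiv k (x, z) = kerK M hmul hldiv k (z, x) := by
  change k (mul (M.inv x) z) = k (mul (M.inv z) x)
  rw [← hk, M.aaip, M.inv_inv]

/-- smoothing a function along `N` -/
lemma exists_smooth {N : Set L} (hN : ClosedNormal mul ldiv e N) (M : IsMoufang mul ldiv rdiv e)
    (hmul : Continuous (fun p : L × L => mul p.1 p.2)) (f : C(L, ℝ)) (δ : ℝ)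
    (hδ : ∀ n ∈ N, ∀ x, |f (mul x n) - f x| ≤ δ) :
    ∃ g ∈ AN mul N, ∀ x, |g x - f x| ≤ δ := by
  have hNc : IsCompact N := hN.closed.isCompact
  have hc : Continuous (fun p : L × L => f (mul p.1 p.2)) := f.continuous.comp hmul
  have hg : Continuous (fun x => sSup ((fun n => f (mul x n)) '' N)) :=
    hNc.continuous_sSup (f := fun x n => f (mul x n)) hc
  have hbdd : ∀ x, BddAbove ((fun n => f (mul x n)) '' N) := by
    intro x
    refine ⟨f x + δ, ?_⟩
    rintro _ ⟨n, hn, rfl⟩
    have := (abs_le.1 (hδ n hn x)).2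
    simp only
    linarith
  refine ⟨⟨_, hg⟩, ?_, ?_⟩
  · intro x n hn
    change sSup ((fun n' => f (mul (mul x n) n')) '' N) = sSup ((fun n' => f (mul x n')) '' N)
    have h1 := cn_coset M hN x n hn
    have h2 : (fun n' => f (mul (mul x n) n')) '' N = f '' ((fun n' => mul (mul x n) n') '' N) := by
      rw [Set.image_image]
    have h3 : (fun n' => f (mul x n')) '' N = f '' ((fun n' => mul x n') '' N) := by
      rw [Set.image_image]
    rw [h2, h3, h1]
  · intro x
    change |sSup ((fun n => f (mul x n)) '' N) - f x| ≤ δ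
    rw [abs_le]
    constructor
    · have h1 : f (mul x e) ≤ sSup ((fun n => f (mul x n)) '' N) :=
        le_csSup (hbdd x) ⟨e, hN.one_mem, rfl⟩
      rw [M.er] at h1
      have h2 : 0 ≤ δ := le_trans (abs_nonneg _) (hδ e hN.one_mem x)
      linarith
    · have h1 : sSup ((fun n => f (mul x n)) '' N) ≤ f x + δ := by
        refine csSup_le (Set.Nonempty.image _ ⟨e, hN.one_mem⟩) ?_
        rintro _ ⟨n, hn, rfl⟩
        have := (abs_le.1 (hδ n hn x)).2
        simp only
        linarith
      linarith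

end

end Pool.Agent.R664.Haar
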