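import Pool.Agent.R664.Haar.Conv3

set_option autoImplicit false
set_option linter.unusedSectionVars false

/-!
Main argument: the component of `{e}` is trivial.
-/

namespace Pool.Agent.R664.Haar

open MeasureTheory Topology Filter Module.End
open TopologicalSpace (Compacts)
open Pool.Agent.TH15.MoufangHaar (ClosedNormal)
open scoped RealInnerProductSpace

section
variable {L : Type*} [TopologicalSpace L] [CompactSpace L] [T2Space L]
variable {mul ldiv rdiv : L → L → L} {e : L}
variable (M : IsMoufang mul ldiv rdiv e)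
  (hmul : Continuous (fun p : L × L => mul p.1 p.2))
  (hldiv : Continuous (fun p : L × L => ldiv p.1 p.2))
variable [MeasurableSpace L] [BorelSpace L] (m : Measure L) [IsProbabilityMeasure m]

include M hmul in
lemma integral_pos' (hL : ∀ a (f : C(L, ℝ)), ∫ x, f (mul a x) ∂m = ∫ x, f x ∂m)
    (f : C(L, ℝ)) (h0 : ∀ x, 0 ≤ f x) (he : 0 < f e) : 0 < ∫ x, f x ∂m := by
  classical
  have hcov : (Set.univ : Set L) ⊆ ⋃ a : L, {x | 0 < f (mul a x)} := by
    intro x _
    refine Set.mem_iUnion.2 ⟨M.inv x, ?_⟩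
    change 0 < f (mul (M.inv x) x)
    rw [M.inv_mul]; exact he
  obtain ⟨t, ht⟩ := isCompact_univ.elim_finite_subcover (fun a : L => {x | 0 < f (mul a x)})
    (fun a => isOpen_lt continuous_const (f.comp (lt mul hmul a)).continuous) hcov
  let G : C(L, ℝ) := ∑ a ∈ t, f.comp (lt mul hmul a)
  have hG : ∀ x, G x = ∑ a ∈ t, f (mul a x) := by
    intro x
    simp only [G, ContinuousMap.coe_sum, Finset.sum_apply]
    rfl
  have hGpos : ∀ x, 0 < G x := by
    intro x
    rw [hG]
    obtain ⟨a, ha⟩ := Set.mem_iUnion.1 (ht (Set.mem_univ x))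
    obtain ⟨hat, hax⟩ := Set.mem_iUnion.1 ha
    exact Finset.sum_pos' (fun b _ => h0 _) ⟨a, hat, hax⟩
  have : Nonempty L := ⟨e⟩
  obtain ⟨x₀, -, hx₀⟩ := isCompact_univ.exists_isMinOn Set.univ_nonempty G.continuous.continuousOn
  have h1 : intMean m (-G) ≤ -(G x₀) := by
    apply (isMean_intMean m).le_of_le
    intro x
    have := hx₀ (Set.mem_univ x)
    simp only [Set.mem_ofPred_eq] at this
    simp only [ContinuousMap.neg_apply]
    linarith
  rw [map_neg] at h1
  have h2 : intMean m G = t.card * ∫ x, f x ∂m := by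
    simp only [G, map_sum]
    have : ∀ a ∈ t, intMean m (f.comp (lt mul hmul a)) = ∫ x, f x ∂m := fun a _ => hL a f
    rw [Finset.sum_congr rfl this]
    simp
  have h3 : 0 ≤ ∫ x, f x ∂m := integral_nonneg h0
  have h4 := hGpos x₀
  rcases h3.lt_or_eq with h5 | h5
  · exact h5
  · rw [← h5, mul_zero] at h2
    linarith

lemma approx_id (hL : ∀ a (f : C(L, ℝ)), ∫ x, f (mul a x) ∂m = ∫ x, f x ∂m)
    (f : C(L, ℝ)) {ε : ℝ} (hε : 0 < ε) :
    ∃ k : C(L, ℝ), (∀ y, k (M.inv y) = k y) ∧
      ∀ x, |SS m (kerK M hmul hldiv k) (inc m f) x - f x| ≤ ε := by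
  have cinv : Continuous M.inv := hldiv.comp (Continuous.prodMk_left e)
  have inve : M.inv e = e := by
    have := M.mul_inv e
    rwa [M.el] at this
  have h1 : ∀ᶠ u in 𝓝 e, ∀ y, |f (mul y u) - f (mul y e)| < ε :=
    unif (fun x y => mul y x) (hmul.comp continuous_swap) f e hε
  obtain ⟨U, hU, hUo, heU⟩ := eventually_nhds_iff.1 h1
  let W : Set L := U ∩ M.inv ⁻¹' U
  have hWo : IsOpen W := hUo.inter (hUo.preimage cinv)
  have heW : e ∈ W := ⟨heU, by change M.inv e ∈ U; rw [inve]; exact heU⟩
  obtain ⟨k0, hk0, hk1, hk2⟩ := exists_continuous_zero_one_of_isClosed hWo.isClosed_compl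
    (isClosed_singleton (x := e)) (by
      rw [Set.disjoint_singleton_right]
      exact fun h => h heW)
  let k1 : C(L, ℝ) := k0 + k0.comp ⟨M.inv, cinv⟩
  have hk1app : ∀ y, k1 y = k0 y + k0 (M.inv y) := fun y => rfl
  have hk1nn : ∀ y, 0 ≤ k1 y := fun y => add_nonneg (hk2 y).1 (hk2 _).1
  have hk1e : 0 < k1 e := by
    rw [hk1app]
    have : k0 e = 1 := hk1 rfl
    have h2 := (hk2 (M.inv e)).1
    linarith
  have hk1z : ∀ y, y ∉ W → k1 y = 0 := by
    intro y hy
    have h2 : M.inv y ∉ W := by
      rintro ⟨h3, h4⟩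
      apply hy
      refine ⟨?_, h3⟩
      have : M.inv (M.inv y) ∈ U := h4
      rwa [M.inv_inv] at this
    rw [hk1app, hk0 hy, hk0 h2]
    simp
  have hc := integral_pos' M hmul m hL k1 hk1nn hk1e
  set c := ∫ x, k1 x ∂m with hcdef
  refine ⟨c⁻¹ • k1, ?_, ?_⟩
  · intro y
    simp only [ContinuousMap.smul_apply, hk1app, M.inv_inv]
    rw [add_comm]
  · intro x
    rw [conv_apply M hmul hldiv m hL]
    have hint : ∀ g : L → ℝ, Continuous g → Integrable g m := fun g hg =>
      hg.integrable_of_hasCompactSupport (HasCompactSupport.of_compactSpace _)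
    have cx : Continuous (fun z => f (mul x z)) :=
      f.continuous.comp (hmul.comp (Continuous.prodMk_right x))
    have ck : Continuous (fun z => (c⁻¹ • k1) z) := (c⁻¹ • k1).continuous
    have h2 : ∫ z, (c⁻¹ • k1) z ∂m = 1 := by
      simp only [ContinuousMap.smul_apply, smul_eq_mul]
      rw [integral_const_mul, ← hcdef, inv_mul_cancel₀ hc.ne']
    have h3 : (∫ z, (c⁻¹ • k1) z * f (mul x z) ∂m) - f x
        = ∫ z, (c⁻¹ • k1) z * (f (mul x z) - f x) ∂m := by
      have e1 : ∀ z, (c⁻¹ • k1) z * (f (mul x z) - f x)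
          = (c⁻¹ • k1) z * f (mul x z) - (c⁻¹ • k1) z * f x := fun z => by ring
      have i1 : Integrable (fun z => (c⁻¹ • k1) z * f (mul x z)) m := hint _ (ck.mul cx)
      have i2 : Integrable (fun z => (c⁻¹ • k1) z * f x) m := hint _ (ck.mul continuous_const)
      have e2 : (fun z => (c⁻¹ • k1) z * (f (mul x z) - f x))
          = fun z => (c⁻¹ • k1) z * f (mul x z) - (c⁻¹ • k1) z * f x := funext e1
      rw [e2, integral_sub i1 i2, integral_mul_const, h2, one_mul]
    rw [h3]
    have h4 : ‖∫ z, (c⁻¹ • k1) z * (f (mul x z) - f x) ∂m‖ ≤ ∫ z, (c⁻¹ • k1) z * ε ∂m := by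
      refine norm_integral_le_of_norm_le (hint _ (ck.mul continuous_const))
        (Eventually.of_forall (fun z => ?_))
      have hkz : 0 ≤ (c⁻¹ • k1) z := by
        simp only [ContinuousMap.smul_apply, smul_eq_mul]
        exact mul_nonneg (inv_nonneg.2 hc.le) (hk1nn z)
      by_cases hz : z ∈ W
      · rw [norm_mul, Real.norm_eq_abs, Real.norm_eq_abs, abs_of_nonneg hkz]
        have := hU z hz.1 x
        rw [M.er] at this
        gcongr
      · have : (c⁻¹ • k1) z = 0 := by
          simp only [ContinuousMap.smul_apply, hk1z z hz, smul_zero]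
        rw [this]
        simp
    rw [Real.norm_eq_abs] at h4
    rw [integral_mul_const, h2, one_mul] at h4
    exact h4

/-- the eigenspaces stay in the closure of the `N`-invariant functions along the component -/
lemma eig_component [m.Regular] (hL : ∀ a (f : C(L, ℝ)), ∫ x, f (mul a x) ∂m = ∫ x, f x ∂m)
    (k : C(L, ℝ)) (hk : ∀ y, k (M.inv y) = k y) {μ : ℝ} (hμ : μ ≠ 0) (N : Compacts L)
    (hN : N ∈ connectedComponentIn {N : Compacts L | ClosedNormal mul ldiv e (N : Set L)} {e}) :
    ∀ v : EE m, TT m (kerK M hmul hldiv k) v = μ • v → v ∈ HH m (AN mul (N : Set L)) := by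
  classical
  set K := kerK M hmul hldiv k with hKdef
  have hs : (TT m K).IsSymmetric := TT_symm m (ker_symm M hmul hldiv k hk)
  let Z : C(L, ℝ) → Set L := fun f => {n | ∀ x, f (mul x n) = f x}
  have hZ : ∀ f, IsClosed (Z f) := by
    intro f
    have : Z f = ⋂ x, {n | f (mul x n) = f x} := by
      ext n; simp [Z]
    rw [this]
    exact isClosed_iInter fun x => isClosed_eq
      (f.continuous.comp (hmul.comp (Continuous.prodMk_right x))) continuous_const
  let 𝒳 : Set (Compacts L) := {N | ∀ v, TT m K v = μ • v → (N : Set L) ⊆ Z (SS m K v)}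
  have h𝒳c : IsClosed 𝒳 := by
    have : 𝒳 = ⋂ v, ⋂ (_ : TT m K v = μ • v), {N : Compacts L | (N : Set L) ⊆ Z (SS m K v)} := by
      ext N; simp [𝒳]
    rw [this]
    exact isClosed_iInter fun v => isClosed_iInter fun _ =>
      TopologicalSpace.Compacts.isClosed_subsets_of_isClosed (hZ _)
  -- the criterion
  have hcrit : ∀ N : Compacts L, ClosedNormal mul ldiv e (N : Set L) →
      (N ∈ 𝒳 ↔ ∀ v, TT m K v = μ • v → v ∈ HH m (AN mul (N : Set L))) := by
    intro N hN
    have key : ∀ v, TT m K v = μ • v →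
        (v ∈ HH m (AN mul (N : Set L)) ↔ (N : Set L) ⊆ Z (SS m K v)) := by
      intro v hv
      rw [eig_iff m K _ (closed_AN _) (conv_inv M hmul hldiv m hL k hN) hμ hv]
      exact ⟨fun h n hn x => h x n hn, fun h x n hn => h hn x⟩
    exact ⟨fun h v hv => (key v hv).2 (h v hv), fun h v hv => (key v hv).1 (h v hv)⟩
  -- relative openness
  have hopen : ∀ N₀ ∈ 𝒳, ClosedNormal mul ldiv e (N₀ : Set L) → ∃ O : Set (Compacts L),
      IsOpen O ∧ N₀ ∈ O ∧ ∀ N ∈ O, ClosedNormal mul ldiv e (N : Set L) → N ∈ 𝒳 := by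
    intro N₀ hN₀ hcn₀
    let V := eigenspace (TT m K : Module.End ℝ (EE m)) μ
    have hfin : FiniteDimensional ℝ V :=
      ContinuousLinearMap.finite_dimensional_eigenspace (TT_compact m K) μ hμ
    have hprop : ProperSpace V := FiniteDimensional.proper ℝ V
    have hSc : IsCompact ((Subtype.val : V → EE m) '' Metric.sphere 0 1) :=
      (isCompact_sphere _ _).image continuous_subtype_val
    let δ : ℝ := 1 / (4 * (‖inc m‖ + 1))
    have hδ : 0 < δ := by positivity
    let Uv : EE m → Set L := fun v => {n | ∀ x, |(μ⁻¹ • SS m K v) (mul x n) -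
      (μ⁻¹ • SS m K v) x| < δ}
    have hUv : ∀ v, IsOpen (Uv v) := by
      intro v
      rw [isOpen_iff_mem_nhds]
      intro n₀ hn₀
      have := (isCompact_univ (X := L)).eventually_forall_of_forall_eventually
        (x₀ := n₀) (P := fun n x => |(μ⁻¹ • SS m K v) (mul x n) - (μ⁻¹ • SS m K v) x| < δ) (by
          intro x _
          have hc : Continuous (fun z : L × L => |(μ⁻¹ • SS m K v) (mul z.2 z.1) -
              (μ⁻¹ • SS m K v) z.2|) := by
            have c1 : Continuous (fun z : L × L => (μ⁻¹ • SS m K v) (mul z.2 z.1)) :=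
              (μ⁻¹ • SS m K v).continuous.comp (hmul.comp continuous_swap)
            have c2 : Continuous (fun z : L × L => (μ⁻¹ • SS m K v) z.2) :=
              (μ⁻¹ • SS m K v).continuous.comp continuous_snd
            exact (c1.sub c2).abs
          exact (hc.tendsto (n₀, x)).eventually (eventually_lt_nhds (hn₀ x)))
      filter_upwards [this] with n hn x
      exact hn x (Set.mem_univ x)
    obtain ⟨t, htS, htc⟩ := hSc.elim_nhds_subcover (fun v => Metric.ball v (1 / 2))
      (fun v _ => Metric.ball_mem_nhds _ (by norm_num))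
    refine ⟨⋂ v ∈ t, {N : Compacts L | (N : Set L) ⊆ Uv v}, ?_, ?_, ?_⟩
    · exact isOpen_biInter_finset fun v _ =>
        TopologicalSpace.Compacts.isOpen_subsets_of_isOpen (hUv v)
    · refine Set.mem_iInter₂.2 fun v hv n hn x => ?_
      obtain ⟨⟨w, hw⟩, -, rfl⟩ := htS v hv
      have hw' : TT m K w = μ • w := mem_eigenspace_iff.1 hw
      have h1 := hN₀ w hw' hn x
      simp only [ContinuousMap.smul_apply, h1, sub_self, abs_zero]
      exact hδ
    · intro N hN hcn
      rw [hcrit N hcn]
      intro v hv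
      refine eig_le_of_close m K hs _ (closed_AN _) (conv_inv M hmul hldiv m hL k hcn) ?_ hv
      intro u hu hu1
      have huS : u ∈ (Subtype.val : V → EE m) '' Metric.sphere 0 1 := by
        refine ⟨⟨u, mem_eigenspace_iff.2 hu⟩, ?_, rfl⟩
        rw [mem_sphere_zero_iff_norm]
        exact hu1
      obtain ⟨w, hwt, huw⟩ := Set.mem_iUnion₂.1 (htc huS)
      obtain ⟨⟨w', hw⟩, -, rfl⟩ := htS w hwt
      have hw' : TT m K w' = μ • w' := mem_eigenspace_iff.1 hw
      have hNU : (N : Set L) ⊆ Uv w' := Set.mem_iInter₂.1 hN w' hwt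
      obtain ⟨g, hg, hgδ⟩ := exists_smooth hcn M hmul (μ⁻¹ • SS m K w') δ
        (fun n hn x => (hNU hn x).le)
      refine ⟨inc m g, inc_mem_HH m _ hg, ?_⟩
      have e1 : w' = inc m (μ⁻¹ • SS m K w') := by
        rw [map_smul, ← TT_apply, hw', smul_smul, inv_mul_cancel₀ hμ, one_smul]
      have e2 : ‖w' - inc m g‖ ≤ 1 / 4 := by
        have e3 : w' - inc m g = inc m (μ⁻¹ • SS m K w' - g) := by
          rw [map_sub, ← e1]
        have e4 : ‖μ⁻¹ • SS m K w' - g‖ ≤ δ := by
          rw [ContinuousMap.norm_le _ hδ.le]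
          intro x
          rw [Real.norm_eq_abs, ContinuousMap.sub_apply, abs_sub_comm]
          exact hgδ x
        rw [e3]
        calc ‖inc m (μ⁻¹ • SS m K w' - g)‖ ≤ ‖inc m‖ * ‖μ⁻¹ • SS m K w' - g‖ :=
              (inc m).le_opNorm _
          _ ≤ (‖inc m‖ + 1) * δ := by
              gcongr; linarith
          _ = 1 / 4 := by
              have : ‖inc m‖ + 1 ≠ 0 := by positivity
              simp only [δ]
              field_simp
      have e5 : ‖u - w'‖ < 1 / 2 := by
        rw [← dist_eq_norm]; exact huw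
      calc ‖u - inc m g‖ = ‖(u - w') + (w' - inc m g)‖ := by rw [sub_add_sub_cancel]
        _ ≤ ‖u - w'‖ + ‖w' - inc m g‖ := norm_add_le _ _
        _ < 1 := by linarith
  -- connectedness
  have hsub : connectedComponentIn {N : Compacts L | ClosedNormal mul ldiv e (N : Set L)} {e}
      ⊆ {N : Compacts L | ClosedNormal mul ldiv e (N : Set L)} := connectedComponentIn_subset _ _
  choose! O hO1 hO2 hO3 using hopen
  have hmem : N ∈ 𝒳 := by
    by_contra hcon
    have hpre := isPreconnected_connectedComponentIn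
      (F := {N : Compacts L | ClosedNormal mul ldiv e (N : Set L)}) (x := ({e} : Compacts L))
    let u : Set (Compacts L) := ⋃ N₀ ∈ 𝒳 ∩ {N : Compacts L | ClosedNormal mul ldiv e (N : Set L)},
      O N₀
    have huo : IsOpen u := isOpen_biUnion fun N₀ hN₀ => hO1 N₀ hN₀.1 hN₀.2
    have he : ({e} : Compacts L) ∈
        connectedComponentIn {N : Compacts L | ClosedNormal mul ldiv e (N : Set L)} {e} := by
      apply mem_connectedComponentIn
      by_contra hne
      rw [connectedComponentIn_eq_empty hne] at hN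
      exact hN
    have heX : ({e} : Compacts L) ∈ 𝒳 := by
      intro v _ n hn x
      have : n = e := hn
      rw [this, M.er]
    obtain ⟨N', hN's, hN'u, hN'v⟩ := hpre u 𝒳ᶜ huo h𝒳c.isOpen_compl (by
        intro N' hN'
        by_cases h : N' ∈ 𝒳
        · left
          exact Set.mem_iUnion₂.2 ⟨N', ⟨h, hsub hN'⟩, hO2 N' h (hsub hN')⟩
        · right; exact h)
      ⟨{e}, he, Set.mem_iUnion₂.2 ⟨{e}, ⟨heX, hsub he⟩, hO2 _ heX (hsub he)⟩⟩
      ⟨N, hN, hcon⟩
    obtain ⟨N₀, hN₀, hN'O⟩ := Set.mem_iUnion₂.1 hN'u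
    exact hN'v (hO3 N₀ hN₀.1 hN₀.2 N' hN'O (hsub hN's))
  exact (hcrit N (hsub hN)).1 hmem

include M hmul hldiv in
/-- **The component of `{e}` is trivial** if there is an invariant integral. -/
theorem component_trivial [m.Regular]
    (hL : ∀ a (f : C(L, ℝ)), ∫ x, f (mul a x) ∂m = ∫ x, f x ∂m) (N : Compacts L)
    (hN : N ∈ connectedComponentIn {N : Compacts L | ClosedNormal mul ldiv e (N : Set L)} {e}) :
    (N : Set L) = {e} := by
  have hcn : ClosedNormal mul ldiv e (N : Set L) :=
    connectedComponentIn_subset {N : Compacts L | ClosedNormal mul ldiv e (N : Set L)} _ hN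
  have hd : DenseRange (inc m) := ContinuousMap.toLp_denseRange ℝ m ℝ (by simp)
  have horth : ∀ g ∈ (HH m (AN mul (N : Set L)))ᗮ, g = 0 := by
    intro g hg
    have hT : ∀ k : C(L, ℝ), (∀ y, k (M.inv y) = k y) → TT m (kerK M hmul hldiv k) g = 0 := by
      intro k hk
      exact TT_zero_of_eig m _ (TT_symm m (ker_symm M hmul hldiv k hk)) _ (closed_AN _)
        (conv_inv M hmul hldiv m hL k hcn)
        (fun μ hμ => eig_component M hmul hldiv m hL k hk hμ N hN) hg
    have h1 : ∀ f : C(L, ℝ), ⟪g, inc m f⟫ = 0 := by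
      intro f
      have key : ∀ ε > 0, |⟪g, inc m f⟫| ≤ ε := by
        intro ε hε
        obtain ⟨k, hk, hkf⟩ := approx_id M hmul hldiv m hL f
          (ε := ε / (‖g‖ * ‖inc m‖ + 1)) (by positivity)
        set K := kerK M hmul hldiv k
        have hsym : (TT m K).IsSymmetric := TT_symm m (ker_symm M hmul hldiv k hk)
        have e1 : ⟪g, inc m (SS m K (inc m f))⟫ = 0 := by
          have : ⟪TT m K g, inc m f⟫ = ⟪g, TT m K (inc m f)⟫ := hsym g (inc m f)
          rw [hT k hk, inner_zero_left] at this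
          exact this.symm
        have e2 : ⟪g, inc m f⟫ = ⟪g, inc m (f - SS m K (inc m f))⟫ := by
          rw [map_sub, inner_sub_right, e1, sub_zero]
        rw [e2]
        have hpos : (0 : ℝ) < ‖g‖ * ‖inc m‖ + 1 := by positivity
        have e3 : ‖f - SS m K (inc m f)‖ ≤ ε / (‖g‖ * ‖inc m‖ + 1) := by
          rw [ContinuousMap.norm_le _ (by positivity)]
          intro x
          rw [Real.norm_eq_abs, ContinuousMap.sub_apply, abs_sub_comm]
          exact hkf x
        calc |⟪g, inc m (f - SS m K (inc m f))⟫|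
            ≤ ‖g‖ * ‖inc m (f - SS m K (inc m f))‖ := abs_real_inner_le_norm _ _
          _ ≤ ‖g‖ * (‖inc m‖ * (ε / (‖g‖ * ‖inc m‖ + 1))) := by
              gcongr
              exact ((inc m).le_opNorm _).trans (by gcongr)
          _ = (‖g‖ * ‖inc m‖) / (‖g‖ * ‖inc m‖ + 1) * ε := by ring
          _ ≤ 1 * ε := by
              gcongr
              rw [div_le_one hpos]
              linarith
          _ = ε := one_mul ε
      have : |⟪g, inc m f⟫| ≤ 0 := le_of_forall_pos_le_add (fun ε hε => by
        rw [zero_add]; exact key ε hε)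
      exact abs_nonpos_iff.1 this
    have h2 : ∀ u : EE m, ⟪g, u⟫ = 0 := by
      have hc1 : Continuous (fun u : EE m => ⟪g, u⟫) := by fun_prop
      have := hd.equalizer hc1 (continuous_const (y := (0 : ℝ))) (by
        funext f
        exact h1 f)
      exact fun u => congrFun this u
    exact inner_self_eq_zero.1 (h2 g)
  have hcomp := complete_HH m (AN mul (N : Set L))
  have htop : HH m (AN mul (N : Set L)) = ⊤ := by
    rw [← Submodule.orthogonal_eq_bot_iff, Submodule.eq_bot_iff]
    exact horth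
  have hall : ∀ f : C(L, ℝ), f ∈ AN mul (N : Set L) := by
    intro f
    have : f ∈ closure (AN mul (N : Set L) : Set C(L, ℝ)) := by
      rw [Metric.mem_closure_iff]
      intro ε hε
      obtain ⟨k, hk, hkf⟩ := approx_id M hmul hldiv m hL f (half_pos hε)
      refine ⟨SS m (kerK M hmul hldiv k) (inc m f), ?_, ?_⟩
      · exact SS_mem m _ _ (closed_AN _) (conv_inv M hmul hldiv m hL k hcn)
          (by rw [htop]; exact Submodule.mem_top)
      · have h1 : dist f (SS m (kerK M hmul hldiv k) (inc m f)) ≤ ε / 2 := by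
          rw [ContinuousMap.dist_le (half_pos hε).le]
          intro x
          rw [Real.dist_eq, abs_sub_comm]
          exact hkf x
        linarith
    rwa [(closed_AN _).closure_eq] at this
  ext n
  constructor
  · intro hn
    by_contra hne
    have hne' : n ≠ e := hne
    obtain ⟨f, hf0, hf1, -⟩ := exists_continuous_zero_one_of_isClosed
      (isClosed_singleton (x := n)) (isClosed_singleton (x := e)) (by
        rw [Set.disjoint_singleton]; exact hne')
    have h1 := hall f e n hn
    rw [M.el] at h1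
    have h2 : f n = 0 := hf0 rfl
    have h3 : f e = 1 := hf1 rfl
    rw [h2, h3] at h1
    exact zero_ne_one h1
  · intro hn
    have : n = e := hn
    rw [this]
    exact hcn.one_mem

end

end Pool.Agent.R664.Haar
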