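import Pool.Agent.R664.Haar.Conv4
import Pool.Agent.TH15.MoufangHaar.Near
import Pool.Agent.TH15.MoufangHaar.Conn

set_option autoImplicit false
set_option linter.unusedSectionVars false

/-!
The equivalence: an invariant integral exists iff the component of `{e}` in the space of closed normal
subloops is a point.
-/

namespace Pool.Agent.R664.Haar

open MeasureTheory Topology Filter
open TopologicalSpace (Compacts)
open Pool.Agent.TH15.MoufangHaar (ClosedNormal)

/-- one direction, in the form of functionals -/
theorem component_of_integral {L : Type*} [TopologicalSpace L] [CompactSpace L] [T2Space L]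
    {mul ldiv rdiv : L → L → L} {e : L} (M : IsMoufang mul ldiv rdiv e)
    (hmul : Continuous (fun p : L × L => mul p.1 p.2))
    (hldiv : Continuous (fun p : L × L => ldiv p.1 p.2))
    (I : C(L, ℝ) →ₗ[ℝ] ℝ) (h1 : I 1 = 1) (hp : ∀ f : C(L, ℝ), (∀ x, 0 ≤ f x) → 0 ≤ I f)
    (hl : ∀ (a : L) (f g : C(L, ℝ)), (∀ x, g x = f (mul a x)) → I g = I f) :
    connectedComponentIn {N : Compacts L | ClosedNormal mul ldiv e (N : Set L)} {e} = {{e}} := by
  let _ : MeasurableSpace L := borel L
  have _ : BorelSpace L := ⟨rfl⟩
  obtain ⟨m, hreg, hprob, hm⟩ := exists_measure I ⟨fun f hf => hp f hf, h1⟩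
  have hL : ∀ a (f : C(L, ℝ)), ∫ x, f (mul a x) ∂m = ∫ x, f x ∂m := by
    intro a f
    have e1 : ∫ x, f (mul a x) ∂m = I (f.comp (lt mul hmul a)) := hm (f.comp (lt mul hmul a))
    rw [e1, hm f]
    exact hl a f _ (fun x => rfl)
  have key := component_trivial M hmul hldiv m hL
  have hcn : ClosedNormal mul ldiv e ({e} : Set L) :=
    { closed := isClosed_singleton
      one_mem := rfl
      mul_mem := by
        intro x hx y hy
        rw [Set.mem_singleton_iff] at hx hy
        rw [hx, hy, M.el]; rfl
      inv_mem := by
        intro x hx
        rw [Set.mem_singleton_iff] at hx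
        rw [hx]
        have := M.ml e e
        rw [M.el] at this
        exact this
      comm := by
        intro x
        simp only [Set.image_singleton, M.el, M.er]
      left := by
        intro x y
        simp only [Set.image_singleton, M.er]
      right := by
        intro x y
        simp only [Set.image_singleton, M.el] }
  refine Set.Subset.antisymm ?_ ?_
  · intro N hN
    have := key N hN
    rw [Set.mem_singleton_iff]
    exact SetLike.coe_injective (by rw [this]; rfl)
  · rw [Set.singleton_subset_iff]
    exact mem_connectedComponentIn hcn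

end Pool.Agent.R664.Haar
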