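import Pool.Agent.R664.Haar.Td

set_option autoImplicit false

/-!
Transversals and the invariant mean on the kernel.
-/

namespace Pool.Agent.R664.Haar

open MeasureTheory Topology Filter

section
variable {L : Type*} [TopologicalSpace L] [CompactSpace L] [T2Space L]
variable {Q : Type*} [TopologicalSpace Q] [T2Space Q]
variable {mul ldiv : L → L → L} {e : L} {π : L → Q}

/-- word of left translations -/
def act (mul : L → L → L) (l : List L) (x : L) : L := l.foldr mul x

omit [CompactSpace L] [T2Space L] [T2Space Q] in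
lemma act_iff (B : BolData mul ldiv e π) (l : List L) (x y : L) :
    π (act mul l x) = π (act mul l y) ↔ π x = π y := by
  induction l with
  | nil => rfl
  | cons a l ih => exact (B.iff a _ _).trans ih

omit [CompactSpace L] [T2Space L] [T2Space Q] in
lemma act_surj (B : BolData mul ldiv e π) (l : List L) (x : L) : ∃ y, act mul l y = x := by
  induction l generalizing x with
  | nil => exact ⟨x, rfl⟩
  | cons a l ih =>
    obtain ⟨y, hy⟩ := ih (ldiv a x)
    refine ⟨y, ?_⟩
    change mul a (act mul l y) = x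
    rw [hy, B.ml]

/-- transversal data for a neighbourhood `U` of `e` -/
def GoodR (mul : L → L → L) (e : L) (π : L → Q) (U : Set L) (R : Finset L) : Prop :=
  R.Nonempty ∧ ∀ l l' : List L, π (act mul l e) = π (act mul l' e) →
    ∃ τ : L → L, (∀ r ∈ R, τ r ∈ R) ∧ (∀ r ∈ R, ∀ s ∈ R, τ r = τ s → r = s) ∧
      ∀ r ∈ R, ∃ u ∈ U, act mul l r = mul (act mul l' (τ r)) u

omit [T2Space L] in
lemma exists_goodR (B : BolData mul ldiv e π)
    (htd : IsTotallyDisconnected {n | π n = π e}) (U : Set L) (hU : U ∈ 𝓝 e) [T2Space L] :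
    ∃ R : Finset L, GoodR mul e π U R := by
  classical
  -- a clopen neighbourhood in the kernel
  let N : Set L := {n | π n = π e}
  have hNc : IsCompact N := (isClosed_eq B.cπ continuous_const).isCompact
  have hNcs : CompactSpace N := isCompact_iff_compactSpace.1 hNc
  have hNtd : TotallyDisconnectedSpace N := by
    rwa [totallyDisconnectedSpace_subtype_iff]
  obtain ⟨U', hU'U, hU'o, heU'⟩ := mem_nhds_iff.1 hU
  obtain ⟨V, hVc, heV, hVU⟩ := compact_exists_isClopen_in_isOpen
    (X := N) (U := Subtype.val ⁻¹' U') (hU'o.preimage continuous_subtype_val)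
    (x := ⟨e, rfl⟩) heU'
  -- the relation
  let δ : Pairs π → N := fun p => ⟨ldiv p.1.1 p.1.2, by
    change π _ = π e
    rw [← B.iff p.1.1, B.ml, B.er]; exact p.2.symm⟩
  have hδ : Continuous δ := by
    refine Continuous.subtype_mk ?_ _
    exact B.cl.comp (by fun_prop : Continuous (fun z : Pairs π => (z.1.1, z.1.2)))
  obtain ⟨E, hEc, hEW, hEd, hEi⟩ := exists_invariant B (δ ⁻¹' V) (hVc.preimage hδ) (by
    intro x
    have : δ ⟨(x, x), rfl⟩ = ⟨e, rfl⟩ := by
      apply Subtype.ext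
      change ldiv x x = e
      conv_lhs => rw [← B.er x]
      rw [show ldiv (mul x e) (mul x e) = ldiv x (mul x e) by rw [B.er]]
      exact B.lm x e
    change δ ⟨(x, x), rfl⟩ ∈ V
    rw [this]; exact heV)
  let E' : L → L → Prop := fun x y => ∃ h : π x = π y, (⟨(x, y), h⟩ : Pairs π) ∈ E
  have E'refl : ∀ x, E' x x := fun x => ⟨rfl, hEd x⟩
  have E'inv : ∀ a x y, E' (mul a x) (mul a y) ↔ E' x y := by
    intro a x y
    constructor
    · rintro ⟨h, h'⟩
      have h0 : π x = π y := (B.iff a x y).1 h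
      exact ⟨h0, (hEi a ⟨(x, y), h0⟩).1 h'⟩
    · rintro ⟨h, h'⟩
      exact ⟨(B.iff a x y).2 h, (hEi a ⟨(x, y), h⟩).2 h'⟩
  let r : L → L → Prop := fun x y => π x = π y ∧ ∀ z, E' x z ↔ E' y z
  have rrefl : ∀ x, r x x := fun x => ⟨rfl, fun z => Iff.rfl⟩
  have rsymm : ∀ x y, r x y → r y x := fun x y h => ⟨h.1.symm, fun z => (h.2 z).symm⟩
  have rtrans : ∀ x y z, r x y → r y z → r x z :=
    fun x y z h h' => ⟨h.1.trans h'.1, fun w => (h.2 w).trans (h'.2 w)⟩
  have rinv : ∀ a x y, r (mul a x) (mul a y) ↔ r x y := by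
    intro a x y
    constructor
    · rintro ⟨h, h'⟩
      refine ⟨(B.iff a x y).1 h, fun z => ?_⟩
      have := h' (mul a z)
      rwa [E'inv, E'inv] at this
    · rintro ⟨h, h'⟩
      refine ⟨(B.iff a x y).2 h, fun z => ?_⟩
      have := h' (ldiv a z)
      rw [← E'inv a x, ← E'inv a y, B.ml] at this
      exact this
  have ract : ∀ (l : List L) x y, r (act mul l x) (act mul l y) ↔ r x y := by
    intro l x y
    induction l with
    | nil => rfl
    | cons a l ih => exact (rinv a _ _).trans ih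
  have rU : ∀ x y, r x y → ∃ u ∈ U, y = mul x u := by
    intro x y hr
    have h1 : E' x y := (hr.2 y).2 (E'refl y)
    obtain ⟨h, hE⟩ := h1
    have h2 : δ ⟨(x, y), h⟩ ∈ V := hEW hE
    exact ⟨ldiv x y, hU'U (hVU h2), (B.ml x y).symm⟩
  -- finitely many classes in the kernel
  let φ : N → Set N := fun n => {z | E' n.1 z.1}
  have hφ : IsLocallyConstant φ := by
    rw [IsLocallyConstant.iff_eventually_eq]
    intro n₀
    have hΦ : Continuous (fun z : N × N => (⟨(z.1.1, z.2.1), z.1.2.trans z.2.2.symm⟩ : Pairs π)) :=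
      Continuous.subtype_mk (by fun_prop) _
    filter_upwards [tube _ hΦ E hEc n₀] with n hn
    ext z
    have := hn z
    constructor
    · rintro ⟨h, h'⟩
      exact ⟨n₀.2.trans z.2.symm, this.1 h'⟩
    · rintro ⟨h, h'⟩
      exact ⟨n.2.trans z.2.symm, this.2 h'⟩
  have hfin : (Set.range φ).Finite := hφ.range_finite
  let pick : Set N → N := fun S => if h : ∃ n, φ n = S then h.choose else ⟨e, rfl⟩
  have hpick : ∀ n, φ (pick (φ n)) = φ n := by
    intro n
    have h : ∃ m, φ m = φ n := ⟨n, rfl⟩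
    simp only [pick, dif_pos h]
    exact h.choose_spec
  have hφr : ∀ n m : N, φ n = φ m → r n.1 m.1 := by
    intro n m h
    refine ⟨n.2.trans m.2.symm, fun z => ?_⟩
    by_cases hz : π z = π e
    · have : (⟨z, hz⟩ : N) ∈ φ n ↔ (⟨z, hz⟩ : N) ∈ φ m := by rw [h]
      exact this
    · constructor
      · rintro ⟨h1, -⟩
        exact absurd (h1.symm.trans n.2) hz
      · rintro ⟨h1, -⟩
        exact absurd (h1.symm.trans m.2) hz
  have hrφ : ∀ n m : N, r n.1 m.1 → φ n = φ m := by
    intro n m h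
    ext z
    exact h.2 z.1
  let R : Finset L := (hfin.toFinset.image pick).image Subtype.val
  have hRmem : ∀ n : N, (pick (φ n)).1 ∈ R := by
    intro n
    apply Finset.mem_image_of_mem
    apply Finset.mem_image_of_mem
    rw [Set.Finite.mem_toFinset]
    exact ⟨n, rfl⟩
  have hRform : ∀ x ∈ R, ∃ n : N, x = (pick (φ n)).1 := by
    intro x hx
    obtain ⟨y, hy, rfl⟩ := Finset.mem_image.1 hx
    obtain ⟨S, hS, rfl⟩ := Finset.mem_image.1 hy
    rw [Set.Finite.mem_toFinset] at hS
    obtain ⟨n, rfl⟩ := hS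
    exact ⟨n, rfl⟩
  have hRuniq : ∀ x ∈ R, ∀ y ∈ R, r x y → x = y := by
    intro x hx y hy h
    obtain ⟨n, rfl⟩ := hRform x hx
    obtain ⟨m, rfl⟩ := hRform y hy
    have := hrφ _ _ h
    rw [hpick, hpick] at this
    rw [this]
  have hRex : ∀ n : L, π n = π e → ∃ x ∈ R, r n x := by
    intro n hn
    refine ⟨_, hRmem ⟨n, hn⟩, ?_⟩
    exact hφr ⟨n, hn⟩ _ (hpick _).symm
  have hRN : ∀ x ∈ R, π x = π e := by
    intro x hx
    obtain ⟨n, rfl⟩ := hRform x hx
    exact (pick (φ n)).2
  refine ⟨R, ⟨_, hRmem ⟨e, rfl⟩⟩, fun l l' hll' => ?_⟩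
  have hex : ∀ x, ∃ y, x ∈ R → y ∈ R ∧ r (act mul l' y) (act mul l x) := by
    intro x
    by_cases hx : x ∈ R
    · obtain ⟨n', hn'⟩ := act_surj B l' (act mul l x)
      have h1 : π n' = π e := by
        rw [← act_iff B l', hn', ← hll', act_iff B l]
        exact hRN x hx
      obtain ⟨y, hy, hry⟩ := hRex n' h1
      refine ⟨y, fun _ => ⟨hy, ?_⟩⟩
      rw [← hn', ract]
      exact rsymm _ _ hry
    · exact ⟨e, fun h => absurd h hx⟩
  choose τ hτ using hex
  refine ⟨τ, fun x hx => (hτ x hx).1, ?_, ?_⟩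
  · intro x hx y hy h
    have h1 := (hτ x hx).2
    have h2 := (hτ y hy).2
    rw [h] at h1
    exact hRuniq x hx y hy ((ract l x y).1 (rtrans _ _ _ (rsymm _ _ h1) h2))
  · intro x hx
    exact rU _ _ (hτ x hx).2

/-- **Invariant mean on the kernel.** -/
theorem exists_mean (B : BolData mul ldiv e π)
    (htd : IsTotallyDisconnected {n | π n = π e}) :
    ∃ K : C(L, ℝ) →ₗ[ℝ] ℝ, IsMean K ∧ ∀ l l' : List L,
      π (act mul l e) = π (act mul l' e) → ∀ f g g' : C(L, ℝ),
      (∀ x, g x = f (act mul l x)) → (∀ x, g' x = f (act mul l' x)) → K g = K g' := by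
  classical
  let ι := {U : Set L // U ∈ 𝓝 e}
  let 𝓕 : Filter ι := comap Subtype.val (𝓝 e).smallSets
  have hne : 𝓕.NeBot := by
    apply comap_neBot
    intro t ht
    obtain ⟨U, hU, hUt⟩ := (eventually_smallSets (p := fun s => s ∈ t)).1 ht
    exact ⟨⟨U, hU⟩, hUt U (le_refl _)⟩
  choose R hR using fun U : ι => exists_goodR B htd U.1 U.2
  obtain ⟨K, hK, hlim⟩ := exists_ultralimit (Ultrafilter.of 𝓕) (fun U => avg (R U))
    (fun U => isMean_avg (R U) (hR U).1)
  refine ⟨K, hK, ?_⟩
  intro l l' hll' f g g' hg hg'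
  have h0 : Tendsto (fun U => avg (R U) g - avg (R U) g') (Ultrafilter.of 𝓕) (𝓝 0) := by
    rw [Metric.tendsto_nhds]
    intro ε hε
    apply (Ultrafilter.of_le 𝓕)
    have h1 : ∀ᶠ u in 𝓝 e, ∀ y, |f (mul y u) - f (mul y e)| < ε / 2 := by
      have hm' : Continuous (fun p : L × L => mul p.2 p.1) :=
        B.cm.comp continuous_swap
      exact unif (fun x y => mul y x) hm' f e (half_pos hε)
    have h2 : ∀ᶠ U in 𝓕, ∀ u ∈ U.1, ∀ y, |f (mul y u) - f (mul y e)| < ε / 2 :=
      (eventually_smallSets_forall.2 h1).comap _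
    filter_upwards [h2] with U hU
    rw [Real.dist_eq, sub_zero]
    obtain ⟨τ, ht1, ht2, ht3⟩ := (hR U).2 l l' hll'
    have := abs_avg_sub_le (R U) (hR U).1 g g' (ε / 2) τ ht1 ht2 (by
      intro x hx
      obtain ⟨u, hu, hxu⟩ := ht3 x hx
      rw [hg, hg', hxu]
      have := hU u hu (act mul l' (τ x))
      rw [B.er] at this
      exact this.le)
    linarith
  have h1 := (hlim g).sub (hlim g')
  have := tendsto_nhds_unique h0 h1
  linarith

end

end Pool.Agent.R664.Haar
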