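import Pool.Agent.R664.Haar.Ext3
import Pool.Agent.R664.Haar.Trans

set_option autoImplicit false
set_option linter.unusedSectionVars false

/-!
Invariant measures on compact Moufang loops: totally disconnected loops, extensions, and
reduction to connected loops.
-/

namespace Pool.Agent.R664.Haar

open MeasureTheory Topology Filter

/-- a topological Moufang loop -/
structure TopMoufang {L : Type*} [TopologicalSpace L] (mul ldiv rdiv : L → L → L) (e : L) :
    Prop where
  M : IsMoufang mul ldiv rdiv e
  cm : Continuous (fun p : L × L => mul p.1 p.2)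
  cl : Continuous (fun p : L × L => ldiv p.1 p.2)
  cr : Continuous (fun p : L × L => rdiv p.1 p.2)

/-- **Totally disconnected compact Moufang loops** have an invariant measure. -/
theorem haar_td {L : Type*} [TopologicalSpace L] [CompactSpace L] [T2Space L]
    [TotallyDisconnectedSpace L] [MeasurableSpace L] [BorelSpace L]
    {mul ldiv rdiv : L → L → L} {e : L} (T : TopMoufang mul ldiv rdiv e) : HasHaar L mul := by
  have B : BolData mul ldiv e (fun _ : L => ()) :=
    { ml := T.M.ml
      lm := T.M.lm
      er := T.M.er
      el := T.M.el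
      cm := T.cm
      cl := T.cl
      bol := T.M.bol
      cπ := continuous_const
      iff := fun _ _ _ => Iff.rfl }
  obtain ⟨K, hK, hinv⟩ := exists_mean B (isTotallyDisconnected_of_totallyDisconnectedSpace _)
  refine hasHaar_of_mean T.M T.cm T.cl T.cr K hK (fun a f => ?_)
  exact hinv [a] [] rfl f _ _ (fun _ => rfl) (fun _ => rfl)

section
variable {L : Type*} [TopologicalSpace L] [CompactSpace L] [T2Space L] [MeasurableSpace L]
  [BorelSpace L]
variable {Q : Type*} [TopologicalSpace Q] [T2Space Q] [CompactSpace Q] [MeasurableSpace Q]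
  [BorelSpace Q]
variable {mul ldiv rdiv : L → L → L} {e : L} {π : L → Q} {mulQ : Q → Q → Q}

/-- an invariant measure on the isotope at `c` of the kernel of `π` -/
def KerHaar (mul ldiv : L → L → L) (e : L) (π : L → Q) (c : L) : Prop :=
  ∃ μ : Measure L, IsProbabilityMeasure μ ∧ μ {n | π n ≠ π e} = 0 ∧
    ∀ u, π u = π e → μ.map (fun x => ldiv c (mul (mul c u) x)) = μ ∧
      μ.map (fun x => ldiv c (mul (mul c x) u)) = μ

lemma good_of_kerHaar (D : ExtData mul ldiv rdiv e mulQ π) (c : L)
    (h : KerHaar mul ldiv e π c) : ∃ K, D.Good c K := by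
  obtain ⟨μ, hμ, hN, hinv⟩ := h
  refine ⟨intMean μ, isMean_intMean μ, ?_, ?_, ?_⟩
  · intro f g hfg
    rw [intMean_apply, intMean_apply]
    apply integral_congr_ae
    rw [Filter.EventuallyEq, ae_iff]
    refine measure_mono_null ?_ hN
    intro x hx hx'
    exact hx (hfg x hx')
  · have key : ∀ b, π b = π c → ∀ f : C(L, ℝ),
        intMean μ (f.comp (lt mul D.cm b)) = intMean μ (f.comp (lt mul D.cm c)) := by
      intro b hb f
      have hu : π (ldiv c b) = π e := D.ldiv_ker c b hb.symm
      have h1 := (hinv _ hu).1
      have hc : Continuous (fun x => ldiv c (mul (mul c (ldiv c b)) x)) :=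
        D.cl.comp (continuous_const.prodMk (D.cm.comp (Continuous.prodMk_right _)))
      rw [intMean_apply, intMean_apply]
      conv_rhs => rw [← h1]
      rw [integral_map hc.measurable.aemeasurable
        ((f.comp (lt mul D.cm c)).continuous.aestronglyMeasurable_of_compactSpace)]
      congr 1
      funext x
      change f (mul b x) = f (mul c (ldiv c (mul (mul c (ldiv c b)) x)))
      rw [D.M.ml, D.M.ml]
    intro b b' hb hb' f
    rw [key b hb f, key b' hb' f]
  · intro v hv f
    have h1 := (hinv _ hv).2
    have hc : Continuous (fun x => ldiv c (mul (mul c x) v)) := (D.rt c v).continuous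
    rw [intMean_apply, intMean_apply]
    conv_rhs => rw [← h1]
    rw [integral_map hc.measurable.aemeasurable
      (f.continuous.aestronglyMeasurable_of_compactSpace)]
    rfl

/-- **The extension theorem.** -/
theorem haar_ext (T : TopMoufang mul ldiv rdiv e) (cπ : Continuous π)
    (sπ : Function.Surjective π) (hom : ∀ x y, π (mul x y) = mulQ (π x) (π y))
    (can : ∀ a x y, mulQ a x = mulQ a y → x = y)
    (hcQ : Continuous (fun p : Q × Q => mulQ p.1 p.2))
    (hQ : HasHaar Q mulQ) (hK : ∀ c, KerHaar mul ldiv e π c) : HasHaar L mul := by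
  have D : ExtData mul ldiv rdiv e mulQ π := ⟨T.M, T.cm, T.cl, cπ, sπ, hom, can⟩
  obtain ⟨m, hm, hinv⟩ := hQ
  obtain ⟨I, hI, hI2⟩ := D.extension (fun c => good_of_kerHaar D c (hK c)) m
    (fun q => (hinv q).1) (fun q => (hinv q).2) hcQ
  exact hasHaar_of_mean T.M T.cm T.cl T.cr I hI hI2

end

section kernel
variable {L : Type*} [TopologicalSpace L] [CompactSpace L] [T2Space L]
variable {Q : Type*} [TopologicalSpace Q] [T2Space Q]
variable {mul ldiv rdiv : L → L → L} {e : L} {π : L → Q} {mulQ : Q → Q → Q}

lemma kmem (D : ExtData mul ldiv rdiv e mulQ π) (c u v : L) (hu : π u = π e) (hv : π v = π e) :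
    π (ldiv c (mul (mul c u) v)) = π e := by
  rw [← D.iff c, D.M.ml, D.M.er, D.ker_mul _ v hv, D.ker_mul _ u hu]

lemma kmem2 (D : ExtData mul ldiv rdiv e mulQ π) (c u w : L) (hu : π u = π e) (hw : π w = π e) :
    π (ldiv (mul c u) (mul c w)) = π e := by
  rw [← D.iff (mul c u), D.M.ml, D.M.er, D.ker_mul _ w hw, D.ker_mul _ u hu]

lemma kmem3 (D : ExtData mul ldiv rdiv e mulQ π) (c w v : L) (hw : π w = π e) (hv : π v = π e) :
    π (ldiv c (rdiv (mul c w) v)) = π e := by
  have h1 : π (rdiv (mul c w) v) = π c := by
    have := D.ker_mul (rdiv (mul c w) v) v hv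
    rw [D.M.mr, D.ker_mul c w hw] at this
    exact this.symm
  rw [← D.iff c, D.M.ml, D.M.er, h1]

/-- the isotope at `c` of the kernel is a topological Moufang loop -/
lemma topMoufang_ker (D : ExtData mul ldiv rdiv e mulQ π)
    (cr : Continuous (fun p : L × L => rdiv p.1 p.2)) (c : L) :
    TopMoufang (L := {n : L // π n = π e})
      (fun u v => ⟨ldiv c (mul (mul c u.1) v.1), kmem D c u.1 v.1 u.2 v.2⟩)
      (fun u w => ⟨ldiv (mul c u.1) (mul c w.1), kmem2 D c u.1 w.1 u.2 w.2⟩)
      (fun w v => ⟨ldiv c (rdiv (mul c w.1) v.1), kmem3 D c w.1 v.1 w.2 v.2⟩) ⟨e, rfl⟩ where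
  M :=
    { el := fun x => Subtype.ext (by simp only [D.M.er, D.M.lm])
      er := fun x => Subtype.ext (by simp only [D.M.er, D.M.lm])
      ml := fun x y => Subtype.ext (by simp only [D.M.ml, D.M.lm])
      lm := fun x y => Subtype.ext (by simp only [D.M.ml, D.M.lm])
      mr := fun x y => Subtype.ext (by simp only [D.M.ml, D.M.lm, D.M.mr])
      rm := fun x y => Subtype.ext (by simp only [D.M.ml, D.M.lm, D.M.rm])
      mou := fun x y z => Subtype.ext (D.M.iso_mou c x.1 y.1 z.1) }
  cm := by
    refine Continuous.subtype_mk ?_ _
    have h1 : Continuous (fun p : {n : L // π n = π e} × {n : L // π n = π e} => mul c p.1.1) :=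
      D.cm.comp (continuous_const.prodMk (by fun_prop))
    have h2 : Continuous (fun p : {n : L // π n = π e} × {n : L // π n = π e} =>
        mul (mul c p.1.1) p.2.1) := D.cm.comp (h1.prodMk (by fun_prop))
    exact D.cl.comp (continuous_const.prodMk h2)
  cl := by
    refine Continuous.subtype_mk ?_ _
    have h1 : Continuous (fun p : {n : L // π n = π e} × {n : L // π n = π e} => mul c p.1.1) :=
      D.cm.comp (continuous_const.prodMk (by fun_prop))
    have h2 : Continuous (fun p : {n : L // π n = π e} × {n : L // π n = π e} => mul c p.2.1) :=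
      D.cm.comp (continuous_const.prodMk (by fun_prop))
    exact D.cl.comp (h1.prodMk h2)
  cr := by
    refine Continuous.subtype_mk ?_ _
    have h1 : Continuous (fun p : {n : L // π n = π e} × {n : L // π n = π e} => mul c p.1.1) :=
      D.cm.comp (continuous_const.prodMk (by fun_prop))
    have h2 : Continuous (fun p : {n : L // π n = π e} × {n : L // π n = π e} =>
        rdiv (mul c p.1.1) p.2.1) := cr.comp (h1.prodMk (by fun_prop))
    exact D.cl.comp (continuous_const.prodMk h2)

lemma compact_ker (D : ExtData mul ldiv rdiv e mulQ π) :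
    CompactSpace {n : L // π n = π e} :=
  (isCompact_iff_compactSpace (s := {n : L | π n = π e})).1
    (isClosed_eq D.cπ continuous_const).isCompact

/-- from an invariant measure on the isotope (a subtype) to `KerHaar` -/
lemma kerHaar_of_hasHaar [MeasurableSpace L] [BorelSpace L]
    (D : ExtData mul ldiv rdiv e mulQ π) (c : L)
    (h : HasHaar {n : L // π n = π e}
      (fun u v => ⟨ldiv c (mul (mul c u.1) v.1), kmem D c u.1 v.1 u.2 v.2⟩)) :
    KerHaar mul ldiv e π c := by
  obtain ⟨μ, hμ, hinv⟩ := h
  have hval : Measurable (Subtype.val : {n : L // π n = π e} → L) := measurable_subtype_coe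
  have hcl : MeasurableSet {n : L | π n = π e} :=
    (isClosed_eq D.cπ continuous_const).measurableSet
  refine ⟨μ.map Subtype.val, Measure.isProbabilityMeasure_map hval.aemeasurable, ?_, ?_⟩
  · rw [show {n | π n ≠ π e} = {n : L | π n = π e}ᶜ from rfl, Measure.map_apply hval hcl.compl]
    convert measure_empty (μ := μ)
    ext x
    simp [x.2]
  · intro u hu
    have c1 : Continuous (fun x => ldiv c (mul (mul c u) x)) :=
      D.cl.comp (continuous_const.prodMk (D.cm.comp (Continuous.prodMk_right _)))
    have c2 : Continuous (fun x => ldiv c (mul (mul c x) u)) := (D.rt c u).continuous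
    have T1 : Continuous (fun x : {n : L // π n = π e} =>
        (⟨ldiv c (mul (mul c u) x.1), kmem D c u x.1 hu x.2⟩ : {n : L // π n = π e})) :=
      Continuous.subtype_mk (c1.comp continuous_subtype_val) _
    have T2 : Continuous (fun x : {n : L // π n = π e} =>
        (⟨ldiv c (mul (mul c x.1) u), kmem D c x.1 u x.2 hu⟩ : {n : L // π n = π e})) :=
      Continuous.subtype_mk (c2.comp continuous_subtype_val) _
    constructor
    · rw [Measure.map_map c1.measurable hval]
      conv_rhs => rw [← (hinv ⟨u, hu⟩).1, Measure.map_map hval T1.measurable]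
      rfl
    · rw [Measure.map_map c2.measurable hval]
      conv_rhs => rw [← (hinv ⟨u, hu⟩).2, Measure.map_map hval T2.measurable]
      rfl

end kernel

/-- **Extensions with totally disconnected kernel.** -/
theorem haar_td_kernel {L : Type*} [TopologicalSpace L] [CompactSpace L] [T2Space L]
    [MeasurableSpace L] [BorelSpace L]
    {Q : Type*} [TopologicalSpace Q] [T2Space Q] [CompactSpace Q] [MeasurableSpace Q]
    [BorelSpace Q] {mul ldiv rdiv : L → L → L} {e : L} {π : L → Q} {mulQ : Q → Q → Q}
    (T : TopMoufang mul ldiv rdiv e) (cπ : Continuous π)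
    (sπ : Function.Surjective π) (hom : ∀ x y, π (mul x y) = mulQ (π x) (π y))
    (can : ∀ a x y, mulQ a x = mulQ a y → x = y)
    (hcQ : Continuous (fun p : Q × Q => mulQ p.1 p.2))
    (hQ : HasHaar Q mulQ) (htd : IsTotallyDisconnected {n : L | π n = π e}) :
    HasHaar L mul := by
  have D : ExtData mul ldiv rdiv e mulQ π := ⟨T.M, T.cm, T.cl, cπ, sπ, hom, can⟩
  refine haar_ext T cπ sπ hom can hcQ hQ (fun c => kerHaar_of_hasHaar D c ?_)
  have := compact_ker D
  have : TotallyDisconnectedSpace {n : L // π n = π e} := totallyDisconnectedSpace_subtype_iff.2 htd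
  exact haar_td (topMoufang_ker D T.cr c)

section components
variable {L : Type*} [TopologicalSpace L] [CompactSpace L] [T2Space L]
variable {mul ldiv rdiv : L → L → L} {e : L}

/-- congruence property of connected components for a jointly continuous operation -/
lemma cc_congr (op : L → L → L) (hop : Continuous (fun p : L × L => op p.1 p.2)) (x x' y y' : L)
    (hx : (x : ConnectedComponents L) = x') (hy : (y : ConnectedComponents L) = y') :
    ((op x y : L) : ConnectedComponents L) = (op x' y' : L) := by
  have h1 : ((op x y : L) : ConnectedComponents L) = (op x' y : L) :=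
    Continuous.image_eq_of_connectedComponent_eq
      (f := fun z => ((op z y : L) : ConnectedComponents L))
      (ConnectedComponents.continuous_coe.comp (hop.comp (Continuous.prodMk_left y))) x x'
      (ConnectedComponents.coe_eq_coe.1 hx)
  have h2 : ((op x' y : L) : ConnectedComponents L) = (op x' y' : L) :=
    Continuous.image_eq_of_connectedComponent_eq
      (f := fun z => ((op x' z : L) : ConnectedComponents L))
      (ConnectedComponents.continuous_coe.comp (hop.comp (Continuous.prodMk_right x'))) y y'
      (ConnectedComponents.coe_eq_coe.1 hy)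
  exact h1.trans h2

/-- induced operation on the space of connected components -/
noncomputable def ccOp (op : L → L → L) (p q : ConnectedComponents L) : ConnectedComponents L :=
  ((op (Function.surjInv ConnectedComponents.surjective_coe p)
    (Function.surjInv ConnectedComponents.surjective_coe q) : L) : ConnectedComponents L)

lemma ccOp_coe (op : L → L → L) (hop : Continuous (fun p : L × L => op p.1 p.2)) (x y : L) :
    ccOp op (x : ConnectedComponents L) y = (op x y : L) :=
  cc_congr op hop _ _ _ _ (Function.surjInv_eq ConnectedComponents.surjective_coe _)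
    (Function.surjInv_eq ConnectedComponents.surjective_coe _)

lemma continuous_ccOp (op : L → L → L) (hop : Continuous (fun p : L × L => op p.1 p.2)) :
    Continuous (fun p : ConnectedComponents L × ConnectedComponents L => ccOp op p.1 p.2) := by
  have hc : Continuous (Prod.map (ConnectedComponents.mk (α := L))
      (ConnectedComponents.mk (α := L))) :=
    ConnectedComponents.continuous_coe.prodMap ConnectedComponents.continuous_coe
  have hs : Function.Surjective (Prod.map (ConnectedComponents.mk (α := L))
      (ConnectedComponents.mk (α := L))) :=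
    ConnectedComponents.surjective_coe.prodMap ConnectedComponents.surjective_coe
  have hq : IsQuotientMap (Prod.map (ConnectedComponents.mk (α := L))
      (ConnectedComponents.mk (α := L))) := hc.isClosedMap.isQuotientMap hc hs
  rw [hq.continuous_iff]
  have : (fun p : ConnectedComponents L × ConnectedComponents L => ccOp op p.1 p.2) ∘
      (Prod.map (ConnectedComponents.mk (α := L)) (ConnectedComponents.mk (α := L)))
      = fun p : L × L => ((op p.1 p.2 : L) : ConnectedComponents L) := by
    funext p
    exact ccOp_coe op hop p.1 p.2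
  rw [this]
  exact ConnectedComponents.continuous_coe.comp hop

lemma topMoufang_cc (T : TopMoufang mul ldiv rdiv e) :
    TopMoufang (ccOp mul) (ccOp ldiv) (ccOp rdiv) (e : ConnectedComponents L) where
  M :=
    { el := fun x => by
        obtain ⟨x, rfl⟩ := ConnectedComponents.surjective_coe x
        rw [ccOp_coe _ T.cm, T.M.el]
      er := fun x => by
        obtain ⟨x, rfl⟩ := ConnectedComponents.surjective_coe x
        rw [ccOp_coe _ T.cm, T.M.er]
      ml := fun x y => by
        obtain ⟨x, rfl⟩ := ConnectedComponents.surjective_coe x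
        obtain ⟨y, rfl⟩ := ConnectedComponents.surjective_coe y
        rw [ccOp_coe _ T.cl, ccOp_coe _ T.cm, T.M.ml]
      lm := fun x y => by
        obtain ⟨x, rfl⟩ := ConnectedComponents.surjective_coe x
        obtain ⟨y, rfl⟩ := ConnectedComponents.surjective_coe y
        rw [ccOp_coe _ T.cm, ccOp_coe _ T.cl, T.M.lm]
      mr := fun x y => by
        obtain ⟨x, rfl⟩ := ConnectedComponents.surjective_coe x
        obtain ⟨y, rfl⟩ := ConnectedComponents.surjective_coe y
        rw [ccOp_coe _ T.cr, ccOp_coe _ T.cm, T.M.mr]
      rm := fun x y => by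
        obtain ⟨x, rfl⟩ := ConnectedComponents.surjective_coe x
        obtain ⟨y, rfl⟩ := ConnectedComponents.surjective_coe y
        rw [ccOp_coe _ T.cm, ccOp_coe _ T.cr, T.M.rm]
      mou := fun x y z => by
        obtain ⟨x, rfl⟩ := ConnectedComponents.surjective_coe x
        obtain ⟨y, rfl⟩ := ConnectedComponents.surjective_coe y
        obtain ⟨z, rfl⟩ := ConnectedComponents.surjective_coe z
        simp only [ccOp_coe _ T.cm, T.M.mou] }
  cm := continuous_ccOp _ T.cm
  cl := continuous_ccOp _ T.cl
  cr := continuous_ccOp _ T.cr

/-- the extension data for the quotient by the identity component -/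
lemma extData_cc (T : TopMoufang mul ldiv rdiv e) :
    ExtData mul ldiv rdiv e (ccOp mul) (fun x : L => (x : ConnectedComponents L)) where
  M := T.M
  cm := T.cm
  cl := T.cl
  cπ := ConnectedComponents.continuous_coe
  sπ := ConnectedComponents.surjective_coe
  hom x y := (ccOp_coe _ T.cm x y).symm
  can a x y h := (topMoufang_cc T).M.lcancel h

lemma connected_ker (e : L) :
    ConnectedSpace {n : L // (n : ConnectedComponents L) = (e : ConnectedComponents L)} := by
  have h : {n : L | (n : ConnectedComponents L) = (e : ConnectedComponents L)}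
      = connectedComponent e := by
    ext n
    rw [Set.mem_setOf_eq, ConnectedComponents.coe_eq_coe']
  have h2 : IsConnected {n : L | (n : ConnectedComponents L) = (e : ConnectedComponents L)} := by
    rw [h]; exact isConnected_connectedComponent
  exact isConnected_iff_connectedSpace.1 h2

/-- **Reduction to the identity component.** If all isotopes of the identity component at
elements of `L` have invariant measures, then so does `L`. -/
theorem haar_of_component [MeasurableSpace L] [BorelSpace L] (T : TopMoufang mul ldiv rdiv e)
    (h : ∀ c, HasHaar {n : L // (n : ConnectedComponents L) = (e : ConnectedComponents L)}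
      (fun u v => ⟨ldiv c (mul (mul c u.1) v.1),
        kmem (extData_cc T) c u.1 v.1 u.2 v.2⟩)) : HasHaar L mul := by
  let _ : MeasurableSpace (ConnectedComponents L) := borel _
  have : BorelSpace (ConnectedComponents L) := ⟨rfl⟩
  have D := extData_cc T
  refine haar_ext T D.cπ D.sπ D.hom D.can (continuous_ccOp _ T.cm)
    (haar_td (topMoufang_cc T)) (fun c => kerHaar_of_hasHaar D c (h c))

end components

/-- **Reduction to connected loops.** -/
theorem haar_of_connected
    (h : ∀ (N : Type) [TopologicalSpace N] [CompactSpace N] [T2Space N] [ConnectedSpace N]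
      [MeasurableSpace N] [BorelSpace N] (mul ldiv rdiv : N → N → N) (e : N),
      TopMoufang mul ldiv rdiv e → HasHaar N mul)
    (L : Type) [TopologicalSpace L] [CompactSpace L] [T2Space L]
    [MeasurableSpace L] [BorelSpace L] (mul ldiv rdiv : L → L → L) (e : L)
    (T : TopMoufang mul ldiv rdiv e) : HasHaar L mul := by
  refine haar_of_component T (fun c => ?_)
  have := compact_ker (extData_cc T)
  have := connected_ker e
  exact h _ _ _ _ _ (topMoufang_ker (extData_cc T) T.cr c)

end Pool.Agent.R664.Haar
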