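import Pool.Agent.R664.Haar.Conv5
import Pool.Agent.R664.Haar.Final

set_option autoImplicit false
set_option linter.unusedSectionVars false

/-!
The component of `{e}` and sections `S / T` of the loop.
-/

namespace Pool.Agent.R664.Haar

open MeasureTheory Topology Filter Set
open TopologicalSpace (Compacts)
open Pool.Agent.TH15.MoufangHaar (ClosedNormal NN XC XC_top near_state iso_near quot_data triv_CN)

/-- there is an invariant integral for the product `mul` on `G`: a normalised positive linear
functional on `C(G)` invariant under all left and right translations -/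
def HasIntegral {G : Type*} [TopologicalSpace G] (mul : G → G → G) : Prop :=
  ∃ I : C(G, ℝ) →ₗ[ℝ] ℝ, I 1 = 1 ∧ (∀ f : C(G, ℝ), (∀ x, 0 ≤ f x) → 0 ≤ I f) ∧
    (∀ (a : G) (f g : C(G, ℝ)), (∀ x, g x = f (mul a x)) → I g = I f) ∧
    (∀ (a : G) (f g : C(G, ℝ)), (∀ x, g x = f (mul x a)) → I g = I f)

section hom
variable {G H : Type*} {mul ldiv rdiv : G → G → G} {e : G}
  {mul' ldiv' rdiv' : H → H → H} {e' : H}

lemma hom_one (M : IsMoufang mul ldiv rdiv e) (M' : IsMoufang mul' ldiv' rdiv' e') (f : G → H)
    (hf : ∀ x y, f (mul x y) = mul' (f x) (f y)) : f e = e' := by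
  have h1 := hf e e
  rw [M.el] at h1
  apply M'.lcancel (x := f e)
  rw [← h1, M'.er]

lemma hom_ldiv (M : IsMoufang mul ldiv rdiv e) (M' : IsMoufang mul' ldiv' rdiv' e') (f : G → H)
    (hf : ∀ x y, f (mul x y) = mul' (f x) (f y)) (x y : G) :
    f (ldiv x y) = ldiv' (f x) (f y) := by
  apply M'.lcancel (x := f x)
  rw [← hf, M.ml, M'.ml]

end hom

section
variable {G H : Type*} [TopologicalSpace G] [TopologicalSpace H]
  {mul ldiv rdiv : G → G → G} {e : G} {mul' ldiv' rdiv' : H → H → H} {e' : H}

/-- preimage of a closed normal subloop under an injective homomorphism with large range -/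
lemma cn_preimage (M : IsMoufang mul ldiv rdiv e) (M' : IsMoufang mul' ldiv' rdiv' e') (j : G → H)
    (cj : Continuous j) (ij : Function.Injective j)
    (hj : ∀ x y, j (mul x y) = mul' (j x) (j y)) {K : Set H} (hK : ClosedNormal mul' ldiv' e' K)
    (hKj : K ⊆ range j) : ClosedNormal mul ldiv e (j ⁻¹' K) := by
  have h1 : j e = e' := hom_one M M' j hj
  refine ⟨hK.closed.preimage cj, ?_, ?_, ?_, ?_, ?_, ?_⟩
  · change j e ∈ K
    rw [h1]; exact hK.one_mem
  · intro x hx y hy
    change j (mul x y) ∈ K
    rw [hj]; exact hK.mul_mem _ hx _ hy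
  · intro x hx
    change j (ldiv x e) ∈ K
    rw [hom_ldiv M M' j hj, h1]; exact hK.inv_mem _ hx
  · intro x
    have hc := hK.comm (j x)
    ext z
    constructor
    · rintro ⟨n, hn, rfl⟩
      have : mul' (j x) (j n) ∈ (fun n => mul' (j x) n) '' K := ⟨_, hn, rfl⟩
      rw [hc] at this
      obtain ⟨k, hk, hk2⟩ := this
      obtain ⟨n', rfl⟩ := hKj hk
      refine ⟨n', hk, ij ?_⟩
      change j (mul n' x) = j (mul x n)
      rw [hj, hj]; exact hk2
    · rintro ⟨n, hn, rfl⟩
      have : mul' (j n) (j x) ∈ (fun n => mul' n (j x)) '' K := ⟨_, hn, rfl⟩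
      rw [← hc] at this
      obtain ⟨k, hk, hk2⟩ := this
      obtain ⟨n', rfl⟩ := hKj hk
      refine ⟨n', hk, ij ?_⟩
      change j (mul x n') = j (mul n x)
      rw [hj, hj]; exact hk2
  · intro x y
    have hc := hK.left (j x) (j y)
    ext z
    constructor
    · rintro ⟨n, hn, rfl⟩
      have : mul' (j x) (mul' (j y) (j n)) ∈ (fun n => mul' (j x) (mul' (j y) n)) '' K :=
        ⟨_, hn, rfl⟩
      rw [hc] at this
      obtain ⟨k, hk, hk2⟩ := this
      obtain ⟨n', rfl⟩ := hKj hk
      refine ⟨n', hk, ij ?_⟩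
      change j (mul (mul x y) n') = j (mul x (mul y n))
      rw [hj, hj, hj, hj]; exact hk2
    · rintro ⟨n, hn, rfl⟩
      have : mul' (mul' (j x) (j y)) (j n) ∈ (fun n => mul' (mul' (j x) (j y)) n) '' K :=
        ⟨_, hn, rfl⟩
      rw [← hc] at this
      obtain ⟨k, hk, hk2⟩ := this
      obtain ⟨n', rfl⟩ := hKj hk
      refine ⟨n', hk, ij ?_⟩
      change j (mul x (mul y n')) = j (mul (mul x y) n)
      rw [hj, hj, hj, hj]; exact hk2
  · intro x y
    have hc := hK.right (j x) (j y)
    ext z
    constructor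
    · rintro ⟨n, hn, rfl⟩
      have : mul' (mul' (j n) (j x)) (j y) ∈ (fun n => mul' (mul' n (j x)) (j y)) '' K :=
        ⟨_, hn, rfl⟩
      rw [hc] at this
      obtain ⟨k, hk, hk2⟩ := this
      obtain ⟨n', rfl⟩ := hKj hk
      refine ⟨n', hk, ij ?_⟩
      change j (mul n' (mul x y)) = j (mul (mul n x) y)
      rw [hj, hj, hj, hj]; exact hk2
    · rintro ⟨n, hn, rfl⟩
      have : mul' (j n) (mul' (j x) (j y)) ∈ (fun n => mul' n (mul' (j x) (j y))) '' K :=
        ⟨_, hn, rfl⟩
      rw [← hc] at this
      obtain ⟨k, hk, hk2⟩ := this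
      obtain ⟨n', rfl⟩ := hKj hk
      refine ⟨n', hk, ij ?_⟩
      change j (mul (mul n' x) y) = j (mul n (mul x y))
      rw [hj, hj, hj, hj]; exact hk2

/-- image of a closed normal subloop under a surjective homomorphism of compact loops -/
lemma cn_image [CompactSpace G] [T2Space H] (M : IsMoufang mul ldiv rdiv e)
    (M' : IsMoufang mul' ldiv' rdiv' e') (p : G → H) (cp : Continuous p)
    (sp : Function.Surjective p) (hp : ∀ x y, p (mul x y) = mul' (p x) (p y)) {K : Set G}
    (hK : ClosedNormal mul ldiv e K) : ClosedNormal mul' ldiv' e' (p '' K) := by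
  have h1 : p e = e' := hom_one M M' p hp
  refine ⟨(hK.closed.isCompact.image cp).isClosed, ⟨e, hK.one_mem, h1⟩, ?_, ?_, ?_, ?_, ?_⟩
  · rintro _ ⟨x, hx, rfl⟩ _ ⟨y, hy, rfl⟩
    exact ⟨_, hK.mul_mem _ hx _ hy, hp x y⟩
  · rintro _ ⟨x, hx, rfl⟩
    refine ⟨_, hK.inv_mem _ hx, ?_⟩
    rw [hom_ldiv M M' p hp, h1]
  · intro q
    obtain ⟨x, rfl⟩ := sp q
    have h2 : (fun n => mul' (p x) n) '' (p '' K) = p '' ((fun n => mul x n) '' K) := by
      rw [image_image, image_image]
      simp only [hp]
    have h3 : (fun n => mul' n (p x)) '' (p '' K) = p '' ((fun n => mul n x) '' K) := by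
      rw [image_image, image_image]
      simp only [hp]
    rw [h2, h3, hK.comm]
  · intro q r
    obtain ⟨x, rfl⟩ := sp q
    obtain ⟨y, rfl⟩ := sp r
    have h2 : (fun n => mul' (p x) (mul' (p y) n)) '' (p '' K)
        = p '' ((fun n => mul x (mul y n)) '' K) := by
      rw [image_image, image_image]
      simp only [hp]
    have h3 : (fun n => mul' (mul' (p x) (p y)) n) '' (p '' K)
        = p '' ((fun n => mul (mul x y) n) '' K) := by
      rw [image_image, image_image]
      simp only [hp]
    rw [h2, h3, hK.left]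
  · intro q r
    obtain ⟨x, rfl⟩ := sp q
    obtain ⟨y, rfl⟩ := sp r
    have h2 : (fun n => mul' (mul' n (p x)) (p y)) '' (p '' K)
        = p '' ((fun n => mul (mul n x) y) '' K) := by
      rw [image_image, image_image]
      simp only [hp]
    have h3 : (fun n => mul' n (mul' (p x) (p y))) '' (p '' K)
        = p '' ((fun n => mul n (mul x y)) '' K) := by
      rw [image_image, image_image]
      simp only [hp]
    rw [h2, h3, hK.right]

end

/-- **Sections.** Let `j : S → L` be injective and `p : S → Q` surjective, `Q` with an invariant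
integral; if all members of the component of `{e}` are in the range of `j`, then they are killed
by `p`. -/
theorem component_section {L S Q : Type*} [TopologicalSpace L] [CompactSpace L] [T2Space L]
    [TopologicalSpace S] [CompactSpace S] [T2Space S]
    [TopologicalSpace Q] [CompactSpace Q] [T2Space Q]
    {mul ldiv rdiv : L → L → L} {e : L} {mulS ldivS rdivS : S → S → S} {eS : S}
    {mulQ ldivQ rdivQ : Q → Q → Q} {eQ : Q}
    (TL : TopMoufang mul ldiv rdiv e) (TS : TopMoufang mulS ldivS rdivS eS)
    (TQ : TopMoufang mulQ ldivQ rdivQ eQ)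
    (j : S → L) (cj : Continuous j) (ij : Function.Injective j)
    (hj : ∀ x y, j (mulS x y) = mul (j x) (j y))
    (p : S → Q) (cp : Continuous p) (sp : Function.Surjective p)
    (hp : ∀ x y, p (mulS x y) = mulQ (p x) (p y)) (hQ : HasIntegral mulQ)
    (hr : ∀ K : Compacts L, K ∈ XC mul ldiv e → (K : Set L) ⊆ range j) :
    ∀ K : Compacts L, K ∈ XC mul ldiv e → ∀ s, j s ∈ (K : Set L) → p s = eQ := by
  obtain ⟨I, i1, i2, i3, -⟩ := hQ
  have hcQ := component_of_integral TQ.M TQ.cm TQ.cl I i1 i2 i3
  have hemb : IsEmbedding (Compacts.map j cj) :=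
    (cj.isClosedEmbedding ij).isEmbedding.compacts_map
  set A : Set (Compacts S) := (Compacts.map j cj) ⁻¹' XC mul ldiv e with hA
  have hex : ∀ K : Compacts L, K ∈ XC mul ldiv e → ∃ K' ∈ A, Compacts.map j cj K' = K := by
    intro K hK
    let K' : Compacts S := ⟨j ⁻¹' (K : Set L), (K.isCompact.isClosed.preimage cj).isCompact⟩
    have h1 : Compacts.map j cj K' = K := by
      apply SetLike.coe_injective
      change j '' (j ⁻¹' (K : Set L)) = (K : Set L)
      exact image_preimage_eq_of_subset (hr K hK)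
    have h2 : Compacts.map j cj K' ∈ XC mul ldiv e := by rw [h1]; exact hK
    exact ⟨K', h2, h1⟩
  have himg : Compacts.map j cj '' A = XC mul ldiv e := by
    apply Subset.antisymm
    · rintro _ ⟨K', hK', rfl⟩
      exact hK'
    · intro K hK
      obtain ⟨K', hK', h⟩ := hex K hK
      exact ⟨K', hK', h⟩
  have hpreA : IsPreconnected A := by
    rw [← hemb.isInducing.isPreconnected_image, himg]
    exact isPreconnected_connectedComponentIn
  have hTL : ({e} : Compacts L) ∈ NN mul ldiv e :=
    triv_CN ⟨TL.M.el, TL.M.er, TL.M.ml, TL.M.lm, TL.M.mr, TL.M.rm, fun x y z => TL.M.mou z x y⟩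
  have heL : ({e} : Compacts L) ∈ XC mul ldiv e := mem_connectedComponentIn hTL
  have hjS : j eS = e := hom_one TS.M TL.M j hj
  have hpS : p eS = eQ := hom_one TS.M TQ.M p hp
  have hB : Compacts.map p cp '' A ⊆
      connectedComponentIn {N : Compacts Q | ClosedNormal mulQ ldivQ eQ (N : Set Q)} {eQ} := by
    refine IsPreconnected.subset_connectedComponentIn
      (hpreA.image _ cp.compacts_map.continuousOn) ?_ ?_
    · refine ⟨{eS}, ?_, ?_⟩
      · change Compacts.map j cj {eS} ∈ XC mul ldiv e
        have : Compacts.map j cj {eS} = {e} := by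
          apply SetLike.coe_injective
          change j '' {eS} = {e}
          rw [image_singleton, hjS]
        rw [this]; exact heL
      · apply SetLike.coe_injective
        change p '' {eS} = {eQ}
        rw [image_singleton, hpS]
    · rintro _ ⟨K', hK', rfl⟩
      have hK : Compacts.map j cj K' ∈ NN mul ldiv e := connectedComponentIn_subset _ _ hK'
      have h1 : ClosedNormal mul ldiv e (j '' (K' : Set S)) := hK
      have h2 := cn_preimage TS.M TL.M j cj ij hj h1 (image_subset_range _ _)
      rw [preimage_image_eq _ ij] at h2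
      exact cn_image TS.M TQ.M p cp sp hp h2
  intro K hK s hs
  obtain ⟨K', hK', h⟩ := hex K hK
  have h1 : Compacts.map p cp K' ∈ ({{eQ}} : Set (Compacts Q)) := by
    rw [← hcQ]
    exact hB ⟨K', hK', rfl⟩
  have h2 : s ∈ K' := by
    have : j s ∈ (Compacts.map j cj K' : Set L) := by rw [h]; exact hs
    obtain ⟨s', hs', hjs⟩ := this
    rwa [← ij hjs]
  have h3 : p s ∈ (Compacts.map p cp K' : Set Q) := ⟨s, h2, rfl⟩
  rw [mem_singleton_iff.1 h1] at h3
  exact h3

end Pool.Agent.R664.Haar
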