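import Pool.Agent.R664.Haar.Conv6

set_option autoImplicit false
set_option linter.unusedSectionVars false

/-!
The Haar radical of a compact Moufang loop.
-/

namespace Pool.Agent.R664.Haar

open MeasureTheory Topology Filter Set
open TopologicalSpace (Compacts)
open Pool.Agent.TH15.MoufangHaar (ClosedNormal NN XC XC_top near_state iso_near quot_data triv_CN)

universe u

/-- `T` is the kernel of a continuous homomorphism of the loop `(S, mulS)` onto a compact Moufang loop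
which has an invariant integral -/
def HaarKernel {S : Type u} [TopologicalSpace S] (mulS : S → S → S) (T : Set S) : Prop :=
  ∃ (Q : Type u) (_ : TopologicalSpace Q) (_ : CompactSpace Q) (_ : T2Space Q)
    (mulQ ldivQ rdivQ : Q → Q → Q) (eQ : Q) (π : S → Q),
    TopMoufang mulQ ldivQ rdivQ eQ ∧ HasIntegral mulQ ∧ Continuous π ∧ Function.Surjective π ∧
      (∀ x y, π (mulS x y) = mulQ (π x) (π y)) ∧ ∀ x, π x = eQ ↔ x ∈ T

lemma TopMoufang.old {L : Type*} [TopologicalSpace L] {mul ldiv rdiv : L → L → L} {e : L}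
    (TL : TopMoufang mul ldiv rdiv e) : Pool.Agent.Helper974.Moufang.IsMoufang mul ldiv rdiv e :=
  ⟨TL.M.el, TL.M.er, TL.M.ml, TL.M.lm, TL.M.mr, TL.M.rm, fun x y z => TL.M.mou z x y⟩

/-- the greatest element of the component of `{e}` -/
theorem radical {L : Type u} [TopologicalSpace L] [CompactSpace L] [T2Space L]
    {mul ldiv rdiv : L → L → L} {e : L} (TL : TopMoufang mul ldiv rdiv e) :
    ∃ M : Compacts L, M ∈ XC mul ldiv e ∧ (∀ K : Compacts L, K ∈ XC mul ldiv e → K ≤ M) ∧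
      IsConnected (M : Set L) ∧ HaarKernel mul (M : Set L) := by
  have h := TL.old
  obtain ⟨M, hM, hMt, hMc⟩ := XC_top h TL.cm TL.cl TL.cr
  refine ⟨M, hM, fun K hK => hMt K hK, hMc, ?_⟩
  have hMN0 : M ∈ NN mul ldiv e := connectedComponentIn_subset _ _ hM
  have hMN : ClosedNormal mul ldiv e (M : Set L) := hMN0
  obtain ⟨P, ⟨p1, p2, p3, p4⟩, hP⟩ := near_state h TL.cm TL.cl TL.cr (M := (M : Set L))
    (iso_near h TL.cm TL.cl TL.cr hM hMt)
  obtain ⟨Q, _, _, _, mul', ldiv', rdiv', π, q1, q2, q3, q4, q5, q6, q7, q8, q9, q10, q11⟩ :=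
    quot_data h TL.cm TL.cl TL.cr hMN
  have hQ : IsMoufang mul' ldiv' rdiv' (π e) :=
    ⟨q1.one_mul, q1.mul_one, q1.mul_ldiv, q1.ldiv_mul, q1.rdiv_mul, q1.mul_rdiv,
      fun x y z => q1.moufang y z x⟩
  have hk : ∀ x, π x = π e ↔ x ∈ (M : Set L) := by
    intro x
    rw [eq_comm, q11]
    have : ldiv e x = x := by
      have := TL.M.lm e x
      rwa [TL.M.el] at this
    rw [this]
  have hconst : ∀ k : C(Q, ℝ), ∀ x, ∀ m ∈ (M : Set L), (k.comp ⟨π, q5⟩) (mul x m) =
      (k.comp ⟨π, q5⟩) x := by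
    intro k x m hm
    change k (π (mul x m)) = k (π x)
    rw [q8, (hk m).2 hm, q1.mul_one]
  refine ⟨Q, inferInstance, inferInstance, inferInstance, mul', ldiv', rdiv', π e, π,
    ⟨hQ, q2, q3, q4⟩, ?_, q5, q7, q8, hk⟩
  refine ⟨{ toFun := fun k => P (k.comp ⟨π, q5⟩)
            map_add' := fun k k' => p1 (k.comp ⟨π, q5⟩) (k'.comp ⟨π, q5⟩)
            map_smul' := fun c k => by
              change P (c • (k.comp ⟨π, q5⟩)) = c • P (k.comp ⟨π, q5⟩)
              rw [p2]; rfl }, p3, fun k hk => p4 _ (fun x => hk _), ?_, ?_⟩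
  · intro q k g hg
    obtain ⟨a, rfl⟩ := q7 q
    change P (g.comp ⟨π, q5⟩) = P (k.comp ⟨π, q5⟩)
    refine hP _ (hconst k) a _ (Or.inl (fun x => ?_))
    change g (π x) = k (π (mul a x))
    rw [hg, q8]
  · intro q k g hg
    obtain ⟨a, rfl⟩ := q7 q
    change P (g.comp ⟨π, q5⟩) = P (k.comp ⟨π, q5⟩)
    refine hP _ (hconst k) a _ (Or.inr (fun x => ?_))
    change g (π x) = k (π (mul x a))
    rw [hg, q8]

/-- **The Haar radical.** -/
theorem haar_radical {L : Type u} [TopologicalSpace L] [CompactSpace L] [T2Space L]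
    {mul ldiv rdiv : L → L → L} {e : L} (TL : TopMoufang mul ldiv rdiv e) :
    ∃ M : Set L, ClosedNormal mul ldiv e M ∧ IsConnected M ∧ HaarKernel mul M ∧
      ∀ (S : Type u) [TopologicalSpace S] [CompactSpace S] [T2Space S]
        (mulS ldivS rdivS : S → S → S) (eS : S) (j : S → L),
        TopMoufang mulS ldivS rdivS eS → Continuous j → Function.Injective j →
        (∀ x y, j (mulS x y) = mul (j x) (j y)) → M ⊆ range j →
        ∀ T : Set S, HaarKernel mulS T → M ⊆ j '' T := by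
  obtain ⟨M, hM, hMt, hMc, hMk⟩ := radical TL
  have hMN0 : M ∈ NN mul ldiv e := connectedComponentIn_subset _ _ hM
  refine ⟨M, hMN0, hMc, hMk, ?_⟩
  intro S _ _ _ mulS ldivS rdivS eS j TS cj ij hj hr T hT m hm
  obtain ⟨Q, _, _, _, mulQ, ldivQ, rdivQ, eQ, π, TQ, hQ, cπ, sπ, hπ, hk⟩ := hT
  obtain ⟨s, rfl⟩ := hr hm
  have := component_section TL TS TQ j cj ij hj π cπ sπ hπ hQ
    (fun K hK x hx => hr (hMt K hK hx)) M hM s hm
  exact ⟨s, (hk s).1 this, rfl⟩

end Pool.Agent.R664.Haar
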