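import Pool.Agent.R664.Haar.Conv7

set_option autoImplicit false
set_option linter.unusedSectionVars false

/-!
If there is an invariant integral, then the space of closed normal subloops is totally disconnected.
-/

namespace Pool.Agent.R664.Haar

open MeasureTheory Topology Filter Set
open TopologicalSpace (Compacts)
open Pool.Agent.TH15.MoufangHaar (ClosedNormal NN XC XC_top near_state iso_near quot_data triv_CN)

universe u

lemma comp_le {L : Type u} [TopologicalSpace L] [CompactSpace L] [T2Space L]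
    {mul ldiv rdiv : L → L → L} {e : L} (TL : TopMoufang mul ldiv rdiv e)
    (hI : HasIntegral mul) {t : Set (Compacts L)} (ht : t ⊆ NN mul ldiv e) (hpre : IsPreconnected t)
    {N₀ N₁ : Compacts L} (h0 : N₀ ∈ t) (h1 : N₁ ∈ t) : N₁ ≤ N₀ := by
  obtain ⟨Q, _, _, _, mul', ldiv', rdiv', π, q1, q2, q3, q4, q5, q6, q7, q8, q9, q10, q11⟩ :=
    quot_data TL.old TL.cm TL.cl TL.cr (ht h0)
  have hQ : IsMoufang mul' ldiv' rdiv' (π e) :=
    ⟨q1.one_mul, q1.mul_one, q1.mul_ldiv, q1.ldiv_mul, q1.rdiv_mul, q1.mul_rdiv,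
      fun x y z => q1.moufang y z x⟩
  have hk : ∀ x, π x = π e ↔ x ∈ (N₀ : Set L) := by
    intro x
    rw [eq_comm, q11]
    have : ldiv e x = x := by
      have := TL.M.lm e x
      rwa [TL.M.el] at this
    rw [this]
  obtain ⟨I, i1, i2, i3, i4⟩ := hI
  let J : C(Q, ℝ) →ₗ[ℝ] ℝ :=
    { toFun := fun k => I (k.comp ⟨π, q5⟩)
      map_add' := fun k k' => map_add I (k.comp ⟨π, q5⟩) (k'.comp ⟨π, q5⟩)
      map_smul' := fun c k => map_smul I c (k.comp ⟨π, q5⟩) }
  have hc := component_of_integral hQ q2 q3 J i1 (fun k hk => i2 _ (fun x => hk _)) (by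
    intro q k g hg
    obtain ⟨a, rfl⟩ := q7 q
    change I (g.comp ⟨π, q5⟩) = I (k.comp ⟨π, q5⟩)
    refine i3 a _ _ (fun x => ?_)
    change g (π x) = k (π (mul a x))
    rw [hg, q8])
  have hB : Compacts.map π q5 '' t ⊆
      connectedComponentIn {N : Compacts Q | ClosedNormal mul' ldiv' (π e) (N : Set Q)} {π e} := by
    refine IsPreconnected.subset_connectedComponentIn
      (hpre.image _ q5.compacts_map.continuousOn) ?_ ?_
    · refine ⟨N₀, h0, ?_⟩
      apply SetLike.coe_injective
      change π '' (N₀ : Set L) = {π e}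
      apply Subset.antisymm
      · rintro _ ⟨x, hx, rfl⟩
        exact (hk x).2 hx
      · rintro _ rfl
        exact ⟨e, (hk e).1 rfl, rfl⟩
    · rintro _ ⟨K, hK, rfl⟩
      exact cn_image TL.M hQ π q5 q7 q8 (ht hK)
  intro x hx
  have h2 : Compacts.map π q5 N₁ ∈ ({{π e}} : Set (Compacts Q)) := by
    rw [← hc]
    exact hB ⟨N₁, h1, rfl⟩
  have h3 : π x ∈ (Compacts.map π q5 N₁ : Set Q) := ⟨x, hx, rfl⟩
  rw [mem_singleton_iff.1 h2] at h3
  exact (hk x).1 h3

/-- **Criterion** -/
theorem criterion {L : Type u} [TopologicalSpace L] [CompactSpace L] [T2Space L]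
    {mul ldiv rdiv : L → L → L} {e : L} (TL : TopMoufang mul ldiv rdiv e) :
    List.TFAE [HasIntegral mul,
      connectedComponentIn {N : Compacts L | ClosedNormal mul ldiv e (N : Set L)} {e} = {{e}},
      IsTotallyDisconnected {N : Compacts L | ClosedNormal mul ldiv e (N : Set L)}] := by
  have hT : ({e} : Compacts L) ∈ NN mul ldiv e := triv_CN TL.old
  tfae_have 1 → 3 := by
    intro hI t ht hpre N₀ h0 N₁ h1
    exact le_antisymm (comp_le TL hI ht hpre h1 h0) (comp_le TL hI ht hpre h0 h1)
  tfae_have 3 → 2 := by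
    intro hd
    apply Subset.antisymm
    · intro N hN
      exact hd _ (connectedComponentIn_subset _ _) isPreconnected_connectedComponentIn hN
        (mem_connectedComponentIn hT)
    · rintro _ rfl
      exact mem_connectedComponentIn hT
  tfae_have 2 → 1 := by
    intro hC
    obtain ⟨M, hM, hMt, hMc⟩ := XC_top TL.old TL.cm TL.cl TL.cr
    have hMe : M = {e} := by
      have : M ∈ connectedComponentIn {N : Compacts L | ClosedNormal mul ldiv e (N : Set L)} {e} := hM
      rw [hC] at this
      exact this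
    obtain ⟨P, ⟨p1, p2, p3, p4⟩, hP⟩ := near_state TL.old TL.cm TL.cl TL.cr (M := (M : Set L))
      (iso_near TL.old TL.cm TL.cl TL.cr hM hMt)
    have hf : ∀ f : C(L, ℝ), ∀ x, ∀ m ∈ (M : Set L), f (mul x m) = f x := by
      intro f x m hm
      rw [hMe] at hm
      have : m = e := hm
      rw [this, TL.M.er]
    refine ⟨{ toFun := P, map_add' := p1, map_smul' := fun c f => by rw [p2]; rfl }, p3, p4, ?_, ?_⟩
    · intro a f g hg
      exact hP f (hf f) a g (Or.inl hg)
    · intro a f g hg
      exact hP f (hf f) a g (Or.inr hg)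
  tfae_finish

end Pool.Agent.R664.Haar
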