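import Pool.Agent.R664.Haar.Conv7
import Pool.Agent.H100R2.MH.P.T01
import Pool.Agent.H100R2.MH.P.T25

set_option autoImplicit false
set_option linter.unusedSectionVars false

/-!
Extensions, chains of closed normal subloops with an invariant integral.
-/

namespace Pool.Agent.R664.Haar

open MeasureTheory Topology Filter Set
open TopologicalSpace (Compacts)
open Pool.Agent.TH15.MoufangHaar (ClosedNormal NN XC XC_top near_state iso_near quot_data triv_CN)
open Pool.Agent.H100R2.MH (HasInvariantIntegralOn t01 t25)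

universe u

/-- `D` is the image of an injective continuous homomorphism, from a compact Moufang loop which has
an invariant integral -/
def HaarSub {L : Type u} [TopologicalSpace L] (mul : L → L → L) (D : Set L) : Prop :=
  ∃ (S : Type u) (_ : TopologicalSpace S) (_ : CompactSpace S) (_ : T2Space S)
    (mulS ldivS rdivS : S → S → S) (eS : S) (j : S → L),
    TopMoufang mulS ldivS rdivS eS ∧ HasIntegral mulS ∧ Continuous j ∧ Function.Injective j ∧
      (∀ x y, j (mulS x y) = mul (j x) (j y)) ∧ range j = D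

section
variable {L : Type u} [TopologicalSpace L] [CompactSpace L] [T2Space L]
  {mul ldiv rdiv : L → L → L} {e : L}

lemma integral_of_triv (TL : TopMoufang mul ldiv rdiv e) (h : HaarKernel mul {e}) :
    HasIntegral mul := by
  obtain ⟨Q, _, _, _, mulQ, ldivQ, rdivQ, eQ, π, TQ, ⟨I, i1, i2, i3, i4⟩, cπ, sπ, hπ, hk⟩ := h
  have inj : Function.Injective π := by
    intro x y hxy
    have h1 : π (ldiv x y) = eQ := by
      rw [hom_ldiv TL.M TQ.M π hπ, ← hxy]
      apply TQ.M.lcancel (x := π x)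
      rw [TQ.M.ml, TQ.M.er]
    have h2 : ldiv x y = e := (hk _).1 h1
    rw [← TL.M.ml x y, h2, TL.M.er]
  let φ : L ≃ₜ Q := Continuous.homeoOfEquivCompactToT2 (f := Equiv.ofBijective π ⟨inj, sπ⟩) cπ
  have hφ : ∀ x, φ x = π x := fun x => rfl
  let c : C(Q, L) := ⟨φ.symm, φ.symm.continuous⟩
  have hc : ∀ x, c (π x) = x := fun x => φ.symm_apply_apply x
  refine ⟨{ toFun := fun f => I (f.comp c)
            map_add' := fun f f' => map_add I (f.comp c) (f'.comp c)
            map_smul' := fun r f => map_smul I r (f.comp c) }, i1,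
    fun f hf => i2 _ (fun x => hf _), ?_, ?_⟩
  · intro a f g hg
    refine i3 (π a) _ _ (fun q => ?_)
    obtain ⟨x, rfl⟩ := sπ q
    change g (c (π x)) = f (c (mulQ (π a) (π x)))
    rw [← hπ, hc, hc, hg]
  · intro a f g hg
    refine i4 (π a) _ _ (fun q => ?_)
    obtain ⟨x, rfl⟩ := sπ q
    change g (c (π x)) = f (c (mulQ (π x) (π a)))
    rw [← hπ, hc, hc, hg]

lemma kernel_self (TL : TopMoufang mul ldiv rdiv e) (h : HasIntegral mul) : HaarKernel mul {e} :=
  ⟨L, inferInstance, inferInstance, inferInstance, mul, ldiv, rdiv, e, id, TL, h, continuous_id,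
    Function.surjective_id, fun _ _ => rfl, fun _ => Iff.rfl⟩

/-- **Extensions** -/
theorem ext_haar (TL : TopMoufang mul ldiv rdiv e) {R : Set L} (h1 : HaarKernel mul R)
    (h2 : HaarSub mul R) : HasIntegral mul := by
  obtain ⟨M, hM, hMc, hMk, hS⟩ := haar_radical TL
  have h3 : M ⊆ R := by
    have := hS L mul ldiv rdiv e id TL continuous_id Function.injective_id (fun _ _ => rfl)
      (by rw [range_id]; exact subset_univ _) R h1
    rwa [image_id] at this
  obtain ⟨S, _, _, _, mulS, ldivS, rdivS, eS, j, TS, hIS, cj, ij, hj, hr⟩ := h2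
  have h4 := hS S mulS ldivS rdivS eS j TS cj ij hj (by rw [hr]; exact h3) {eS} (kernel_self TS hIS)
  rw [image_singleton, hom_one TS.M TL.M j hj] at h4
  have h5 : M = {e} := Subset.antisymm h4 (singleton_subset_iff.2 hM.one_mem)
  rw [h5] at hMk
  exact integral_of_triv TL hMk

lemma ldiv_mem' (M : IsMoufang mul ldiv rdiv e) {D : Set L} (hD : ClosedNormal mul ldiv e D) {x y : L}
    (hx : x ∈ D) (hy : y ∈ D) : ldiv x y ∈ D := by
  rw [M.ldiv_eq]
  exact hD.mul_mem _ (hD.inv_mem _ hx) _ hy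

lemma rdiv_mem' (M : IsMoufang mul ldiv rdiv e) {D : Set L} (hD : ClosedNormal mul ldiv e D) {x y : L}
    (hx : x ∈ D) (hy : y ∈ D) : rdiv y x ∈ D := by
  rw [M.rdiv_eq]
  exact hD.mul_mem _ hy _ (hD.inv_mem _ hx)

lemma sub_top (TL : TopMoufang mul ldiv rdiv e) {D : Set L} (hD : ClosedNormal mul ldiv e D) :
    ∃ (mulD ldivD rdivD : D → D → D) (eD : D), TopMoufang mulD ldivD rdivD eD ∧
      (∀ x y, (mulD x y : L) = mul x y) := by
  refine ⟨fun x y => ⟨mul x y, hD.mul_mem _ x.2 _ y.2⟩, fun x y => ⟨ldiv x y, ldiv_mem' TL.M hD x.2 y.2⟩,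
    fun x y => ⟨rdiv x y, rdiv_mem' TL.M hD y.2 x.2⟩, ⟨e, hD.one_mem⟩, ⟨⟨?_, ?_, ?_, ?_, ?_, ?_, ?_⟩,
      ?_, ?_, ?_⟩, fun x y => rfl⟩
  · exact fun x => Subtype.ext (TL.M.el x)
  · exact fun x => Subtype.ext (TL.M.er x)
  · exact fun x y => Subtype.ext (TL.M.ml x y)
  · exact fun x y => Subtype.ext (TL.M.lm x y)
  · exact fun x y => Subtype.ext (TL.M.mr x y)
  · exact fun x y => Subtype.ext (TL.M.rm x y)
  · exact fun x y z => Subtype.ext (TL.M.mou x y z)
  · exact (TL.cm.comp ((continuous_subtype_val.comp continuous_fst).prodMk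
      (continuous_subtype_val.comp continuous_snd))).subtype_mk _
  · exact (TL.cl.comp ((continuous_subtype_val.comp continuous_fst).prodMk
      (continuous_subtype_val.comp continuous_snd))).subtype_mk _
  · exact (TL.cr.comp ((continuous_subtype_val.comp continuous_fst).prodMk
      (continuous_subtype_val.comp continuous_snd))).subtype_mk _

lemma int_of_on {D : Set L} {mulD : D → D → D} (hm : ∀ x y, (mulD x y : L) = mul x y)
    (h : HasInvariantIntegralOn mul D) : HasIntegral mulD := by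
  obtain ⟨I, i1, i2, i3, i4⟩ := h
  refine ⟨I, i1, i2, fun a f g hg => i3 a f g (fun y z hz => ?_),
    fun a f g hg => i4 a f g (fun y z hz => ?_)⟩
  · rw [hg y]
    congr 1
    exact Subtype.ext ((hm a y).trans hz.symm)
  · rw [hg y]
    congr 1
    exact Subtype.ext ((hm y a).trans hz.symm)

lemma sub_of_on (TL : TopMoufang mul ldiv rdiv e) {D : Set L} (hD : ClosedNormal mul ldiv e D)
    (h : HasInvariantIntegralOn mul D) : HaarSub mul D := by
  obtain ⟨mulD, ldivD, rdivD, eD, TD, hm⟩ := sub_top TL hD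
  have : CompactSpace D := isCompact_iff_compactSpace.1 hD.closed.isCompact
  exact ⟨D, inferInstance, this, inferInstance, mulD, ldivD, rdivD, eD, Subtype.val, TD,
    int_of_on hm h, continuous_subtype_val, Subtype.val_injective, hm, Subtype.range_val⟩

lemma on_of_sub {D : Set L} (h : HaarSub mul D) : HasInvariantIntegralOn mul D := by
  obtain ⟨S, _, _, _, mulS, ldivS, rdivS, eS, j, TS, ⟨I, i1, i2, i3, i4⟩, cj, ij, hj, hr⟩ := h
  let c : C(S, D) := ⟨fun s => ⟨j s, hr ▸ mem_range_self s⟩, cj.subtype_mk _⟩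
  refine ⟨{ toFun := fun f => I (f.comp c)
            map_add' := fun f f' => map_add I (f.comp c) (f'.comp c)
            map_smul' := fun r f => map_smul I r (f.comp c) }, i1,
    fun f hf => i2 _ (fun x => hf _), ?_, ?_⟩
  · rintro ⟨k, hk⟩ f g hfg
    have hk' := hk
    rw [← hr] at hk'
    obtain ⟨s, rfl⟩ := hk'
    refine i3 s _ _ (fun x => ?_)
    exact hfg (c x) (c (mulS s x)) (hj s x)
  · rintro ⟨k, hk⟩ f g hfg
    have hk' := hk
    rw [← hr] at hk'
    obtain ⟨s, rfl⟩ := hk'
    refine i4 s _ _ (fun x => ?_)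
    exact hfg (c x) (c (mulS x s)) (hj x s)

lemma on_triv (TL : TopMoufang mul ldiv rdiv e) : HasInvariantIntegralOn mul ({e} : Set L) := by
  refine ⟨{ toFun := fun f => f ⟨e, rfl⟩, map_add' := fun _ _ => rfl, map_smul' := fun _ _ => rfl },
    rfl, fun f hf => hf _, ?_, ?_⟩
  · rintro ⟨k, hk⟩ f g hfg
    have hk' : k = e := hk
    subst hk'
    exact hfg ⟨k, rfl⟩ ⟨k, rfl⟩ (TL.M.el k).symm
  · rintro ⟨k, hk⟩ f g hfg
    have hk' : k = e := hk
    subst hk'
    exact hfg ⟨k, rfl⟩ ⟨k, rfl⟩ (TL.M.el k).symm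

lemma chain_cn (TL : TopMoufang mul ldiv rdiv e) {c : Set (Set L)}
    (hc : ∀ N ∈ c, ClosedNormal mul ldiv e N) (hch : IsChain (· ⊆ ·) c) (hne : c.Nonempty) :
    ClosedNormal mul ldiv e (closure (⋃₀ c)) := by
  let lh : L → (L ≃ₜ L) := fun a =>
    { toFun := fun x => mul a x
      invFun := fun x => ldiv a x
      left_inv := TL.M.lm a
      right_inv := TL.M.ml a
      continuous_toFun := TL.cm.comp (Continuous.prodMk_right a)
      continuous_invFun := TL.cl.comp (Continuous.prodMk_right a) }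
  let rh : L → (L ≃ₜ L) := fun a =>
    { toFun := fun x => mul x a
      invFun := fun x => rdiv x a
      left_inv := TL.M.rm a
      right_inv := TL.M.mr a
      continuous_toFun := TL.cm.comp (Continuous.prodMk_left a)
      continuous_invFun := TL.cr.comp (Continuous.prodMk_left a) }
  have key : ∀ φ ψ : L ≃ₜ L, (∀ N ∈ c, φ '' N = ψ '' N) →
      φ '' closure (⋃₀ c) = ψ '' closure (⋃₀ c) := by
    intro φ ψ h
    have h1 : φ '' ⋃₀ c = ψ '' ⋃₀ c := by
      rw [image_sUnion, image_sUnion]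
      congr 1
      exact image_congr h
    rw [φ.image_closure, ψ.image_closure, h1]
  refine ⟨isClosed_closure, ?_, ?_, ?_, ?_, ?_, ?_⟩
  · obtain ⟨N, hN⟩ := hne
    exact subset_closure ⟨N, hN, (hc N hN).one_mem⟩
  · intro x hx y hy
    refine map_mem_closure₂ TL.cm hx hy ?_
    rintro a ⟨N, hN, ha⟩ b ⟨N', hN', hb⟩
    rcases hch.total hN hN' with h | h
    · exact ⟨N', hN', (hc N' hN').mul_mem _ (h ha) _ hb⟩
    · exact ⟨N, hN, (hc N hN).mul_mem _ ha _ (h hb)⟩
  · intro x hx
    refine map_mem_closure (f := fun x => ldiv x e) (TL.cl.comp (Continuous.prodMk_left e)) hx ?_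
    rintro a ⟨N, hN, ha⟩
    exact ⟨N, hN, (hc N hN).inv_mem _ ha⟩
  · intro x
    exact key (lh x) (rh x) (fun N hN => (hc N hN).comm x)
  · intro x y
    exact key ((lh y).trans (lh x)) (lh (mul x y)) (fun N hN => (hc N hN).left x y)
  · intro x y
    exact key ((rh x).trans (rh y)) (rh (mul x y)) (fun N hN => (hc N hN).right x y)

/-- a largest closed normal subloop among those having an invariant integral -/
lemma exists_max (TL : TopMoufang mul ldiv rdiv e) :
    ∃ R : Set L, ClosedNormal mul ldiv e R ∧ HaarSub mul R ∧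
      ∀ N : Set L, ClosedNormal mul ldiv e N → HaarSub mul N → R ⊆ N → N = R := by
  have hT : ClosedNormal mul ldiv e ({e} : Set L) := triv_CN TL.old
  obtain ⟨R, -, hR⟩ := zorn_subset_nonempty {N : Set L | ClosedNormal mul ldiv e N ∧ HaarSub mul N}
    (by
      intro c hc hch hne
      have h1 := chain_cn TL (fun N hN => (hc hN).1) hch hne
      refine ⟨closure (⋃₀ c), ⟨h1, sub_of_on TL h1 ?_⟩, fun s hs => ?_⟩
      · refine t25 t01 L mul TL.cm _ c h1.closed h1.mul_mem hne hch.directedOn (fun H hH => ?_)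
          subset_rfl
        exact ⟨(hc hH).1.closed, (subset_sUnion_of_mem hH).trans subset_closure, (hc hH).1.mul_mem,
          on_of_sub (hc hH).2⟩
      · exact (subset_sUnion_of_mem hs).trans subset_closure)
    {e} ⟨hT, sub_of_on TL hT (on_triv TL)⟩
  refine ⟨R, hR.prop.1, hR.prop.2, fun N hN hN2 hRN => ?_⟩
  exact (hR.eq_of_subset ⟨hN, hN2⟩ hRN).symm

end

end Pool.Agent.R664.Haar
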