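import Pool.Agent.R664.Haar.Types

set_option autoImplicit false
set_option linter.unusedSectionVars false

/-!
The extension theorem: averaging the means of the isotopes of the kernel over all types.
-/

namespace Pool.Agent.R664.Haar

open MeasureTheory Topology Filter

section
variable {L : Type*} [TopologicalSpace L] [CompactSpace L] [T2Space L]
variable {Q : Type*} [TopologicalSpace Q] [T2Space Q] [CompactSpace Q]
variable {mul ldiv rdiv : L → L → L} {e : L} {π : L → Q} {mulQ : Q → Q → Q}

namespace ExtData
variable (D : ExtData mul ldiv rdiv e mulQ π)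
include D

/-- `t ↦ q t q` on the quotient -/
def P (_ : ExtData mul ldiv rdiv e mulQ π) (q t : Q) : Q := mulQ (mulQ q t) q

lemma P_hom (x z : L) : D.P (π x) (π z) = π (mul (mul x z) x) := by
  rw [P, D.hom, D.hom]

lemma P_inv (u : L) (t : Q) : D.P (π (D.M.inv u)) (D.P (π u) t) = t := by
  obtain ⟨z, rfl⟩ := D.sπ t
  rw [P_hom, P_hom]
  congr 1
  rw [D.M.flex u z, D.M.inv_mul_cancel, D.M.rip]

lemma P_inv' (u : L) (t : Q) : D.P (π u) (D.P (π (D.M.inv u)) t) = t := by
  have := D.P_inv (D.M.inv u) t
  rwa [D.M.inv_inv] at this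

lemma typ_push (x : L) (t : Q) (K : C(L, ℝ) →ₗ[ℝ] ℝ) (hK : Typ mul D.cm π (D.P (π x) t) K) :
    Typ mul D.cm π t (push (lt mul D.cm x) K) := by
  intro b b' hb hb' f
  exact D.typ_move K x t hK b b' hb hb' f

lemma supp_push (g : C(L, L)) (hg : ∀ n, π n = π e → π (g n) = π e)
    (K : C(L, ℝ) →ₗ[ℝ] ℝ) (hK : SuppOn K {n | π n = π e}) :
    SuppOn (push g K) {n | π n = π e} := by
  intro f f' hff'
  rw [push_apply, push_apply]
  apply hK
  intro n hn
  exact hff' _ (hg n hn)

/-- **The extension theorem for means.** -/
theorem extension [MeasurableSpace Q] [BorelSpace Q] (hG : ∀ c, ∃ K, D.Good c K)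
    (m : Measure Q) [IsProbabilityMeasure m]
    (hml : ∀ q, m.map (fun x => mulQ q x) = m) (hmr : ∀ q, m.map (fun x => mulQ x q) = m)
    (hcQ : Continuous (fun p : Q × Q => mulQ p.1 p.2)) :
    ∃ I : C(L, ℝ) →ₗ[ℝ] ℝ, IsMean I ∧
      ∀ a (f : C(L, ℝ)), I (f.comp (lt mul D.cm a)) = I f := by
  have hq : IsQuotientMap π := D.cπ.isClosedMap.isQuotientMap D.cπ D.sπ
  choose μ hμ using hG
  let s := Function.surjInv D.sπ
  have hs : ∀ q, π (s q) = q := Function.surjInv_eq D.sπ
  let Mt : Q → C(L, ℝ) →ₗ[ℝ] ℝ := fun t => μ (s t)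
  have hMmean : ∀ t, IsMean (Mt t) := fun t => (hμ (s t)).mean
  have hMsupp : ∀ t, SuppOn (Mt t) {n | π n = π e} := fun t => (hμ (s t)).supp
  have hMtyp : ∀ t, Typ mul D.cm π t (Mt t) := by
    intro t
    have := (hμ (s t)).typ
    rwa [hs] at this
  have huniq : ∀ t (H : C(L, ℝ) →ₗ[ℝ] ℝ), IsMean H → SuppOn H {n | π n = π e} →
      Typ mul D.cm π t H → H = Mt t := by
    intro t H h1 h2 h3
    apply D.uniq (s t) (μ (s t)) (hμ (s t)) H h1 h2
    rwa [hs]
  -- continuity in the type
  have hcont : ∀ f : C(L, ℝ), Continuous (fun t => Mt t f) := by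
    intro f
    rw [hq.continuous_iff, continuous_iff_ultrafilter]
    intro c₀ 𝒰 h𝒰
    obtain ⟨K, hK, hlim⟩ := exists_ultralimit 𝒰 (fun c => Mt (π c)) (fun c => hMmean _)
    have hKs : SuppOn K {n | π n = π e} := by
      intro g g' hgg'
      refine tendsto_nhds_unique (hlim g) ?_
      have : (fun c => Mt (π c) g) = fun c => Mt (π c) g' := by
        funext c; exact hMsupp _ g g' hgg'
      rw [this]
      exact hlim g'
    have hKt : Typ mul D.cm π (π c₀) K := by
      have key : ∀ b, π b = π c₀ → ∀ g : C(L, ℝ),
          Tendsto (fun c => Mt (π c) (g.comp (lt mul D.cm b))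
            - Mt (π c) (g.comp (lt mul D.cm (mul c (ldiv c₀ b))))) 𝒰 (𝓝 0) := by
        intro b hb g
        rw [Metric.tendsto_nhds]
        intro ε hε
        have h1 : ∀ᶠ x in 𝓝 b, ∀ y, |g (mul x y) - g (mul b y)| < ε / 2 :=
          unif mul D.cm g b (half_pos hε)
        have h2 : Tendsto (fun c => mul c (ldiv c₀ b)) (𝓝 c₀) (𝓝 b) := by
          have : Continuous (fun c => mul c (ldiv c₀ b)) :=
            D.cm.comp (Continuous.prodMk_left _)
          have h3 := this.tendsto c₀
          rwa [D.M.ml] at h3
        filter_upwards [(h2.eventually h1).filter_mono h𝒰] with c hc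
        rw [Real.dist_eq, sub_zero]
        have := (hMmean (π c)).abs_sub_le (f := g.comp (lt mul D.cm b))
          (g := g.comp (lt mul D.cm (mul c (ldiv c₀ b)))) (c := ε / 2) (by
            intro y
            have := hc y
            rw [abs_sub_comm] at this
            exact this.le)
        linarith
      intro b b' hb hb' g
      have h1 := (hlim (g.comp (lt mul D.cm b))).sub (key b hb g)
      have h2 := (hlim (g.comp (lt mul D.cm b'))).sub (key b' hb' g)
      simp only [sub_sub_cancel, sub_zero] at h1 h2
      refine tendsto_nhds_unique h1 ?_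
      refine h2.congr (fun c => ?_)
      apply hMtyp
      · exact D.ker_mul _ _ (D.ldiv_ker _ _ hb'.symm)
      · exact D.ker_mul _ _ (D.ldiv_ker _ _ hb.symm)
    have := huniq (π c₀) K hK hKs hKt
    have h2 := hlim f
    rw [this] at h2
    exact h2
  -- the average over all types
  let K : C(L, ℝ) →ₗ[ℝ] ℝ :=
    { toFun := fun f => intMean m ⟨fun t => Mt t f, hcont f⟩
      map_add' := by
        intro f g
        rw [← map_add]
        congr 1
        ext t
        exact map_add (Mt t) f g
      map_smul' := by
        intro c f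
        rw [RingHom.id_apply, ← map_smul]
        congr 1
        ext t
        exact map_smul (Mt t) c f }
  have hKapp : ∀ f, K f = ∫ t, Mt t f ∂m := fun f => rfl
  have hK : IsMean K := by
    constructor
    · intro f hf
      exact (isMean_intMean m).nonneg _ (fun t => (hMmean t).nonneg f hf)
    · rw [hKapp]
      simp [(hMmean _).one]
  -- invariance of the measure under `P`
  have hPc : ∀ q, Continuous (D.P q) := by
    intro q
    have h1 : Continuous (fun t => mulQ q t) := hcQ.comp (Continuous.prodMk_right q)
    have h2 : Continuous (fun t => mulQ t q) := hcQ.comp (Continuous.prodMk_left q)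
    exact h2.comp h1
  have hPm : ∀ q, m.map (D.P q) = m := by
    intro q
    have h1 : Continuous (fun t => mulQ q t) := hcQ.comp (Continuous.prodMk_right q)
    have h2 : Continuous (fun t => mulQ t q) := hcQ.comp (Continuous.prodMk_left q)
    have : m.map (D.P q) = (m.map (fun t => mulQ q t)).map (fun t => mulQ t q) := by
      rw [Measure.map_map h2.measurable h1.measurable]
      rfl
    rw [this, hml, hmr]
  have hPint : ∀ q (g : Q → ℝ), Continuous g → ∫ t, g (D.P q t) ∂m = ∫ t, g t ∂m := by
    intro q g hg
    conv_rhs => rw [← hPm q]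
    rw [integral_map (hPc q).measurable.aemeasurable
      (hg.aestronglyMeasurable_of_compactSpace)]
  -- the two properties
  have hii : ∀ x y, π x = π y → ∀ f : C(L, ℝ), K (f.comp (lt mul D.cm x))
      = K (f.comp (lt mul D.cm y)) := by
    intro x y hxy f
    have key : ∀ t, Mt (D.P (π x) t) (f.comp (lt mul D.cm x))
        = Mt (D.P (π y) t) (f.comp (lt mul D.cm y)) := by
      intro t
      have h1 : push (lt mul D.cm (D.M.inv y)) (push (lt mul D.cm x) (Mt (D.P (π x) t)))
          = Mt (D.P (π y) t) := by
        apply huniq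
        · exact isMean_push _ _ (isMean_push _ _ (hMmean _))
        · intro g g' hgg'
          simp only [push_apply]
          apply hMsupp
          intro n hn
          apply hgg'
          change π (mul (D.M.inv y) (mul x n)) = π e
          rw [← D.iff y, D.M.mul_inv_cancel, D.M.er, D.ker_mul x n hn, hxy]
        · apply D.typ_push
          rw [D.P_inv]
          apply D.typ_push
          exact hMtyp _
      rw [← h1]
      simp only [push_apply]
      congr 1
      ext z
      change f (mul x z) = f (mul y (mul (D.M.inv y) (mul x z)))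
      rw [D.M.mul_inv_cancel]
    rw [hKapp, hKapp, ← hPint (π x) _ (hcont _), ← hPint (π y) _ (hcont _)]
    simp_rw [key]
  have hi : ∀ a x (f : C(L, ℝ)), K (f.comp (lt mul D.cm (mul a x)))
      = K ((f.comp (lt mul D.cm a)).comp (lt mul D.cm x)) := by
    intro a x f
    have key : ∀ t, Mt (D.P (π x) (D.P (π a) t)) ((f.comp (lt mul D.cm a)).comp (lt mul D.cm x))
        = Mt (D.P (π (mul a x)) t) (f.comp (lt mul D.cm (mul a x))) := by
      intro t
      have h1 : push (lt mul D.cm (D.M.inv (mul a x)))
          (push (lt mul D.cm a) (push (lt mul D.cm x) (Mt (D.P (π x) (D.P (π a) t)))))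
          = Mt (D.P (π (mul a x)) t) := by
        apply huniq
        · exact isMean_push _ _ (isMean_push _ _ (isMean_push _ _ (hMmean _)))
        · intro g g' hgg'
          simp only [push_apply]
          apply hMsupp
          intro n hn
          apply hgg'
          change π (mul (D.M.inv (mul a x)) (mul a (mul x n))) = π e
          rw [← D.iff (mul a x), D.M.mul_inv_cancel, D.M.er, D.iff a]
          exact D.ker_mul x n hn
        · apply D.typ_push
          rw [D.P_inv]
          apply D.typ_push
          apply D.typ_push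
          exact hMtyp _
      rw [← h1]
      simp only [push_apply]
      congr 1
      ext z
      change f (mul a (mul x z)) = f (mul (mul a x) (mul (D.M.inv (mul a x)) (mul a (mul x z))))
      rw [D.M.mul_inv_cancel]
    have e1 : K (f.comp (lt mul D.cm (mul a x)))
        = ∫ t, Mt (D.P (π (mul a x)) t) (f.comp (lt mul D.cm (mul a x))) ∂m := by
      rw [hKapp, hPint (π (mul a x)) _ (hcont _)]
    have e2 : K ((f.comp (lt mul D.cm a)).comp (lt mul D.cm x))
        = ∫ t, Mt (D.P (π x) (D.P (π a) t)) ((f.comp (lt mul D.cm a)).comp (lt mul D.cm x)) ∂m := by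
      rw [hKapp, ← hPint (π x) _ (hcont _),
        ← hPint (π a) (fun t => Mt (D.P (π x) t) ((f.comp (lt mul D.cm a)).comp (lt mul D.cm x)))
          ((hcont _).comp (hPc _))]
    rw [e1, e2]
    simp_rw [key]
  exact extend mul D.cm π D.cπ D.sπ (fun a q => mulQ (π a) q) D.hom m (fun a => hml _) K hK
    hi hii

end ExtData

end

end Pool.Agent.R664.Haar
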