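import Mathlib

set_option autoImplicit false

/-!
Algebra of Moufang loops given by explicit operations.
-/

namespace Pool.Agent.R664.Haar

/-- Moufang loop axioms for explicitly given multiplication and divisions -/
structure IsMoufang {L : Type*} (mul ldiv rdiv : L → L → L) (e : L) : Prop where
  el : ∀ x, mul e x = x
  er : ∀ x, mul x e = x
  ml : ∀ x y, mul x (ldiv x y) = y
  lm : ∀ x y, ldiv x (mul x y) = y
  mr : ∀ x y, mul (rdiv y x) x = y
  rm : ∀ x y, rdiv (mul y x) x = y
  mou : ∀ x y z, mul x (mul y (mul x z)) = mul (mul (mul x y) x) z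

namespace IsMoufang

variable {L : Type*} {mul ldiv rdiv : L → L → L} {e : L}

/-- inverse -/
def inv (_ : IsMoufang mul ldiv rdiv e) (x : L) : L := ldiv x e

variable (M : IsMoufang mul ldiv rdiv e)
include M

lemma lcancel {x y z : L} (h : mul x y = mul x z) : y = z := by
  rw [← M.lm x y, h, M.lm]

lemma rcancel {x y z : L} (h : mul y x = mul z x) : y = z := by
  rw [← M.rm x y, h, M.rm]

lemma mul_inv (x : L) : mul x (M.inv x) = e := M.ml x e

lemma inv_mul_cancel (x z : L) : mul (M.inv x) (mul x z) = z := by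
  apply M.lcancel (x := x)
  rw [M.mou, M.mul_inv, M.el]

lemma inv_mul (x : L) : mul (M.inv x) x = e := by
  have := M.inv_mul_cancel x e
  rwa [M.er] at this

lemma ldiv_eq (x z : L) : ldiv x z = mul (M.inv x) z := by
  conv_rhs => rw [← M.ml x z, M.inv_mul_cancel]

lemma inv_inv (x : L) : M.inv (M.inv x) = x := by
  apply M.lcancel (x := M.inv x)
  rw [M.mul_inv, M.inv_mul]

lemma mul_inv_cancel (x z : L) : mul x (mul (M.inv x) z) = z := by
  rw [← M.ldiv_eq, M.ml]

/-- `x((x⁻¹t)w) = (tx)(x⁻¹w)` -/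
lemma m2 (x t w : L) : mul x (mul (mul (M.inv x) t) w) = mul (mul t x) (mul (M.inv x) w) := by
  have := M.mou x (mul (M.inv x) t) (mul (M.inv x) w)
  rwa [M.mul_inv_cancel, M.mul_inv_cancel] at this

lemma rip (t x : L) : mul (mul t x) (M.inv x) = t := by
  have := M.m2 x t e
  rw [M.er, M.er, M.mul_inv_cancel] at this
  exact this.symm

lemma rip' (t x : L) : mul (mul t (M.inv x)) x = t := by
  have := M.rip t (M.inv x)
  rwa [M.inv_inv] at this

lemma rdiv_eq (t x : L) : rdiv t x = mul t (M.inv x) := by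
  apply M.rcancel (x := x)
  rw [M.mr, M.rip']

lemma aaip (x y : L) : M.inv (mul x y) = mul (M.inv y) (M.inv x) := by
  have h1 : mul y (M.inv (mul x y)) = M.inv x := by
    have := M.rip (M.inv x) (mul x y)
    rwa [M.inv_mul_cancel] at this
  rw [← h1, M.inv_mul_cancel]

lemma inv_inj {x y : L} (h : M.inv x = M.inv y) : x = y := by
  rw [← M.inv_inv x, h, M.inv_inv]

/-- right Moufang identity -/
lemma rmou (x y z : L) : mul (mul (mul z x) y) x = mul z (mul x (mul y x)) := by
  apply M.inv_inj
  simp only [M.aaip]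
  exact M.mou _ _ _

lemma flex (x y : L) : mul (mul x y) x = mul x (mul y x) := by
  have := M.mou x y e
  rw [M.er, M.er] at this
  exact this.symm

/-- middle Moufang identity -/
lemma mid (x y z : L) : mul (mul x y) (mul z x) = mul (mul x (mul y z)) x := by
  have h1 : mul x (mul y z) = mul (mul (mul x y) x) (mul (M.inv x) z) := by
    have := M.mou x y (mul (M.inv x) z)
    rwa [M.mul_inv_cancel] at this
  have h2 : ∀ u v, mul (mul u v) x = mul (mul u (M.inv x)) (mul x (mul v x)) := by
    intro u v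
    have := M.rmou x v (mul u (M.inv x))
    rwa [M.rip'] at this
  rw [h1, h2, M.rip, ← M.flex x (mul (M.inv x) z), M.mul_inv_cancel]

/-- the left Bol closure property -/
lemma bol (a b : L) : ∃ c, ∀ x, mul a (ldiv b (mul a x)) = mul c x :=
  ⟨mul (mul a (M.inv b)) a, fun x => by rw [M.ldiv_eq, M.mou]⟩

/-- the opposite loop -/
lemma op : IsMoufang (fun x y => mul y x) (fun x y => rdiv y x) (fun x y => ldiv y x) e where
  el := M.er
  er := M.el
  ml := M.mr
  lm := M.rm
  mr := M.ml
  rm := M.lm
  mou x y z := M.rmou x y z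

/-- the principal isotope `u * v = c⁻¹((cu)v)` satisfies the Moufang identity -/
lemma iso_mou (c x y z : L) :
    ldiv c (mul (mul c x) (ldiv c (mul (mul c y) (ldiv c (mul (mul c x) z))))) =
    ldiv c (mul (mul c (ldiv c (mul (mul c (ldiv c (mul (mul c x) y))) x))) z) := by
  simp only [M.ldiv_eq, M.mul_inv_cancel]
  congr 1
  -- left side: (cx)(c⁻¹((cy)(c⁻¹((cx)z))))
  have h1 : ∀ w, mul (M.inv c) (mul (mul c y) (mul (M.inv c) w))
      = mul (mul y (M.inv c)) w := by
    intro w
    rw [M.mou, M.inv_mul_cancel]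
  rw [h1, M.mou]
  congr 1
  rw [← M.mid, M.inv_mul_cancel]

end IsMoufang

end Pool.Agent.R664.Haar
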