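import Mathlib

set_option autoImplicit false

/-!
Means (positive normalised functionals) on `C(X, ℝ)`, ultralimits, and the passage to regular
Borel probability measures.
-/

namespace Pool.Agent.R664.Haar

open MeasureTheory Topology Filter

section
variable {X : Type*} [TopologicalSpace X]

/-- positive normalised functional -/
structure IsMean (J : C(X, ℝ) →ₗ[ℝ] ℝ) : Prop where
  nonneg : ∀ f : C(X, ℝ), 0 ≤ f → 0 ≤ J f
  one : J 1 = 1

lemma IsMean.le_of_le {J : C(X, ℝ) →ₗ[ℝ] ℝ} (hJ : IsMean J) {f : C(X, ℝ)} {c : ℝ}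
    (h : ∀ x, f x ≤ c) : J f ≤ c := by
  have h1 : 0 ≤ J (c • (1 : C(X, ℝ)) - f) := by
    apply hJ.nonneg
    intro x
    simpa using h x
  rw [map_sub, map_smul, hJ.one] at h1
  simpa using h1

lemma IsMean.abs_le {J : C(X, ℝ) →ₗ[ℝ] ℝ} (hJ : IsMean J) {f : C(X, ℝ)} {c : ℝ}
    (h : ∀ x, |f x| ≤ c) : |J f| ≤ c := by
  rw [_root_.abs_le]
  constructor
  · have := hJ.le_of_le (f := -f) (c := c) (fun x => by
      have := (_root_.abs_le.1 (h x)).1
      simp only [ContinuousMap.neg_apply]; linarith)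
    rw [map_neg] at this
    linarith
  · exact hJ.le_of_le (fun x => (_root_.abs_le.1 (h x)).2)

lemma IsMean.abs_sub_le {J : C(X, ℝ) →ₗ[ℝ] ℝ} (hJ : IsMean J) {f g : C(X, ℝ)} {c : ℝ}
    (h : ∀ x, |f x - g x| ≤ c) : |J f - J g| ≤ c := by
  rw [← map_sub]
  exact hJ.abs_le (fun x => by simpa using h x)

/-- average over a finite set of points -/
noncomputable def avg (R : Finset X) : C(X, ℝ) →ₗ[ℝ] ℝ where
  toFun f := (R.card : ℝ)⁻¹ * ∑ r ∈ R, f r
  map_add' f g := by
    simp only [ContinuousMap.add_apply, Finset.sum_add_distrib]; ring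
  map_smul' c f := by
    simp only [ContinuousMap.smul_apply, smul_eq_mul, RingHom.id_apply, ← Finset.mul_sum]; ring

lemma avg_apply (R : Finset X) (f : C(X, ℝ)) :
    avg R f = (R.card : ℝ)⁻¹ * ∑ r ∈ R, f r := rfl

lemma isMean_avg (R : Finset X) (hR : R.Nonempty) : IsMean (avg R) where
  nonneg f hf := by
    rw [avg_apply]
    exact mul_nonneg (inv_nonneg.2 (Nat.cast_nonneg _)) (Finset.sum_nonneg (fun r _ => hf r))
  one := by
    rw [avg_apply]
    have : (R.card : ℝ) ≠ 0 := by
      exact_mod_cast hR.card_pos.ne'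
    simp [this]

/-- averages of two functions that match up to `ε` along a bijection -/
lemma abs_avg_sub_le (R : Finset X) (hR : R.Nonempty) (f g : C(X, ℝ)) (ε : ℝ)
    (τ : X → X) (hτ : ∀ r ∈ R, τ r ∈ R) (hinj : ∀ r ∈ R, ∀ s ∈ R, τ r = τ s → r = s)
    (h : ∀ r ∈ R, |f r - g (τ r)| ≤ ε) : |avg R f - avg R g| ≤ ε := by
  have hc : (0 : ℝ) < R.card := by exact_mod_cast hR.card_pos
  have h1 : ∑ r ∈ R, g (τ r) = ∑ r ∈ R, g r := by
    refine Finset.sum_nbij τ hτ (fun r hr s hs h => hinj r hr s hs h) ?_ (fun _ _ => rfl)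
    exact (Finset.surjOn_of_injOn_of_card_le τ hτ (fun r hr s hs h => hinj r hr s hs h) le_rfl)
  rw [avg_apply, avg_apply, ← h1, ← mul_sub, ← Finset.sum_sub_distrib, abs_mul,
    abs_of_pos (inv_pos.2 hc)]
  calc (R.card : ℝ)⁻¹ * |∑ r ∈ R, (f r - g (τ r))|
      ≤ (R.card : ℝ)⁻¹ * ∑ r ∈ R, |f r - g (τ r)| := by
        gcongr; exact Finset.abs_sum_le_sum_abs _ _
    _ ≤ (R.card : ℝ)⁻¹ * ∑ r ∈ R, ε := by
        gcongr with r hr; exact h r hr
    _ = ε := by
        rw [Finset.sum_const, nsmul_eq_mul]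
        field_simp

variable [CompactSpace X]

/-- ultralimits of means -/
lemma exists_ultralimit {ι : Type*} (𝒰 : Ultrafilter ι) (J : ι → C(X, ℝ) →ₗ[ℝ] ℝ)
    (hJ : ∀ i, IsMean (J i)) : ∃ K : C(X, ℝ) →ₗ[ℝ] ℝ, IsMean K ∧
      ∀ f, Tendsto (fun i => J i f) 𝒰 (𝓝 (K f)) := by
  have hlim : ∀ f : C(X, ℝ), ∃ y : ℝ, Tendsto (fun i => J i f) 𝒰 (𝓝 y) := by
    intro f
    have hc : IsCompact (Set.Icc (-‖f‖) ‖f‖) := isCompact_Icc
    obtain ⟨y, -, hy⟩ := hc.ultrafilter_le_nhds (𝒰.map (fun i => J i f)) (by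
      rw [le_principal_iff, Ultrafilter.mem_coe, Ultrafilter.mem_map]
      apply Filter.univ_mem'
      intro i
      have := (hJ i).abs_le (f := f) (c := ‖f‖) (fun x => by
        rw [← Real.norm_eq_abs]; exact f.norm_coe_le_norm x)
      exact _root_.abs_le.1 this)
    exact ⟨y, hy⟩
  choose K hK using hlim
  refine ⟨{ toFun := K, map_add' := ?_, map_smul' := ?_ }, ⟨?_, ?_⟩, hK⟩
  · intro f g
    refine tendsto_nhds_unique (hK (f + g)) ?_
    simp only [map_add]
    exact (hK f).add (hK g)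
  · intro c f
    refine tendsto_nhds_unique (hK (c • f)) ?_
    simp only [map_smul]
    exact (hK f).const_smul c
  · intro f hf
    exact ge_of_tendsto' (hK f) (fun i => (hJ i).nonneg f hf)
  · refine tendsto_nhds_unique (hK 1) ?_
    simp only [(hJ _).one]
    exact tendsto_const_nhds

end

section
variable {X : Type*} [TopologicalSpace X] [CompactSpace X] [T2Space X] [MeasurableSpace X]
  [BorelSpace X]

/-- the mean attached to a probability measure -/
noncomputable def intMean (μ : Measure X) [IsProbabilityMeasure μ] : C(X, ℝ) →ₗ[ℝ] ℝ where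
  toFun f := ∫ x, f x ∂μ
  map_add' f g := integral_add
    (f.continuous.integrable_of_hasCompactSupport (HasCompactSupport.of_compactSpace _))
    (g.continuous.integrable_of_hasCompactSupport (HasCompactSupport.of_compactSpace _))
  map_smul' c f := integral_smul c (fun x => f x)

omit [T2Space X] in
lemma intMean_apply (μ : Measure X) [IsProbabilityMeasure μ] (f : C(X, ℝ)) :
    intMean μ f = ∫ x, f x ∂μ := rfl

omit [T2Space X] in
lemma isMean_intMean (μ : Measure X) [IsProbabilityMeasure μ] : IsMean (intMean μ) where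
  nonneg f hf := integral_nonneg hf
  one := by
    rw [intMean_apply]; simp

/-- a mean is given by a regular Borel probability measure -/
lemma exists_measure (K : C(X, ℝ) →ₗ[ℝ] ℝ) (hK : IsMean K) :
    ∃ μ : Measure X, μ.Regular ∧ IsProbabilityMeasure μ ∧
      ∀ f : C(X, ℝ), ∫ x, f x ∂μ = K f := by
  let Λ : CompactlySupportedContinuousMap X ℝ →ₚ[ℝ] ℝ :=
  { toFun g := K ⟨g, g.continuous⟩
    map_add' g g' := by
      rw [← map_add]; rfl
    map_smul' c g := by
      rw [RingHom.id_apply, ← map_smul]; rfl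
    monotone' g g' hgg' := by
      have : 0 ≤ K ((⟨g', g'.continuous⟩ : C(X, ℝ)) - ⟨g, g.continuous⟩) := by
        apply hK.nonneg
        intro x
        have := hgg' x
        simpa using this
      rw [map_sub] at this
      simpa using this }
  have hΛ : ∀ f : C(X, ℝ), ∫ x, f x ∂(RealRMK.rieszMeasure Λ) = K f := by
    intro f
    exact RealRMK.integral_rieszMeasure Λ
      ⟨f, HasCompactSupport.of_compactSpace _⟩
  refine ⟨RealRMK.rieszMeasure Λ, by infer_instance, ?_, hΛ⟩
  have h1 := hΛ 1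
  rw [hK.one] at h1
  have h2 : (RealRMK.rieszMeasure Λ).real Set.univ = 1 := by
    simpa using h1
  constructor
  rw [measureReal_def] at h2
  rw [← ENNReal.ofReal_toReal (measure_ne_top (RealRMK.rieszMeasure Λ) Set.univ), h2]
  simp

/-- regular measures with the same integrals are equal -/
lemma ext_regular (μ ν : Measure X) (hμ : μ.Regular) (hν : ν.Regular)
    (h : ∀ f : C(X, ℝ), ∫ x, f x ∂μ = ∫ x, f x ∂ν) : μ = ν :=
  Measure.ext_of_integral_eq_on_compactlySupported (fun f => h ⟨f, f.continuous⟩)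

/-- invariance of a regular measure under a homeomorphism, tested on continuous functions -/
lemma map_eq_of_integral (μ : Measure X) (hμ : μ.Regular) (g : X ≃ₜ X)
    (h : ∀ f : C(X, ℝ), ∫ x, f (g x) ∂μ = ∫ x, f x ∂μ) : μ.map g = μ := by
  refine ext_regular _ _ (Measure.Regular.map g) hμ (fun f => ?_)
  rw [integral_map (g.continuous.measurable.aemeasurable)
    (f.continuous.aestronglyMeasurable_of_compactSpace)]
  exact h f

end

end Pool.Agent.R664.Haar
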