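import Mathlib

set_option autoImplicit false

/-!
Finite orbits for a family of involutions closed under conjugation.
-/

namespace Pool.Agent.R664.Haar

variable {A Ω : Type*}

/-- the permutation defined by a word -/
def word (D : A → Equiv.Perm Ω) (l : List A) : Equiv.Perm Ω := (l.map D).prod

@[simp] lemma word_nil (D : A → Equiv.Perm Ω) : word D [] = 1 := rfl

@[simp] lemma word_cons (D : A → Equiv.Perm Ω) (a : A) (l : List A) :
    word D (a :: l) = D a * word D l := by simp [word]

lemma word_append (D : A → Equiv.Perm Ω) (l m : List A) :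
    word D (l ++ m) = word D l * word D m := by simp [word]

/-- conjugates of the letters by the suffixes, applied to `ω` -/
def marks (D : A → Equiv.Perm Ω) (ω : Ω) : List A → List Ω
  | [] => []
  | a :: l => (word D l)⁻¹ (D a (word D l ω)) :: marks D ω l

lemma length_marks (D : A → Equiv.Perm Ω) (ω : Ω) (l : List A) :
    (marks D ω l).length = l.length := by
  induction l with
  | nil => rfl
  | cons a l ih => simp [marks, ih]

/-- conjugates of `D a` by words are again in the family -/
lemma conj_word (D : A → Equiv.Perm Ω) (h1 : ∀ a, D a * D a = 1)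
    (h2 : ∀ a b, ∃ c, D a * D b * D a = D c) (a : A) (l : List A) :
    ∃ c, (word D l)⁻¹ * D a * word D l = D c := by
  induction l generalizing a with
  | nil => exact ⟨a, by simp⟩
  | cons b l ih =>
    obtain ⟨c, hc⟩ := h2 b a
    obtain ⟨d, hd⟩ := ih c
    refine ⟨d, ?_⟩
    have hb : (D b)⁻¹ = D b := by
      rw [inv_eq_iff_mul_eq_one]; exact h1 b
    rw [← hd, ← hc, word_cons, mul_inv_rev, hb]
    simp [mul_assoc]

lemma marks_mem (D : A → Equiv.Perm Ω) (h1 : ∀ a, D a * D a = 1)
    (h2 : ∀ a b, ∃ c, D a * D b * D a = D c) (ω : Ω) (l : List A) :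
    ∀ θ ∈ marks D ω l, θ ∈ Set.range (fun a => D a ω) := by
  induction l with
  | nil => intro θ hθ; simp [marks] at hθ
  | cons b l ih =>
    intro θ hθ
    rw [marks, List.mem_cons] at hθ
    rcases hθ with rfl | hθ
    · obtain ⟨c, hc⟩ := conj_word D h1 h2 b l
      refine ⟨c, ?_⟩
      simp only [← hc, Equiv.Perm.mul_apply]
    · exact ih θ hθ

lemma mem_marks (D : A → Equiv.Perm Ω) (ω : Ω) (l : List A) (θ : Ω) (h : θ ∈ marks D ω l) :
    ∃ B y C, l = B ++ y :: C ∧ θ = (word D C)⁻¹ (D y (word D C ω)) := by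
  induction l with
  | nil => simp [marks] at h
  | cons b l ih =>
    rw [marks, List.mem_cons] at h
    rcases h with rfl | h
    · exact ⟨[], b, l, rfl, rfl⟩
    · obtain ⟨B, y, C, rfl, h'⟩ := ih h
      exact ⟨b :: B, y, C, rfl, h'⟩

lemma not_nodup_marks (D : A → Equiv.Perm Ω) (ω : Ω) (l : List A)
    (h : ¬ (marks D ω l).Nodup) :
    ∃ B x C, l = B ++ x :: C ∧ (word D C)⁻¹ (D x (word D C ω)) ∈ marks D ω C := by
  induction l with
  | nil => simp [marks] at h
  | cons b l ih =>
    rw [marks, List.nodup_cons] at h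
    by_cases h' : (word D l)⁻¹ (D b (word D l ω)) ∈ marks D ω l
    · exact ⟨[], b, l, rfl, h'⟩
    · obtain ⟨B, x, C, rfl, h''⟩ := ih (fun hn => h ⟨h', hn⟩)
      exact ⟨b :: B, x, C, rfl, h''⟩

/-- a word that is longer than the number of distinct images `D a ω` can be shortened -/
lemma shorten (D : A → Equiv.Perm Ω) (h1 : ∀ a, D a * D a = 1)
    (h2 : ∀ a b, ∃ c, D a * D b * D a = D c) (ω : Ω)
    (h3 : (Set.range (fun a => D a ω)).Finite) (l : List A)
    (hl : h3.toFinset.card < l.length) :
    ∃ l' : List A, l'.length < l.length ∧ word D l' ω = word D l ω := by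
  classical
  have hnd : ¬ (marks D ω l).Nodup := by
    intro hn
    have : (marks D ω l).toFinset ⊆ h3.toFinset := by
      intro θ hθ
      rw [List.mem_toFinset] at hθ
      rw [Set.Finite.mem_toFinset]
      exact marks_mem D h1 h2 ω l θ hθ
    have h4 := Finset.card_le_card this
    rw [List.toFinset_card_of_nodup hn, length_marks] at h4
    omega
  obtain ⟨B, x, l2, rfl, hx⟩ := not_nodup_marks D ω l hnd
  obtain ⟨M, y, C, rfl, hy⟩ := mem_marks D ω l2 _ hx
  refine ⟨B ++ (M ++ C), by simp, ?_⟩
  have key : D x (word D (M ++ y :: C) ω) = word D (M ++ C) ω := by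
    have h5 : D x (word D (M ++ y :: C) ω)
        = word D (M ++ y :: C) ((word D C)⁻¹ (D y (word D C ω))) := by
      rw [← hy, ← Equiv.Perm.mul_apply (word D (M ++ y :: C)), mul_inv_cancel]; rfl
    have h6 : D y (D y (word D C ω)) = word D C ω := by
      rw [← Equiv.Perm.mul_apply, h1]; rfl
    have h7 : word D C ((word D C)⁻¹ (D y (word D C ω))) = D y (word D C ω) := by
      rw [← Equiv.Perm.mul_apply, mul_inv_cancel]; rfl
    rw [h5]
    simp only [word_append, word_cons, Equiv.Perm.mul_apply]
    rw [h7, h6]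
  rw [word_append D B (M ++ C), word_append D B (x :: (M ++ y :: C)), word_cons,
    Equiv.Perm.mul_apply, Equiv.Perm.mul_apply, Equiv.Perm.mul_apply, key]

/-- all words of bounded length move `ω` to finitely many places -/
lemma finite_words (D : A → Equiv.Perm Ω)
    (h3 : ∀ ω, (Set.range (fun a => D a ω)).Finite) (ω : Ω) (n : ℕ) :
    {θ | ∃ l : List A, l.length ≤ n ∧ θ = word D l ω}.Finite := by
  induction n with
  | zero =>
    refine (Set.finite_singleton ω).subset ?_
    rintro θ ⟨l, hl, rfl⟩
    have : l = [] := List.length_eq_zero_iff.1 (Nat.le_zero.1 hl)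
    subst this; simp
  | succ n ih =>
    have : {θ | ∃ l : List A, l.length ≤ n + 1 ∧ θ = word D l ω} ⊆
        {ω} ∪ ⋃ θ ∈ {θ | ∃ l : List A, l.length ≤ n ∧ θ = word D l ω},
          Set.range (fun a => D a θ) := by
      rintro θ ⟨l, hl, rfl⟩
      cases l with
      | nil => left; simp
      | cons a l =>
        right
        simp only [Set.mem_iUnion]
        refine ⟨word D l ω, ⟨l, by simpa using hl, rfl⟩, a, by simp⟩
    refine Set.Finite.subset ?_ this
    exact (Set.finite_singleton _).union (Set.Finite.biUnion ih (fun θ _ => h3 θ))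

/-- **Finite orbits.** -/
theorem finite_orbit (D : A → Equiv.Perm Ω) (h1 : ∀ a, D a * D a = 1)
    (h2 : ∀ a b, ∃ c, D a * D b * D a = D c)
    (h3 : ∀ ω, (Set.range (fun a => D a ω)).Finite) (ω : Ω) :
    {θ | ∃ l : List A, θ = word D l ω}.Finite := by
  refine (finite_words D h3 ω (h3 ω).toFinset.card).subset ?_
  rintro θ ⟨l, rfl⟩
  suffices h : ∀ n, ∀ l : List A, l.length = n →
      ∃ l' : List A, l'.length ≤ (h3 ω).toFinset.card ∧ word D l ω = word D l' ω from
    h l.length l rfl
  intro n
  induction n using Nat.strong_induction_on with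
  | _ n ih =>
    intro l hl
    by_cases hc : l.length ≤ (h3 ω).toFinset.card
    · exact ⟨l, hc, rfl⟩
    · obtain ⟨l', hl', hw⟩ := shorten D h1 h2 ω (h3 ω) l (not_le.1 hc)
      obtain ⟨l'', hl'', hw'⟩ := ih l'.length (by omega) l' rfl
      exact ⟨l'', hl'', by rw [← hw, hw']⟩

end Pool.Agent.R664.Haar
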