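import Pool.Agent.R664.Haar.Orbit
import Pool.Agent.R664.Haar.Ext

set_option autoImplicit false

/-!
Invariant finite-class relations for loops with the left Bol property, relative to a continuous
map with totally disconnected kernel.
-/

namespace Pool.Agent.R664.Haar

open MeasureTheory Topology Filter

section tube
variable {A X Y : Type*} [TopologicalSpace A] [TopologicalSpace X] [CompactSpace X]
  [TopologicalSpace Y]

lemma tube (Φ : A × X → Y) (hΦ : Continuous Φ) (W : Set Y) (hW : IsClopen W) (a₀ : A) :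
    ∀ᶠ a in 𝓝 a₀, ∀ x, (Φ (a, x) ∈ W ↔ Φ (a₀, x) ∈ W) := by
  have := (isCompact_univ (X := X)).eventually_forall_of_forall_eventually
    (x₀ := a₀) (P := fun a x => (Φ (a, x) ∈ W ↔ Φ (a₀, x) ∈ W)) (by
      intro x _
      have hc2 : Continuous (fun z : A × X => Φ (a₀, z.2)) :=
        hΦ.comp (by fun_prop)
      by_cases h : Φ (a₀, x) ∈ W
      · have e1 : ∀ᶠ z : A × X in 𝓝 (a₀, x), Φ z ∈ W :=
          hΦ.continuousAt.eventually (hW.isOpen.mem_nhds h)
        have e2 : ∀ᶠ z : A × X in 𝓝 (a₀, x), Φ (a₀, z.2) ∈ W :=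
          hc2.continuousAt.eventually (hW.isOpen.mem_nhds h)
        filter_upwards [e1, e2] with z h1 h2
        exact ⟨fun _ => h2, fun _ => h1⟩
      · have e1 : ∀ᶠ z : A × X in 𝓝 (a₀, x), Φ z ∈ Wᶜ :=
          hΦ.continuousAt.eventually (hW.compl.isOpen.mem_nhds h)
        have e2 : ∀ᶠ z : A × X in 𝓝 (a₀, x), Φ (a₀, z.2) ∈ Wᶜ :=
          hc2.continuousAt.eventually (hW.compl.isOpen.mem_nhds h)
        filter_upwards [e1, e2] with z h1 h2
        exact ⟨fun h => absurd h h1, fun h => absurd h h2⟩)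
  filter_upwards [this] with a ha x
  exact ha x (Set.mem_univ x)

end tube

section
variable {L : Type*} [TopologicalSpace L] [CompactSpace L] [T2Space L]
variable {Q : Type*} [TopologicalSpace Q] [T2Space Q]

/-- data: a compact space with jointly continuous, jointly invertible left translations,
closed under `a, b ↦ L_a L_b⁻¹ L_a`, and a continuous map compatible with them -/
structure BolData (mul ldiv : L → L → L) (e : L) (π : L → Q) : Prop where
  ml : ∀ a x, mul a (ldiv a x) = x
  lm : ∀ a x, ldiv a (mul a x) = x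
  er : ∀ x, mul x e = x
  el : ∀ x, mul e x = x
  cm : Continuous (fun p : L × L => mul p.1 p.2)
  cl : Continuous (fun p : L × L => ldiv p.1 p.2)
  bol : ∀ a b, ∃ c, ∀ x, mul a (ldiv b (mul a x)) = mul c x
  cπ : Continuous π
  iff : ∀ a x y, π (mul a x) = π (mul a y) ↔ π x = π y

/-- pairs with the same image -/
abbrev Pairs (π : L → Q) : Type _ := {p : L × L // π p.1 = π p.2}

variable {mul ldiv : L → L → L} {e : L} {π : L → Q}

omit [CompactSpace L] [T2Space L] [T2Space Q] in
lemma BolData.iff' (B : BolData mul ldiv e π) (a x y : L) :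
    π (ldiv a x) = π (ldiv a y) ↔ π x = π y := by
  rw [← B.iff a, B.ml, B.ml]

omit [T2Space L] in
lemma compact_pairs (B : BolData mul ldiv e π) : CompactSpace (Pairs π) := by
  exact (isCompact_iff_compactSpace (s := {p : L × L | π p.1 = π p.2})).1
    (isClosed_eq (B.cπ.comp continuous_fst) (B.cπ.comp continuous_snd)).isCompact

/-- diagonal translation -/
def tr (B : BolData mul ldiv e π) (a : L) (p : Pairs π) : Pairs π :=
  ⟨(mul a p.1.1, mul a p.1.2), (B.iff a _ _).2 p.2⟩

/-- inverse of the diagonal translation -/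
def tr' (B : BolData mul ldiv e π) (a : L) (p : Pairs π) : Pairs π :=
  ⟨(ldiv a p.1.1, ldiv a p.1.2), (B.iff' a _ _).2 p.2⟩

omit [CompactSpace L] [T2Space L] [T2Space Q] in
lemma tr_tr' (B : BolData mul ldiv e π) (a : L) (p : Pairs π) : tr B a (tr' B a p) = p := by
  apply Subtype.ext; simp [tr, tr', B.ml]

omit [CompactSpace L] [T2Space L] [T2Space Q] in
lemma tr'_tr (B : BolData mul ldiv e π) (a : L) (p : Pairs π) : tr' B a (tr B a p) = p := by
  apply Subtype.ext; simp [tr, tr', B.lm]

omit [CompactSpace L] [T2Space L] [T2Space Q] in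
lemma continuous_tr (B : BolData mul ldiv e π) :
    Continuous (fun z : L × Pairs π => tr B z.1 z.2) := by
  unfold tr
  refine Continuous.subtype_mk (Continuous.prodMk ?_ ?_) _
  · exact B.cm.comp (by fun_prop : Continuous (fun z : L × Pairs π => (z.1, z.2.1.1)))
  · exact B.cm.comp (by fun_prop : Continuous (fun z : L × Pairs π => (z.1, z.2.1.2)))

omit [CompactSpace L] [T2Space L] [T2Space Q] in
lemma continuous_tr' (B : BolData mul ldiv e π) :
    Continuous (fun z : L × Pairs π => tr' B z.1 z.2) := by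
  unfold tr'
  refine Continuous.subtype_mk (Continuous.prodMk ?_ ?_) _
  · exact B.cl.comp (by fun_prop : Continuous (fun z : L × Pairs π => (z.1, z.2.1.1)))
  · exact B.cl.comp (by fun_prop : Continuous (fun z : L × Pairs π => (z.1, z.2.1.2)))

/-- pairs of clopen sets -/
abbrev Om (π : L → Q) : Type _ :=
  {W : Set (Pairs π) // IsClopen W} × {W : Set (Pairs π) // IsClopen W}

/-- the swap -/
def swp (B : BolData mul ldiv e π) (a : L) (ω : Om π) : Om π :=
  (⟨(fun p => tr B a p) ⁻¹' ω.2.1, ω.2.2.preimage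
      ((continuous_tr B).comp (Continuous.prodMk_right a))⟩,
   ⟨(fun p => tr' B a p) ⁻¹' ω.1.1, ω.1.2.preimage
      ((continuous_tr' B).comp (Continuous.prodMk_right a))⟩)

omit [CompactSpace L] [T2Space L] [T2Space Q] in
lemma swp_swp (B : BolData mul ldiv e π) (a : L) (ω : Om π) : swp B a (swp B a ω) = ω := by
  apply Prod.ext
  · apply Subtype.ext
    ext p
    simp only [swp, Set.mem_preimage, tr'_tr]
  · apply Subtype.ext
    ext p
    simp only [swp, Set.mem_preimage, tr_tr']

/-- the swap as a permutation -/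
def dd (B : BolData mul ldiv e π) (a : L) : Equiv.Perm (Om π) :=
  ⟨swp B a, swp B a, swp_swp B a, swp_swp B a⟩

omit [CompactSpace L] [T2Space L] [T2Space Q] in
lemma dd_apply (B : BolData mul ldiv e π) (a : L) (ω : Om π) : dd B a ω = swp B a ω := rfl

omit [CompactSpace L] [T2Space L] [T2Space Q] in
lemma dd_conj (B : BolData mul ldiv e π) (a b : L) : ∃ c, dd B a * dd B b * dd B a = dd B c := by
  obtain ⟨c, hc⟩ := B.bol a b
  have h1 : ∀ p, tr B a (tr' B b (tr B a p)) = tr B c p := by
    intro p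
    apply Subtype.ext
    simp [tr, tr', hc]
  have h2 : ∀ p, tr' B a (tr B b (tr' B a p)) = tr' B c p := by
    intro p
    have := h1 (tr' B a (tr B b (tr' B a p)))
    rw [tr_tr', tr'_tr, tr_tr'] at this
    conv_rhs => rw [this]
    rw [tr'_tr]
  refine ⟨c, Equiv.ext (fun ω => ?_)⟩
  rw [Equiv.Perm.mul_apply, Equiv.Perm.mul_apply]
  apply Prod.ext
  · apply Subtype.ext
    ext p
    simp only [dd_apply, swp, Set.mem_preimage, h1]
  · apply Subtype.ext
    ext p
    simp only [dd_apply, swp, Set.mem_preimage, h2]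

omit [T2Space L] in
lemma dd_finite (B : BolData mul ldiv e π) (ω : Om π) :
    (Set.range (fun a => dd B a ω)).Finite := by
  have := compact_pairs B
  have : IsLocallyConstant (fun a => dd B a ω) := by
    rw [IsLocallyConstant.iff_eventually_eq]
    intro a₀
    filter_upwards [tube (fun z : L × Pairs π => tr B z.1 z.2) (continuous_tr B) ω.2.1 ω.2.2 a₀,
      tube (fun z : L × Pairs π => tr' B z.1 z.2) (continuous_tr' B) ω.1.1 ω.1.2 a₀] with a h1 h2
    apply Prod.ext
    · apply Subtype.ext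
      ext p
      exact h1 p
    · apply Subtype.ext
      ext p
      exact h2 p
  exact this.range_finite

omit [T2Space L] in
/-- invariant clopen relations inside a given clopen relation -/
lemma exists_invariant (B : BolData mul ldiv e π) (W : Set (Pairs π)) (hW : IsClopen W)
    (hd : ∀ x, (⟨(x, x), rfl⟩ : Pairs π) ∈ W) :
    ∃ E : Set (Pairs π), IsClopen E ∧ E ⊆ W ∧ (∀ x, (⟨(x, x), rfl⟩ : Pairs π) ∈ E) ∧
      ∀ a p, tr B a p ∈ E ↔ p ∈ E := by
  classical
  let ω₀ : Om π := (⟨W, hW⟩, ⟨W, hW⟩)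
  have hfin := finite_orbit (dd B) (fun a => Equiv.ext (fun ω => swp_swp B a ω)) (dd_conj B)
    (dd_finite B) ω₀
  set O : Set (Om π) := {θ | ∃ l : List L, θ = word (dd B) l ω₀} with hO
  have hOinv : ∀ a, ∀ θ ∈ O, swp B a θ ∈ O := by
    rintro a θ ⟨l, rfl⟩
    exact ⟨a :: l, by rw [word_cons, Equiv.Perm.mul_apply]; rfl⟩
  have hOd : ∀ θ ∈ O, ∀ x, (⟨(x, x), rfl⟩ : Pairs π) ∈ θ.1.1 ∧
      (⟨(x, x), rfl⟩ : Pairs π) ∈ θ.2.1 := by
    rintro θ ⟨l, rfl⟩
    induction l with
    | nil => intro x; exact ⟨hd x, hd x⟩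
    | cons a l ih =>
      intro x
      rw [word_cons, Equiv.Perm.mul_apply]
      exact ⟨(ih (mul a x)).2, (ih (ldiv a x)).1⟩
  let E : Set (Pairs π) := ⋂ θ ∈ O, θ.2.1
  have hE : ∀ a p, tr B a p ∈ E ↔ ∀ θ ∈ O, p ∈ θ.1.1 := by
    intro a p
    simp only [E, Set.mem_iInter]
    constructor
    · intro h θ hθ
      have := h _ (hOinv a θ hθ)
      simpa only [swp, Set.mem_preimage, tr'_tr] using this
    · intro h θ hθ
      exact h _ (hOinv a θ hθ)
  have htre : ∀ p, tr B e p = p := by
    intro p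
    apply Subtype.ext
    simp [tr, B.el]
  refine ⟨E, ?_, ?_, ?_, ?_⟩
  · exact hfin.isClopen_biInter (fun θ _ => θ.2.2)
  · intro p hp
    exact Set.mem_iInter₂.1 hp ω₀ ⟨[], rfl⟩
  · intro x
    exact Set.mem_iInter₂.2 (fun θ hθ => (hOd θ hθ x).2)
  · intro a p
    rw [hE a p, ← hE e p, htre]

end

end Pool.Agent.R664.Haar
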