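import Pool.Agent.R664.Haar.Two

set_option autoImplicit false
set_option linter.unusedSectionVars false

/-!
The extension theorem for invariant means on compact Moufang loops: averaging over types.
-/

namespace Pool.Agent.R664.Haar

open MeasureTheory Topology Filter

section
variable {L : Type*} [TopologicalSpace L]

/-- the mean `K` only depends on the restriction to `X` -/
def SuppOn (K : C(L, ℝ) →ₗ[ℝ] ℝ) (X : Set L) : Prop :=
  ∀ f g : C(L, ℝ), (∀ y ∈ X, f y = g y) → K f = K g

variable {Q : Type*} (mul : L → L → L) (hmul : Continuous (fun p : L × L => mul p.1 p.2))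
  (π : L → Q)

/-- invariance of type `t`: all translations by elements of the coset `t` act in the same way -/
def Typ (t : Q) (K : C(L, ℝ) →ₗ[ℝ] ℝ) : Prop :=
  ∀ b b', π b = t → π b' = t → ∀ f : C(L, ℝ),
    K (f.comp (lt mul hmul b)) = K (f.comp (lt mul hmul b'))

end

section
variable {L : Type*} [TopologicalSpace L] [CompactSpace L] [T2Space L]
variable {Q : Type*} [TopologicalSpace Q] [T2Space Q]
variable {mul ldiv rdiv : L → L → L} {e : L} {π : L → Q} {mulQ : Q → Q → Q}

/-- everything we need about the extension -/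
structure ExtData (mul ldiv rdiv : L → L → L) (e : L) (mulQ : Q → Q → Q) (π : L → Q) : Prop where
  M : IsMoufang mul ldiv rdiv e
  cm : Continuous (fun p : L × L => mul p.1 p.2)
  cl : Continuous (fun p : L × L => ldiv p.1 p.2)
  cπ : Continuous π
  sπ : Function.Surjective π
  hom : ∀ x y, π (mul x y) = mulQ (π x) (π y)
  can : ∀ a x y, mulQ a x = mulQ a y → x = y

namespace ExtData
variable (D : ExtData mul ldiv rdiv e mulQ π)
include D

lemma iff (a x y : L) : π (mul a x) = π (mul a y) ↔ π x = π y := by
  rw [D.hom, D.hom]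
  exact ⟨fun h => D.can _ _ _ h, fun h => by rw [h]⟩

lemma ker_mul (x n : L) (hn : π n = π e) : π (mul x n) = π x := by
  have := (D.iff x n e).2 hn
  rwa [D.M.er] at this

lemma ldiv_ker (x y : L) (h : π x = π y) : π (ldiv x y) = π e := by
  rw [← D.iff x, D.M.ml, D.M.er, h]

/-- moving a mean by a left translation changes the position and the type -/
lemma typ_move (K : C(L, ℝ) →ₗ[ℝ] ℝ) (x : L) (t : Q)
    (hK : Typ mul D.cm π (mulQ (mulQ (π x) t) (π x)) K) :
    ∀ b b', π b = t → π b' = t → ∀ f : C(L, ℝ),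
      K ((f.comp (lt mul D.cm b)).comp (lt mul D.cm x))
        = K ((f.comp (lt mul D.cm b')).comp (lt mul D.cm x)) := by
  intro b b' hb hb' f
  have key : ∀ b, (f.comp (lt mul D.cm b)).comp (lt mul D.cm x)
      = (f.comp (lt mul D.cm (D.M.inv x))).comp (lt mul D.cm (mul (mul x b) x)) := by
    intro b
    ext y
    change f (mul b (mul x y)) = f (mul (D.M.inv x) (mul (mul (mul x b) x) y))
    rw [← D.M.mou, D.M.inv_mul_cancel]
  rw [key b, key b']
  apply hK
  · rw [D.hom, D.hom, hb]
  · rw [D.hom, D.hom, hb']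


end ExtData

/-- push a functional forward along a continuous map -/
def push {X Y : Type*} [TopologicalSpace X] [TopologicalSpace Y] (g : C(X, Y))
    (K : C(X, ℝ) →ₗ[ℝ] ℝ) : C(Y, ℝ) →ₗ[ℝ] ℝ where
  toFun f := K (f.comp g)
  map_add' f f' := by rw [← map_add]; rfl
  map_smul' c f := by rw [RingHom.id_apply, ← map_smul]; rfl

lemma push_apply {X Y : Type*} [TopologicalSpace X] [TopologicalSpace Y] (g : C(X, Y))
    (K : C(X, ℝ) →ₗ[ℝ] ℝ) (f : C(Y, ℝ)) : push g K f = K (f.comp g) := rfl

lemma isMean_push {X Y : Type*} [TopologicalSpace X] [TopologicalSpace Y] (g : C(X, Y))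
    (K : C(X, ℝ) →ₗ[ℝ] ℝ) (hK : IsMean K) : IsMean (push g K) where
  nonneg _ hf := hK.nonneg _ (fun x => hf (g x))
  one := hK.one

lemma IsMean.continuous {X : Type*} [TopologicalSpace X] [CompactSpace X]
    {K : C(X, ℝ) →ₗ[ℝ] ℝ} (hK : IsMean K) : Continuous K := by
  rw [Metric.continuous_iff]
  intro f ε hε
  refine ⟨ε, hε, fun g hg => ?_⟩
  rw [Real.dist_eq]
  refine lt_of_le_of_lt (hK.abs_sub_le (c := dist g f) (fun x => ?_)) hg
  rw [← Real.dist_eq]
  exact ContinuousMap.dist_apply_le_dist x

/-- slices of a jointly continuous function -/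
def sl {X Y : Type*} [TopologicalSpace X] [TopologicalSpace Y] (F : X → Y → ℝ)
    (hF : Continuous F.uncurry) (x : X) : C(Y, ℝ) :=
  ⟨F x, hF.comp (Continuous.prodMk_right x)⟩

lemma continuous_sl {X Y : Type*} [TopologicalSpace X] [TopologicalSpace Y] [CompactSpace Y]
    (F : X → Y → ℝ) (hF : Continuous F.uncurry) (K : C(Y, ℝ) →ₗ[ℝ] ℝ) (hK : IsMean K) :
    Continuous (fun x => K (sl F hF x)) := by
  have : (fun x => K (sl F hF x)) = K ∘ (ContinuousMap.curry ⟨F.uncurry, hF⟩) := by
    funext x
    rfl
  rw [this]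
  exact hK.continuous.comp (ContinuousMap.curry ⟨F.uncurry, hF⟩).continuous

namespace ExtData
variable (D : ExtData mul ldiv rdiv e mulQ π)
include D

/-- `u ↦ c⁻¹((cu)v)` -/
def rt (c v : L) : C(L, L) :=
  ⟨fun u => ldiv c (mul (mul c u) v),
    D.cl.comp (continuous_const.prodMk
      (D.cm.comp ((D.cm.comp (Continuous.prodMk_right c)).prodMk continuous_const)))⟩

/-- an invariant mean on the isotope of the kernel at `c` -/
structure Good (c : L) (K : C(L, ℝ) →ₗ[ℝ] ℝ) : Prop where
  mean : IsMean K
  supp : SuppOn K {n | π n = π e}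
  typ : Typ mul D.cm π (π c) K
  right : ∀ v, π v = π e → ∀ f : C(L, ℝ), K (f.comp (D.rt c v)) = K f

lemma uniq (c : L) (K : C(L, ℝ) →ₗ[ℝ] ℝ) (hK : D.Good c K) (H : C(L, ℝ) →ₗ[ℝ] ℝ)
    (hH : IsMean H) (hs : SuppOn H {n | π n = π e}) (ht : Typ mul D.cm π (π c) H) : H = K := by
  ext f
  let F : L → L → ℝ := fun u v => f (ldiv c (mul (mul c u) v))
  have hF : Continuous F.uncurry := by
    have h1 : Continuous (fun p : L × L => mul c p.1) :=
      D.cm.comp (continuous_const.prodMk continuous_fst)
    have h2 : Continuous (fun p : L × L => mul (mul c p.1) p.2) :=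
      D.cm.comp (h1.prodMk continuous_snd)
    have h3 : Continuous (fun p : L × L => ldiv c (mul (mul c p.1) p.2)) :=
      D.cl.comp (continuous_const.prodMk h2)
    exact f.continuous.comp h3
  have hF' : Continuous (Function.uncurry fun v u => F u v) := hF.comp continuous_swap
  have hfub := fubini K hK.mean H hH F hF ⟨_, continuous_sl F hF H hH⟩
    ⟨_, continuous_sl (fun v u => F u v) hF' K hK.mean⟩
    (fun x f hf => by
      change H (sl F hF x) = H f
      congr 1
      ext y
      exact (hf y).symm)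
    (fun y f hf => by
      change K (sl (fun v u => F u v) hF' y) = K f
      congr 1
      ext x
      exact (hf x).symm)
  have h1 : K ⟨_, continuous_sl F hF H hH⟩ = H f := by
    have : K ⟨_, continuous_sl F hF H hH⟩ = K ((H f) • 1) := by
      apply hK.supp
      intro u hu
      simp only [ContinuousMap.coe_mk, ContinuousMap.smul_apply, ContinuousMap.one_apply,
        smul_eq_mul, mul_one]
      have h2 := ht (mul c u) c (D.ker_mul c u hu) rfl
        (f.comp ⟨fun x => ldiv c x, D.cl.comp (Continuous.prodMk_right c)⟩)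
      have h3 : (f.comp ⟨fun x => ldiv c x, D.cl.comp (Continuous.prodMk_right c)⟩).comp
          (lt mul D.cm c) = f := by
        ext x
        change f (ldiv c (mul c x)) = f x
        rw [D.M.lm]
      rw [h3] at h2
      exact h2
    rw [this, map_smul, hK.mean.one, smul_eq_mul, mul_one]
  have h2 : H ⟨_, continuous_sl (fun v u => F u v) hF' K hK.mean⟩ = K f := by
    have : H ⟨_, continuous_sl (fun v u => F u v) hF' K hK.mean⟩ = H ((K f) • 1) := by
      apply hs
      intro v hv
      simp only [ContinuousMap.coe_mk, ContinuousMap.smul_apply, ContinuousMap.one_apply,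
        smul_eq_mul, mul_one]
      exact hK.right v hv f
    rw [this, map_smul, hH.one, smul_eq_mul, mul_one]
  rw [← h1, hfub, h2]

end ExtData

end

end Pool.Agent.R664.Haar
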